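import Pool.Agent.Lib.BandLim48.Defs

/-! Module Bands of MP_fc1499_an: signals with separated compact spectra are determined by their
sum, and spectral support of a uniformly convergent series. -/

set_option autoImplicit false

open MeasureTheory Topology Filter Set
open scoped SchwartzMap FourierTransform ENNReal ContDiff Manifold

namespace BandLim48

/-- integrability of a term against a Schwartz function -/
lemma bands_integrable {k : ℕ} {f : E k → ℂ} (hf : Continuous f) {b : ℝ} (hb : ∀ t, ‖f t‖ ≤ b)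
    (g : 𝓢(E k, ℂ)) : Integrable (fun t => f t * g t) := by
  refine Integrable.mono' (g.integrable.norm.const_mul b)
    (hf.mul g.continuous).aestronglyMeasurable (Eventually.of_forall fun t => ?_)
  rw [norm_mul]
  exact mul_le_mul_of_nonneg_right (hb t) (norm_nonneg _)

/-- the integral of the sum against a Schwartz function -/
lemma bands_hasSum {k : ℕ} {I : Type} [Countable I] (f : I → E k → ℂ)
    (hf : ∀ i, Continuous (f i)) (b : I → ℝ) (hb : ∀ i t, ‖f i t‖ ≤ b i)
    (hbs : Summable b) (g : 𝓢(E k, ℂ)) :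
    HasSum (fun i => ∫ t, f i t * g t) (∫ t, (∑' i, f i t) * g t) := by
  have h1 : Summable fun i => ∫ t, ‖f i t * g t‖ := by
    refine Summable.of_nonneg_of_le (fun i => integral_nonneg fun t => norm_nonneg _)
      (fun i => ?_) (hbs.mul_right (∫ t, ‖g t‖))
    rw [← integral_const_mul]
    refine integral_mono (bands_integrable (hf i) (hb i) g).norm (g.integrable.norm.const_mul _)
      fun t => ?_
    show ‖f i t * g t‖ ≤ b i * ‖g t‖
    rw [norm_mul]
    exact mul_le_mul_of_nonneg_right (hb i t) (norm_nonneg _)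
  have h2 := hasSum_integral_of_summable_integral_norm
    (fun i => bands_integrable (hf i) (hb i) g) h1
  have h3 : (∫ t, ∑' i, f i t * g t) = ∫ t, (∑' i, f i t) * g t := by
    refine integral_congr_ae (Eventually.of_forall fun t => ?_)
    exact tsum_mul_right
  rwa [h3] at h2

theorem bands_specIn {k : ℕ} {I : Type} [Countable I] (Q : Set (E k))
    (f : I → E k → ℂ) (hf : ∀ i, Continuous (f i)) (b : I → ℝ) (hb : ∀ i t, ‖f i t‖ ≤ b i)
    (hbs : Summable b) (hspec : ∀ i, SpecIn (f i) Q) :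
    SpecIn (fun t => ∑' i, f i t) Q := by
  intro ψ hψ
  have h1 := bands_hasSum f hf b hb hbs (𝓕 ψ : 𝓢(E k, ℂ))
  have h2 : (fun i => ∫ t, f i t * (𝓕 ψ : 𝓢(E k, ℂ)) t) = fun _ => 0 := by
    funext i
    exact hspec i ψ hψ
  rw [h2] at h1
  exact (h1.unique hasSum_zero)

theorem bands_injective {k : ℕ} {I : Type} [Countable I] (Q : I → Set (E k))
    (hQc : ∀ i, IsCompact (Q i)) (hsep : ∀ i, ∃ Z : Set (E k), IsClosed Z ∧ Disjoint (Q i) Z ∧
      ∀ j, j ≠ i → Q j ⊆ Z)
    (f : I → E k → ℂ) (hf : ∀ i, Continuous (f i)) (b : I → ℝ) (hb : ∀ i t, ‖f i t‖ ≤ b i)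
    (hbs : Summable b) (hspec : ∀ i, SpecIn (f i) (Q i)) (h0 : ∀ t, ∑' i, f i t = 0) :
    ∀ i t, f i t = 0 := by
  intro i
  obtain ⟨Z, hZc, hZd, hZ⟩ := hsep i
  -- the cutoff
  obtain ⟨R, hR⟩ := (hQc i).isBounded.subset_ball (0 : E k)
  have hZ'c : IsClosed (Z ∪ (Metric.ball (0 : E k) R)ᶜ) :=
    hZc.union Metric.isOpen_ball.isClosed_compl
  have hZ'd : Disjoint (Z ∪ (Metric.ball (0 : E k) R)ᶜ) (Q i) := by
    rw [Set.disjoint_union_left]
    refine ⟨hZd.symm, ?_⟩
    rw [Set.disjoint_compl_left_iff_subset]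
    exact hR
  obtain ⟨χ, hχ0, hχ1, -⟩ := exists_contMDiffMap_zero_one_nhds_of_isClosed (n := (⊤ : ℕ∞)) 𝓘(ℝ, E k)
    hZ'c (hQc i).isClosed hZ'd
  have hχs : ContDiff ℝ ∞ (χ : E k → ℝ) := χ.contMDiff.contDiff
  have hχR : ∀ x, x ∉ Metric.ball (0 : E k) R → χ x = 0 := by
    intro x hx
    exact hχ0.self_of_nhdsSet x (Or.inr hx)
  -- every Schwartz function is annihilated
  have key : ∀ ψ : 𝓢(E k, ℂ), ∫ t, f i t * (𝓕 ψ : 𝓢(E k, ℂ)) t = 0 := by
    intro ψ
    set g : E k → ℂ := fun x => (χ x : ℂ) * ψ x with hg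
    have hgs : ContDiff ℝ ∞ g :=
      (Complex.ofRealCLM.contDiff.comp hχs).mul (ψ.smooth ⊤)
    have hgc : HasCompactSupport g := by
      refine HasCompactSupport.intro (isCompact_closedBall (0 : E k) R) fun x hx => ?_
      have : x ∉ Metric.ball (0 : E k) R := fun h => hx (Metric.ball_subset_closedBall h)
      rw [hg]
      simp only
      rw [hχR x this]
      simp
    set ψ1 : 𝓢(E k, ℂ) := hgc.toSchwartzMap hgs with hψ1
    have hψ1v : ∀ x, ψ1 x = (χ x : ℂ) * ψ x := fun x => rfl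
    set ψ2 : 𝓢(E k, ℂ) := ψ - ψ1 with hψ2
    have hψ2v : ∀ x, ψ2 x = (1 - (χ x : ℂ)) * ψ x := by
      intro x
      rw [hψ2, sub_apply, hψ1v]
      ring
    have hsupp1 : ∀ x ∈ Z, x ∉ tsupport (ψ1 : E k → ℂ) := by
      intro x hx
      rw [notMem_tsupport_iff_eventuallyEq]
      have h1 : ∀ᶠ y in 𝓝 x, χ y = 0 :=
        (Filter.eventually_iff.1 hχ0 |> fun h => (mem_nhdsSet_iff_forall.1 h) x (Or.inl hx))
      filter_upwards [h1] with y hy
      rw [hψ1v, hy]
      simp
    have hsupp2 : ∀ x ∈ Q i, x ∉ tsupport (ψ2 : E k → ℂ) := by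
      intro x hx
      rw [notMem_tsupport_iff_eventuallyEq]
      have h1 : ∀ᶠ y in 𝓝 x, χ y = 1 :=
        (Filter.eventually_iff.1 hχ1 |> fun h => (mem_nhdsSet_iff_forall.1 h) x hx)
      filter_upwards [h1] with y hy
      rw [hψ2v, hy]
      simp
    have e2 : ∫ t, f i t * (𝓕 ψ2 : 𝓢(E k, ℂ)) t = 0 :=
      hspec i ψ2 fun x hx hxQ => hsupp2 x hxQ hx
    have e1 : ∫ t, f i t * (𝓕 ψ1 : 𝓢(E k, ℂ)) t = 0 := by
      have h1 := bands_hasSum f hf b hb hbs (𝓕 ψ1 : 𝓢(E k, ℂ))
      have h2 : ∀ j, j ≠ i → ∫ t, f j t * (𝓕 ψ1 : 𝓢(E k, ℂ)) t = 0 := by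
        intro j hj
        exact hspec j ψ1 fun x hx hxQ => hsupp1 x (hZ j hj hxQ) hx
      have h3 := hasSum_single (f := fun j => ∫ t, f j t * (𝓕 ψ1 : 𝓢(E k, ℂ)) t) i h2
      have h4 := h3.unique h1
      simp only [h0, zero_mul, integral_zero] at h4
      exact h4
    have e3 : ψ = ψ1 + ψ2 := by rw [hψ2]; abel
    have e4 : (𝓕 ψ : 𝓢(E k, ℂ)) = 𝓕 ψ1 + 𝓕 ψ2 := by
      conv_lhs => rw [e3]
      exact FourierTransform.fourier_add _ _
    have e5 : (fun t => f i t * (𝓕 ψ : 𝓢(E k, ℂ)) t) =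
        fun t => f i t * (𝓕 ψ1 : 𝓢(E k, ℂ)) t + f i t * (𝓕 ψ2 : 𝓢(E k, ℂ)) t := by
      funext t
      rw [e4, add_apply]
      ring
    rw [e5, integral_add (bands_integrable (hf i) (hb i) _) (bands_integrable (hf i) (hb i) _),
      e1, e2, add_zero]
  -- `f i` vanishes almost everywhere
  have hae : ∀ᵐ t, f i t = 0 := by
    refine ae_eq_zero_of_integral_contDiff_smul_eq_zero (hf i).locallyIntegrable ?_
    intro u hu huc
    have hc : HasCompactSupport (Complex.ofRealCLM ∘ u) := huc.comp_left rfl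
    set U : 𝓢(E k, ℂ) := hc.toSchwartzMap (Complex.ofRealCLM.contDiff.comp hu) with hU
    have h1 := key (𝓕⁻ U)
    rw [FourierTransform.fourier_fourierInv_eq] at h1
    rw [← h1]
    refine integral_congr_ae (Eventually.of_forall fun t => ?_)
    show u t • f i t = f i t * U t
    have : U t = (u t : ℂ) := rfl
    rw [this, Complex.real_smul, mul_comm]
  have heq : f i = fun _ => 0 := by
    refine (Continuous.ae_eq_iff_eq volume (hf i) continuous_const).1 ?_
    filter_upwards [hae] with t ht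
    exact ht
  intro t
  rw [heq]

end BandLim48
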