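import Pool.Agent.Lib.BandLim48.Defs

/-! Disjoint grid cubes in an open set (module Cubes of MP_fc1499_an). -/

set_option autoImplicit false

open MeasureTheory Topology Filter Set
open scoped ENNReal

namespace BandLim48

lemma volume_Cube {k : ℕ} (c : E k) (s : ℝ) : volume (Cube c s) = ENNReal.ofReal s ^ k := by
  have h1 : Cube c s = (WithLp.ofLp : E k → Fin k → ℝ) ⁻¹'
      (Icc (fun i => c i) (fun i => c i + s)) := by
    ext ξ
    simp only [Cube, mem_ofPred_eq, mem_preimage, mem_Icc, Pi.le_def]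
    exact forall_and
  rw [h1, (PiLp.volume_preserving_ofLp (Fin k)).measure_preimage
    measurableSet_Icc.nullMeasurableSet, Real.volume_Icc_pi]
  simp

lemma cubes_disjoint {k : ℕ} (r s : ℝ) (hr : 0 < r) (hs : s < 1 / r) (v w : Fin k → ℤ)
    (hvw : v ≠ w) :
    Disjoint (Cube (WithLp.toLp 2 (fun i => (v i : ℝ) / r) : E k) s)
      (Cube (WithLp.toLp 2 (fun i => (w i : ℝ) / r) : E k) s) := by
  have key : ∀ a b x : ℝ, a + 1 ≤ b → b / r ≤ x → x ≤ a / r + s → False := by
    intro a b x hab h1 h2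
    have h3 : (a + 1) / r ≤ b / r := by gcongr
    have h4 : (a + 1) / r = a / r + 1 / r := by ring
    linarith
  obtain ⟨i, hi⟩ := Function.ne_iff.1 hvw
  rw [Set.disjoint_left]
  intro ξ h1 h2
  have a1 := h1 i
  have a2 := h2 i
  simp only at a1 a2
  rcases lt_or_gt_of_ne hi with h | h
  · have : (v i : ℝ) + 1 ≤ w i := by exact_mod_cast h
    exact key _ _ _ this a2.1 a1.2
  · have : (w i : ℝ) + 1 ≤ v i := by exact_mod_cast h
    exact key _ _ _ this a1.1 a2.2

theorem exists_cubes {k : ℕ} (hk : 1 ≤ k) (O : Set (E k)) (hO : IsOpen O) (θ : ℝ≥0∞)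
    (hθ : θ < volume O) :
    ∃ (ℓ : ℕ) (s : ℝ) (m : ℕ) (c : Fin (m + 1) → E k), 1 ≤ ℓ ∧ 1 < ℓ * s ∧
      θ * (ℓ : ℝ≥0∞) ^ k < m ∧ (∀ j, Cube (c j) s ⊆ O) ∧
      Pairwise (fun i j => Disjoint (Cube (c i) s) (Cube (c j) s)) := by
  classical
  obtain ⟨K, hKO, hK, hθK⟩ := hO.exists_lt_isCompact hθ
  obtain ⟨δ, hδ, hδO⟩ := hK.exists_cthickening_subset_open hO hKO
  have hKfin : volume K ≠ ∞ := hK.measure_lt_top.ne
  have hθfin : θ ≠ ∞ := (hθK.trans_le le_top).ne
  set a : ℝ := θ.toReal with ha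
  set b : ℝ := (volume K).toReal with hb
  have hab : a < b := (ENNReal.toReal_lt_toReal hθfin hKfin).2 hθK
  have ha0 : 0 ≤ a := ENNReal.toReal_nonneg
  -- choice of r
  have hlim : Tendsto (fun r : ℕ => a * ((1 + 1 / ((r : ℝ) + 1)) ^ k) +
      (1 / ((r : ℝ) + 1)) ^ k) atTop (𝓝 (a * ((1 + 0) ^ k) + 0 ^ k)) := by
    have h0 : Tendsto (fun r : ℕ => 1 / ((r : ℝ) + 1)) atTop (𝓝 0) :=
      tendsto_one_div_add_atTop_nhds_zero_nat
    exact ((((tendsto_const_nhds).add h0).pow k).const_mul a).add (h0.pow k)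
  rw [zero_pow (by omega), add_zero, add_zero, one_pow, mul_one] at hlim
  have hlim2 : Tendsto (fun r : ℕ => (k : ℝ) * (1 / ((r : ℝ) + 1))) atTop (𝓝 ((k : ℝ) * 0)) :=
    tendsto_one_div_add_atTop_nhds_zero_nat.const_mul _
  rw [mul_zero] at hlim2
  obtain ⟨r, hr1, hr2⟩ := ((hlim.eventually (gt_mem_nhds hab)).and
    (hlim2.eventually (gt_mem_nhds hδ))).exists
  set R : ℝ := (r : ℝ) + 1 with hR
  have hRpos : 0 < R := by positivity
  -- the set of cubes
  obtain ⟨B, hB⟩ := hK.isBounded.exists_norm_le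
  let V : Set (Fin k → ℤ) := {v | ∃ x ∈ K, ∀ i, v i = ⌊R * x i⌋}
  have hVfin : V.Finite := by
    refine Set.Finite.subset (s := Set.pi univ (fun _ : Fin k => Icc ⌊R * (-B)⌋ ⌊R * B⌋))
      (Set.Finite.pi (fun _ => Set.finite_Icc _ _)) ?_
    · rintro v ⟨x, hx, hv⟩ i -
      rw [hv i]
      have h1 : |x i| ≤ B := by
        have := PiLp.norm_apply_le x i
        rw [Real.norm_eq_abs] at this
        exact this.trans (hB x hx)
      have h2 := abs_le.1 h1
      constructor
      · apply Int.floor_le_floor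
        exact mul_le_mul_of_nonneg_left h2.1 hRpos.le
      · apply Int.floor_le_floor
        exact mul_le_mul_of_nonneg_left h2.2 hRpos.le
  let F : Finset (Fin k → ℤ) := hVfin.toFinset
  have hcover : K ⊆ ⋃ v ∈ F, Cube (WithLp.toLp 2 (fun i => (v i : ℝ) / R) : E k) (1 / R) := by
    intro x hx
    simp only [mem_iUnion]
    refine ⟨fun i => ⌊R * x i⌋, ?_, ?_⟩
    · simp only [F, Set.Finite.mem_toFinset]
      exact ⟨x, hx, fun i => rfl⟩
    · intro i
      have h1 := Int.floor_le (R * x i)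
      have h2 := Int.lt_floor_add_one (R * x i)
      simp only
      constructor
      · rw [div_le_iff₀ hRpos]
        linarith
      · rw [← add_div, le_div_iff₀ hRpos]
        linarith
  have hcard : b ≤ (F.card : ℝ) * (1 / R) ^ k := by
    have h1 : volume K ≤ (F.card : ℝ≥0∞) * ENNReal.ofReal (1 / R) ^ k := by
      calc volume K ≤ volume (⋃ v ∈ F, Cube (WithLp.toLp 2 (fun i => (v i : ℝ) / R) : E k) (1 / R)) :=
            measure_mono hcover
        _ ≤ ∑ v ∈ F, volume (Cube (WithLp.toLp 2 (fun i => (v i : ℝ) / R) : E k) (1 / R)) :=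
            measure_biUnion_finset_le _ _
        _ = _ := by
            simp_rw [volume_Cube]
            rw [Finset.sum_const, nsmul_eq_mul]
    have h2 := ENNReal.toReal_mono (by finiteness) h1
    rw [ENNReal.toReal_mul, ENNReal.toReal_pow, ENNReal.toReal_natCast,
      ENNReal.toReal_ofReal (by positivity)] at h2
    exact h2
  have hmain : a * (R + 1) ^ k + 1 < F.card := by
    have h1 := hr1.trans_le hcard
    have h2 := mul_lt_mul_of_pos_right h1 (pow_pos hRpos k)
    have h3 : (a * (1 + 1 / R) ^ k + (1 / R) ^ k) * R ^ k = a * (R + 1) ^ k + 1 := by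
      rw [add_mul, mul_assoc, ← mul_pow, ← mul_pow]
      have e1 : (1 + 1 / R) * R = R + 1 := by field_simp
      have e2 : 1 / R * R = 1 := by field_simp
      rw [e1, e2, one_pow]
    have h4 : (F.card : ℝ) * (1 / R) ^ k * R ^ k = F.card := by
      rw [mul_assoc, ← mul_pow]
      have e2 : 1 / R * R = 1 := by field_simp
      rw [e2, one_pow, mul_one]
    rw [h3, h4] at h2
    exact h2
  have hF1 : 1 < F.card := by
    have : (1 : ℝ) < F.card := by
      have : 0 ≤ a * (R + 1) ^ k := by positivity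
      linarith
    exact_mod_cast this
  obtain ⟨m, hm⟩ : ∃ m, F.card = m + 1 := ⟨F.card - 1, by omega⟩
  let e : Fin (m + 1) ≃ F := (Fin.castOrderIso hm.symm).toEquiv.trans F.equivFin.symm
  -- the side
  let s : ℝ := (1 / R + 1 / (R + 1)) / 2
  have hRR : 1 / (R + 1) < 1 / R := one_div_lt_one_div_of_lt hRpos (by linarith)
  have hs1 : s < 1 / R := by simp only [s]; linarith
  have hs2 : 1 / (R + 1) < s := by simp only [s]; linarith
  refine ⟨r + 2, s, m, fun j => WithLp.toLp 2 (fun i => (((e j : Fin k → ℤ) i : ℤ) : ℝ) / R),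
    by omega, ?_, ?_, ?_, ?_⟩
  · have h1 : ((r + 2 : ℕ) : ℝ) = R + 1 := by push_cast; rw [hR]; ring
    rw [h1]
    have h2 := (div_lt_iff₀ (show (0:ℝ) < R + 1 by positivity)).1 hs2
    linarith
  · have h1 : ((r + 2 : ℕ) : ℝ) = R + 1 := by push_cast; rw [hR]; ring
    have h2 : a * (R + 1) ^ k < m := by
      have : (F.card : ℝ) = m + 1 := by exact_mod_cast hm
      linarith
    have h3 : θ * ((r + 2 : ℕ) : ℝ≥0∞) ^ k = ENNReal.ofReal (a * (R + 1) ^ k) := by
      rw [ENNReal.ofReal_mul ha0, ENNReal.ofReal_toReal hθfin, ← h1,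
        ENNReal.ofReal_pow (by positivity), ENNReal.ofReal_natCast]
    rw [h3, ← ENNReal.ofReal_natCast m]
    exact (ENNReal.ofReal_lt_ofReal_iff_of_nonneg (by positivity)).2 h2
  · intro j ξ hξ
    apply hδO
    have hj : ((e j : Fin k → ℤ)) ∈ V := by
      have := (e j).2
      exact hVfin.mem_toFinset.1 this
    obtain ⟨x, hx, hxv⟩ := hj
    apply Metric.mem_cthickening_of_dist_le ξ x δ K hx
    rw [dist_eq_norm]
    have hco : ∀ i, |(ξ - x) i| ≤ 1 / R := by
      intro i
      have h1 := Int.floor_le (R * x i)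
      have h2 := Int.lt_floor_add_one (R * x i)
      rw [← hxv i] at h1 h2
      have h3 := hξ i
      simp only at h3
      have h4 : (((e j : Fin k → ℤ) i : ℤ) : ℝ) / R ≤ x i := by
        rw [div_le_iff₀ hRpos, mul_comm]; exact h1
      have h5 : x i ≤ (((e j : Fin k → ℤ) i : ℤ) : ℝ) / R + 1 / R := by
        rw [← add_div, le_div_iff₀ hRpos, mul_comm]; exact h2.le
      have h6 : (ξ - x) i = ξ i - x i := rfl
      rw [h6, abs_le]
      constructor <;> linarith [h3.1, h3.2]
    have hnorm : ‖ξ - x‖ ≤ k * (1 / R) := by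
      have h1 : ‖ξ - x‖ ≤ ∑ i, ‖(ξ - x) i‖ := by
        have hsum : ξ - x = ∑ i, EuclideanSpace.single i ((ξ - x) i) := by
          ext i
          simp [Finset.sum_apply, Pi.single_apply]
        conv_lhs => rw [hsum]
        refine (norm_sum_le _ _).trans (le_of_eq ?_)
        apply Finset.sum_congr rfl
        intro i _
        simp
      refine h1.trans ?_
      calc ∑ i, ‖(ξ - x) i‖ ≤ ∑ _i : Fin k, 1 / R := Finset.sum_le_sum (fun i _ => hco i)
        _ = _ := by simp
    exact hnorm.trans hr2.le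
  · intro i j hij
    apply cubes_disjoint R s hRpos hs1
    intro h
    apply hij
    exact e.injective (Subtype.ext h)

end BandLim48
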