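import Pool.Agent.Lib.BandLim48.Defs

/-! The interpolation kernel: a product of sinc functions with spectrum in a cube
(MP_fc1499_an). -/

set_option autoImplicit false

open MeasureTheory Topology Filter Set
open scoped SchwartzMap FourierTransform ENNReal

namespace BandLim48

/-- the one-dimensional factor -/
noncomputable def k1 (c0 a b t : ℝ) : ℂ :=
  Complex.exp ((2 * Real.pi * (c0 * t) : ℝ) * Complex.I) *
    ((Real.sinc (Real.pi * a * t) : ℝ) : ℂ) * ((Real.sinc (Real.pi * b * t) : ℝ) : ℂ)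

theorem k1_continuous (c0 a b : ℝ) : Continuous (k1 c0 a b) := by
  unfold k1
  fun_prop

theorem norm_k1 (c0 a b t : ℝ) :
    ‖k1 c0 a b t‖ = |Real.sinc (Real.pi * a * t)| * |Real.sinc (Real.pi * b * t)| := by
  unfold k1
  rw [norm_mul, norm_mul, Complex.norm_exp_ofReal_mul_I, one_mul, Complex.norm_real,
    Complex.norm_real, Real.norm_eq_abs, Real.norm_eq_abs]

theorem norm_k1_le_one (c0 a b t : ℝ) : ‖k1 c0 a b t‖ ≤ 1 := by
  rw [norm_k1]
  exact mul_le_one₀ (Real.abs_sinc_le_one _) (abs_nonneg _) (Real.abs_sinc_le_one _)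

theorem abs_sinc_le_inv {x : ℝ} (hx : x ≠ 0) : |Real.sinc x| ≤ |x|⁻¹ := by
  rw [Real.sinc_of_ne_zero hx, abs_div, div_eq_mul_inv]
  exact mul_le_of_le_one_left (by positivity) (Real.abs_sin_le_one x)

theorem abs_sinc_lt_one {x : ℝ} (hx : x ≠ 0) : |Real.sinc x| < 1 := by
  rw [Real.sinc_of_ne_zero hx, abs_div, div_lt_one (abs_pos.mpr hx)]
  exact Real.abs_sin_lt_abs hx

theorem norm_k1_le {c0 a b : ℝ} (ha : 0 < a) (hb : 0 < b) (t : ℝ) :
    ‖k1 c0 a b t‖ ≤ (1 + 1 / (Real.pi * a * (Real.pi * b))) * (1 + t ^ 2)⁻¹ := by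
  have hpi := Real.pi_pos
  have h1 : (0 : ℝ) < 1 + t ^ 2 := by positivity
  rw [← div_eq_mul_inv, le_div_iff₀ h1]
  by_cases ht : t = 0
  · subst ht
    have := norm_k1_le_one c0 a b 0
    have h2 : 0 < 1 / (Real.pi * a * (Real.pi * b)) := by positivity
    nlinarith
  · have h2 : ‖k1 c0 a b t‖ ≤ |Real.pi * a * t|⁻¹ * |Real.pi * b * t|⁻¹ := by
      rw [norm_k1]
      exact mul_le_mul (abs_sinc_le_inv (by positivity)) (abs_sinc_le_inv (by positivity))
        (abs_nonneg _) (by positivity)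
    have h3 : |Real.pi * a * t|⁻¹ * |Real.pi * b * t|⁻¹ =
        1 / (Real.pi * a * (Real.pi * b)) * (t ^ 2)⁻¹ := by
      rw [abs_mul, abs_mul (Real.pi * b), abs_of_pos (by positivity : (0 : ℝ) < Real.pi * a),
        abs_of_pos (by positivity : (0 : ℝ) < Real.pi * b), ← sq_abs t]
      have : |t| ≠ 0 := by positivity
      field_simp
    have h4 : ‖k1 c0 a b t‖ * t ^ 2 ≤ 1 / (Real.pi * a * (Real.pi * b)) := by
      have ht2 : 0 < t ^ 2 := by positivity
      calc ‖k1 c0 a b t‖ * t ^ 2 ≤ 1 / (Real.pi * a * (Real.pi * b)) * (t ^ 2)⁻¹ * t ^ 2 := by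
            apply mul_le_mul_of_nonneg_right _ ht2.le
            rw [← h3]; exact h2
        _ = _ := by field_simp
    have := norm_k1_le_one c0 a b t
    linarith

theorem integral_char {b : ℝ} (hb : 0 < b) (t : ℝ) :
    ∫ u in Ioc (-(b / 2)) (b / 2), Complex.exp ((2 * Real.pi * (u * t) : ℝ) * Complex.I) =
      (b : ℂ) * ((Real.sinc (Real.pi * b * t) : ℝ) : ℂ) := by
  rw [← intervalIntegral.integral_of_le (by linarith)]
  by_cases ht : t = 0
  · subst ht
    simp
  · have hc : 2 * Real.pi * t ≠ 0 := by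
      have := Real.pi_pos
      positivity
    have h1 := intervalIntegral.integral_comp_mul_left (a := -(b / 2)) (b := b / 2)
      (fun x : ℝ => Complex.exp ((x : ℂ) * Complex.I)) hc
    have h2 : (fun u : ℝ => Complex.exp ((2 * Real.pi * (u * t) : ℝ) * Complex.I)) =
        fun u : ℝ => Complex.exp (((2 * Real.pi * t * u : ℝ) : ℂ) * Complex.I) := by
      funext u
      congr 3
      ring
    rw [h2, h1]
    have e1 : 2 * Real.pi * t * -(b / 2) = -(Real.pi * b * t) := by ring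
    have e2 : 2 * Real.pi * t * (b / 2) = Real.pi * b * t := by ring
    rw [e1, e2, integral_exp_mul_I_eq_sinc]
    have hpi : (Real.pi : ℂ) ≠ 0 := by exact_mod_cast Real.pi_ne_zero
    have htc : (t : ℂ) ≠ 0 := by exact_mod_cast ht
    rw [Complex.real_smul]
    push_cast
    field_simp

/-- the measure on `ℝ × ℝ` -/
noncomputable def nu (a b : ℝ) : Measure (ℝ × ℝ) :=
  (volume.restrict (Ioc (-(a / 2)) (a / 2))).prod (volume.restrict (Ioc (-(b / 2)) (b / 2)))

instance (a b : ℝ) : IsFiniteMeasure (nu a b) := by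
  unfold nu; infer_instance

theorem integral_nu {c0 a b : ℝ} (ha : 0 < a) (hb : 0 < b) (t : ℝ) :
    ∫ x : ℝ × ℝ, Complex.exp ((2 * Real.pi * ((c0 + x.1 + x.2) * t) : ℝ) * Complex.I) ∂(nu a b) =
      ((a * b : ℝ) : ℂ) * k1 c0 a b t := by
  have h : ∀ x : ℝ × ℝ, Complex.exp ((2 * Real.pi * ((c0 + x.1 + x.2) * t) : ℝ) * Complex.I) =
      Complex.exp ((2 * Real.pi * (c0 * t) : ℝ) * Complex.I) *
        (Complex.exp ((2 * Real.pi * (x.1 * t) : ℝ) * Complex.I) *
        Complex.exp ((2 * Real.pi * (x.2 * t) : ℝ) * Complex.I)) := by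
    intro x
    rw [← Complex.exp_add, ← Complex.exp_add]
    congr 1
    push_cast
    ring
  simp_rw [h]
  rw [integral_const_mul]
  unfold nu
  rw [integral_prod_mul (fun u : ℝ => Complex.exp ((2 * Real.pi * (u * t) : ℝ) * Complex.I))
    (fun u : ℝ => Complex.exp ((2 * Real.pi * (u * t) : ℝ) * Complex.I)),
    integral_char ha, integral_char hb]
  unfold k1
  push_cast
  ring

/-- the kernel -/
noncomputable def kern {k : ℕ} (c0 : Fin k → ℝ) (a b : ℝ) (t : E k) : ℂ :=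
  ∏ i, k1 (c0 i) a b (t i)

/-- the frequency attached to a sample point -/
noncomputable def freq {k : ℕ} (c0 : Fin k → ℝ) (p : Fin k → ℝ × ℝ) : E k :=
  WithLp.toLp 2 (fun i => c0 i + (p i).1 + (p i).2)

theorem integral_pi {k : ℕ} (c0 : Fin k → ℝ) {a b : ℝ} (ha : 0 < a) (hb : 0 < b) (t : E k) :
    ∫ p : Fin k → ℝ × ℝ, Complex.exp ((2 * Real.pi * inner ℝ t (freq c0 p) : ℝ) * Complex.I)
      ∂(Measure.pi fun _ : Fin k => nu a b) = ((a * b : ℝ) : ℂ) ^ k * kern c0 a b t := by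
  have h : ∀ p : Fin k → ℝ × ℝ,
      Complex.exp ((2 * Real.pi * inner ℝ t (freq c0 p) : ℝ) * Complex.I) =
      ∏ i, Complex.exp ((2 * Real.pi * ((c0 i + (p i).1 + (p i).2) * t i) : ℝ) * Complex.I) := by
    intro p
    rw [← Complex.exp_sum, ← Finset.sum_mul, ← Complex.ofReal_sum, ← Finset.mul_sum]
    have hi : (inner ℝ t (freq c0 p) : ℝ) = ∑ i, (c0 i + (p i).1 + (p i).2) * t i := by
      rw [PiLp.inner_apply]
      refine Finset.sum_congr rfl fun i _ => ?_
      simp [freq]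
    rw [hi]
  simp_rw [h]
  rw [integral_fintype_prod_eq_prod (fun (i : Fin k) (x : ℝ × ℝ) =>
    Complex.exp ((2 * Real.pi * ((c0 i + x.1 + x.2) * t i) : ℝ) * Complex.I))]
  simp_rw [integral_nu ha hb]
  rw [Finset.prod_mul_distrib]
  simp [kern]

theorem freq_ae_mem {k : ℕ} (c : E k) {s a b : ℝ} (hab : a + b = s) :
    ∀ᵐ p ∂(Measure.pi fun _ : Fin k => nu a b), freq (fun i => c i + s / 2) p ∈ Cube c s := by
  have h1 : ∀ᵐ x : ℝ × ℝ ∂(nu a b), x.1 ∈ Ioc (-(a / 2)) (a / 2) ∧ x.2 ∈ Ioc (-(b / 2)) (b / 2) := by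
    unfold nu
    have e1 : ∀ᵐ x : ℝ ∂(volume.restrict (Ioc (-(a / 2)) (a / 2))), x ∈ Ioc (-(a / 2)) (a / 2) :=
      ae_restrict_mem measurableSet_Ioc
    have e2 : ∀ᵐ x : ℝ ∂(volume.restrict (Ioc (-(b / 2)) (b / 2))), x ∈ Ioc (-(b / 2)) (b / 2) :=
      ae_restrict_mem measurableSet_Ioc
    have f1 := (Measure.quasiMeasurePreserving_fst (μ := volume.restrict (Ioc (-(a / 2)) (a / 2)))
      (ν := volume.restrict (Ioc (-(b / 2)) (b / 2)))).ae e1
    have f2 := (Measure.quasiMeasurePreserving_snd (μ := volume.restrict (Ioc (-(a / 2)) (a / 2)))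
      (ν := volume.restrict (Ioc (-(b / 2)) (b / 2)))).ae e2
    filter_upwards [f1, f2] with x hx1 hx2
    exact ⟨hx1, hx2⟩
  have h2 : ∀ i : Fin k, ∀ᵐ p ∂(Measure.pi fun _ : Fin k => nu a b),
      (p i).1 ∈ Ioc (-(a / 2)) (a / 2) ∧ (p i).2 ∈ Ioc (-(b / 2)) (b / 2) := by
    intro i
    exact (Measure.tendsto_eval_ae_ae (μ := fun _ : Fin k => nu a b) (i := i)).eventually h1
  have h3 := ae_all_iff.mpr h2
  filter_upwards [h3] with p hp
  intro i
  obtain ⟨⟨h4, h5⟩, h6, h7⟩ := hp i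
  simp only [freq]
  constructor <;> linarith

theorem kern_specIn {k : ℕ} (c : E k) {s a b : ℝ} (ha : 0 < a) (hb : 0 < b) (hab : a + b = s) :
    SpecIn (kern (fun i => c i + s / 2) a b) (Cube c s) := by
  intro ψ hψ
  set c0 : Fin k → ℝ := fun i => c i + s / 2 with hc0
  set M := Measure.pi fun _ : Fin k => nu a b with hM
  have hK : ((a * b : ℝ) : ℂ) ^ k ≠ 0 := by
    apply pow_ne_zero
    have : a * b ≠ 0 := by positivity
    exact_mod_cast this
  have key : ((a * b : ℝ) : ℂ) ^ k * ∫ t, kern c0 a b t * (𝓕 ψ : 𝓢(E k, ℂ)) t = 0 := by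
    rw [← integral_const_mul]
    have h1 : ∀ t : E k, ((a * b : ℝ) : ℂ) ^ k * (kern c0 a b t * (𝓕 ψ : 𝓢(E k, ℂ)) t) =
        ∫ p : Fin k → ℝ × ℝ, Complex.exp ((2 * Real.pi * inner ℝ t (freq c0 p) : ℝ) * Complex.I) *
          (𝓕 ψ : 𝓢(E k, ℂ)) t ∂M := by
      intro t
      rw [integral_mul_const, hM, integral_pi c0 ha hb t]
      ring
    simp_rw [h1]
    have hfc : Continuous (freq c0) := by
      unfold freq
      fun_prop
    have hint : Integrable (Function.uncurry fun (t : E k) (p : Fin k → ℝ × ℝ) =>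
        Complex.exp ((2 * Real.pi * inner ℝ t (freq c0 p) : ℝ) * Complex.I) *
          (𝓕 ψ : 𝓢(E k, ℂ)) t) (volume.prod M) := by
      have hi : Integrable (fun z : E k × (Fin k → ℝ × ℝ) => (𝓕 ψ : 𝓢(E k, ℂ)) z.1 * (1 : ℂ))
          (volume.prod M) :=
        Integrable.mul_prod ((𝓕 ψ : 𝓢(E k, ℂ)).integrable) (integrable_const _)
      refine hi.mono ?_ (Filter.Eventually.of_forall fun z => ?_)
      · apply Continuous.aestronglyMeasurable
        have hc1 : Continuous (fun t => (𝓕 ψ : 𝓢(E k, ℂ)) t) := (𝓕 ψ : 𝓢(E k, ℂ)).continuous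
        have hc2 : Continuous fun z : E k × (Fin k → ℝ × ℝ) => (inner ℝ z.1 (freq c0 z.2) : ℝ) :=
          continuous_fst.inner (hfc.comp continuous_snd)
        have hc3 : Continuous fun z : E k × (Fin k → ℝ × ℝ) =>
            Complex.exp ((2 * Real.pi * inner ℝ z.1 (freq c0 z.2) : ℝ) * Complex.I) := by
          exact Complex.continuous_exp.comp
            ((Complex.continuous_ofReal.comp (continuous_const.mul hc2)).mul continuous_const)
        exact hc3.mul (hc1.comp continuous_fst)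
      · simp only [Function.uncurry, mul_one]
        rw [norm_mul, Complex.norm_exp_ofReal_mul_I, one_mul]
    rw [integral_integral_swap hint]
    have h2 : ∀ p : Fin k → ℝ × ℝ,
        ∫ t : E k, Complex.exp ((2 * Real.pi * inner ℝ t (freq c0 p) : ℝ) * Complex.I) *
          (𝓕 ψ : 𝓢(E k, ℂ)) t = ψ (freq c0 p) := by
      intro p
      have h3 : (𝓕⁻ (𝓕 ψ : 𝓢(E k, ℂ)) : 𝓢(E k, ℂ)) (freq c0 p) = ψ (freq c0 p) := by
        rw [FourierTransform.fourierInv_fourier_eq]
      rw [← h3, SchwartzMap.fourierInv_coe, Real.fourierInv_eq']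
      rfl
    simp_rw [h2]
    have h4 : ∀ᵐ p ∂M, ψ (freq c0 p) = 0 := by
      filter_upwards [freq_ae_mem (k := k) c hab] with p hp
      by_contra hne
      exact hψ (subset_tsupport _ hne) hp
    rw [integral_congr_ae h4]
    simp
  exact (mul_eq_zero.mp key).resolve_left hK

theorem exists_kernel {k : ℕ} (c : E k) (s : ℝ) (hs : 0 < s) (ℓ : ℕ) (hℓ : 1 < ℓ * s) :
    ∃ φ : E k → ℂ, Continuous φ ∧ φ 0 = 1 ∧
      (∀ w : Fin k → ℤ, w ≠ 0 → (∀ i, (ℓ : ℤ) ∣ w i) → φ (iota w) = 0) ∧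
      (∀ w : Fin k → ℤ, w ≠ 0 → ‖φ (iota w)‖ < 1) ∧
      (∃ C : ℝ, ∀ t, ‖φ t‖ ≤ C * ∏ i, (1 + (t i) ^ 2)⁻¹) ∧
      SpecIn φ (Cube c s) := by
  have hℓ0 : ℓ ≠ 0 := by
    rintro rfl
    norm_num at hℓ
  have hℓp : (0 : ℝ) < ℓ := by positivity
  set a : ℝ := 1 / ℓ with ha
  set b : ℝ := s - 1 / ℓ with hb
  have ha0 : 0 < a := by positivity
  have hb0 : 0 < b := by
    rw [hb, sub_pos, div_lt_iff₀ hℓp]
    linarith
  have hab : a + b = s := by rw [ha, hb]; ring
  have hpi := Real.pi_pos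
  refine ⟨kern (fun i => c i + s / 2) a b, ?_, ?_, ?_, ?_, ?_, kern_specIn c ha0 hb0 hab⟩
  · unfold kern
    refine continuous_finsetProd _ fun i _ => ?_
    exact (k1_continuous _ _ _).comp (by fun_prop)
  · unfold kern k1
    simp
  · intro w hw hdvd
    obtain ⟨i, hi⟩ : ∃ i, w i ≠ 0 := by
      by_contra hcon
      push Not at hcon
      exact hw (funext hcon)
    unfold kern
    apply Finset.prod_eq_zero (Finset.mem_univ i)
    obtain ⟨m, hm⟩ := hdvd i
    have hm0 : m ≠ 0 := by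
      rintro rfl
      apply hi
      rw [hm]; simp
    have e1 : Real.pi * a * (iota w) i = m * Real.pi := by
      simp only [iota, ha, hm]
      push_cast
      field_simp
    unfold k1
    rw [e1, Real.sinc_of_ne_zero (by
      have : (m : ℝ) ≠ 0 := by exact_mod_cast hm0
      positivity), Real.sin_int_mul_pi]
    simp
  · intro w hw
    obtain ⟨i, hi⟩ : ∃ i, w i ≠ 0 := by
      by_contra hcon
      push Not at hcon
      exact hw (funext hcon)
    unfold kern
    rw [norm_prod]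
    have hlt : ‖k1 (c i + s / 2) a b ((iota w) i)‖ < 1 := by
      rw [norm_k1]
      have hne : Real.pi * b * (iota w) i ≠ 0 := by
        have : ((w i : ℤ) : ℝ) ≠ 0 := by exact_mod_cast hi
        simp only [iota]
        positivity
      have h1 := abs_sinc_lt_one hne
      have h2 := Real.abs_sinc_le_one (Real.pi * a * (iota w) i)
      calc |Real.sinc (Real.pi * a * (iota w) i)| * |Real.sinc (Real.pi * b * (iota w) i)| ≤
            1 * |Real.sinc (Real.pi * b * (iota w) i)| :=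
            mul_le_mul_of_nonneg_right h2 (abs_nonneg _)
        _ < 1 := by rw [one_mul]; exact h1
    rw [← Finset.mul_prod_erase Finset.univ _ (Finset.mem_univ i)]
    calc ‖k1 (c i + s / 2) a b ((iota w) i)‖ *
          ∏ j ∈ Finset.univ.erase i, ‖k1 (c j + s / 2) a b ((iota w) j)‖ ≤
          ‖k1 (c i + s / 2) a b ((iota w) i)‖ * 1 := by
          apply mul_le_mul_of_nonneg_left _ (norm_nonneg _)
          exact Finset.prod_le_one (fun _ _ => norm_nonneg _) (fun _ _ => norm_k1_le_one _ _ _ _)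
      _ < 1 := by rw [mul_one]; exact hlt
  · refine ⟨(1 + 1 / (Real.pi * a * (Real.pi * b))) ^ k, fun t => ?_⟩
    unfold kern
    rw [norm_prod]
    have : (1 + 1 / (Real.pi * a * (Real.pi * b))) ^ k * ∏ i : Fin k, (1 + (t i) ^ 2)⁻¹ =
        ∏ i : Fin k, ((1 + 1 / (Real.pi * a * (Real.pi * b))) * (1 + (t i) ^ 2)⁻¹) := by
      rw [Finset.prod_mul_distrib]
      simp
    rw [this]
    exact Finset.prod_le_prod (fun _ _ => norm_nonneg _) (fun i _ => norm_k1_le ha0 hb0 _)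

end BandLim48
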