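import Pool.Agent.Lib.BandLim48.Disc

/-! Mean dimension (Lindenstrauss–Weiss), by maps to finite simplicial complexes. -/

set_option autoImplicit false

open Topology Filter Set
open scoped ENNReal

namespace BandLim48

/-- A finite abstract simplicial complex with vertex set `Fin size`. -/
structure FinComplex where
  /-- the number of vertices -/
  size : ℕ
  /-- the simplices -/
  faces : Set (Finset (Fin size))
  nonempty_of_mem : ∀ s ∈ faces, s.Nonempty
  down_closed : ∀ s ∈ faces, ∀ t ⊆ s, t.Nonempty → t ∈ faces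

/-- The geometric realization: convex combinations of vertices whose support is a simplex. -/
def FinComplex.realization (K : FinComplex) : Set (Fin K.size → ℝ) :=
  {w | (∀ v, 0 ≤ w v) ∧ ∑ v, w v = 1 ∧ Finset.univ.filter (fun v => w v ≠ 0) ∈ K.faces}

/-- The dimension of `K` is at most `D`. -/
def FinComplex.DimLE (K : FinComplex) (D : ℕ) : Prop := ∀ s ∈ K.faces, s.card ≤ D + 1

/-- The metric `d_N(x,y) = max d(T^n x, T^n y)`, `n ∈ [0,N)^k`. -/
noncomputable def dynDist (k : ℕ) {X : Type*} [MetricSpace X] [AddAction (Fin k → ℤ) X] (N : ℕ)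
    (x y : X) : ℝ :=
  ⨆ n : {n : Fin k → ℤ // ∀ i, 0 ≤ n i ∧ n i < (N : ℤ)}, dist (n.1 +ᵥ x) (n.1 +ᵥ y)

/-- `Widim_ε (X, d_N)`: the least `D` such that there are a finite simplicial complex of dimension
at most `D` and a continuous map from `X` to it whose fibres have `d_N`-diameter less than `ε`. -/
noncomputable def widim (k : ℕ) (X : Type*) [MetricSpace X] [AddAction (Fin k → ℤ) X] (ε : ℝ)
    (N : ℕ) : ℝ≥0∞ :=
  ⨅ (D : ℕ) (_ : ∃ K : FinComplex, K.DimLE D ∧ ∃ f : X → (Fin K.size → ℝ), Continuous f ∧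
    (∀ x, f x ∈ K.realization) ∧ ∀ x y, f x = f y → dynDist k N x y < ε), (D : ℝ≥0∞)

/-- The mean dimension `lim_{ε → 0} lim_{N → ∞} Widim_ε (X, d_N) / N^k`. (The limit over `N` exists,
it is written as a lower limit; the limit over `ε` is a supremum by monotonicity.) -/
noncomputable def mdim (k : ℕ) (X : Type*) [MetricSpace X] [AddAction (Fin k → ℤ) X] : ℝ≥0∞ :=
  ⨆ (ε : ℝ) (_ : 0 < ε), liminf (fun N : ℕ => widim k X ε N / (N : ℝ≥0∞) ^ k) atTop

lemma finite_box (k N : ℕ) : Finite {n : Fin k → ℤ // ∀ i, 0 ≤ n i ∧ n i < (N : ℤ)} := by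
  have : {n : Fin k → ℤ | ∀ i, 0 ≤ n i ∧ n i < (N : ℤ)}.Finite := by
    refine (Set.Finite.pi' (t := fun _ : Fin k => Set.Ico (0 : ℤ) N)
      (fun i => Set.finite_Ico _ _)).subset ?_
    intro n hn i
    exact hn i
  exact this

lemma dist_le_dynDist {k : ℕ} {X : Type*} [MetricSpace X] [AddAction (Fin k → ℤ) X] {N : ℕ}
    {x y : X} {n : Fin k → ℤ} (hn : ∀ i, 0 ≤ n i ∧ n i < (N : ℤ)) :
    dist (n +ᵥ x) (n +ᵥ y) ≤ dynDist k N x y := by
  have := finite_box k N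
  unfold dynDist
  exact le_ciSup (f := fun n : {n : Fin k → ℤ // ∀ i, 0 ≤ n i ∧ n i < (N : ℤ)} =>
    dist (n.1 +ᵥ x) (n.1 +ᵥ y)) (Set.finite_range _).bddAbove ⟨n, hn⟩

theorem dimLE_of_mdim_lt {k : ℕ} {X : Type*} [MetricSpace X] [AddAction (Fin k → ℤ) X] {θ : ℝ}
    (hθ0 : 0 ≤ θ) (h : mdim k X < ENNReal.ofReal θ) : DimLE k X θ := by
  intro ε hε b0
  have h1 : liminf (fun N : ℕ => widim k X ε N / (N : ℝ≥0∞) ^ k) atTop < ENNReal.ofReal θ := by
    refine lt_of_le_of_lt ?_ h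
    exact le_iSup₂ (f := fun (ε : ℝ) (_ : 0 < ε) =>
      liminf (fun N : ℕ => widim k X ε N / (N : ℝ≥0∞) ^ k) atTop) ε hε
  have h2 : ∃ᶠ N : ℕ in atTop, widim k X ε N / (N : ℝ≥0∞) ^ k < ENNReal.ofReal θ := by
    by_contra hcon
    rw [not_frequently] at hcon
    refine absurd h1 (not_lt.2 ?_)
    refine le_liminf_of_le (by isBoundedDefault) ?_
    filter_upwards [hcon] with N hN
    exact not_lt.1 hN
  obtain ⟨N, hN, hNlt⟩ := (frequently_atTop.1 h2) (max b0 1)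
  have hNb : b0 ≤ N := (le_max_left _ _).trans hN
  have hN1 : 1 ≤ N := (le_max_right _ _).trans hN
  have hNpos : (0 : ℝ) < (N : ℝ) := by exact_mod_cast hN1
  refine ⟨N, hNb, ?_⟩
  have hNk : ((N : ℝ≥0∞) ^ k) = ENNReal.ofReal ((N : ℝ) ^ k) := by
    rw [ENNReal.ofReal_pow hNpos.le, ENNReal.ofReal_natCast]
  have h3 : widim k X ε N < ENNReal.ofReal (θ * (N : ℝ) ^ k) := by
    rw [ENNReal.div_lt_iff (Or.inl (by rw [hNk]; exact (ENNReal.ofReal_pos.2 (pow_pos hNpos k)).ne'))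
      (Or.inl (by rw [hNk]; exact ENNReal.ofReal_ne_top))] at hNlt
    rw [ENNReal.ofReal_mul hθ0, ← hNk]
    exact hNlt
  unfold widim at h3
  rw [iInf_lt_iff] at h3
  obtain ⟨D, hD⟩ := h3
  rw [iInf_lt_iff] at hD
  obtain ⟨⟨K, hKD, f, hf, hfK, hfib⟩, hDlt⟩ := hD
  refine ⟨D, ?_, Fin K.size, inferInstance, f, hf, fun x e => (hfK x).1 e, fun x => (hfK x).2.1,
    fun x => hKD _ (hfK x).2.2, fun x y hxy w hw => ?_⟩
  · have : ENNReal.ofReal (D : ℝ) < ENNReal.ofReal (θ * (N : ℝ) ^ k) := by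
      rw [ENNReal.ofReal_natCast]; exact hDlt
    exact ((ENNReal.ofReal_lt_ofReal_iff_of_nonneg (by positivity)).1 this).le
  · exact lt_of_le_of_lt (dist_le_dynDist hw) (hfib x y hxy)

end BandLim48
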