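import Pool.Agent.Lib.BandLim48.Defs

/-! Semi-algebraic sets have Lebesgue-null frontier (module Semialg of MP_fc1499_an). -/

set_option autoImplicit false

open MeasureTheory Topology Filter Set
open scoped ENNReal

namespace BandLim48

/-- The restriction of a monomial to a line: degree bound and top coefficient. -/
lemma line_monomial {k : ℕ} (x v : Fin k → ℝ) (m : Fin k →₀ ℕ) :
    (m.prod fun i e => (Polynomial.C (x i) + Polynomial.X * Polynomial.C (v i)) ^ e).natDegree
      ≤ m.degree ∧
    (m.prod fun i e => (Polynomial.C (x i) + Polynomial.X * Polynomial.C (v i)) ^ e).coeff m.degree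
      = m.prod fun i e => v i ^ e := by
  induction m using Finsupp.induction_linear with
  | zero => simp
  | add f g hf hg =>
    rw [Finsupp.prod_add_index' (by simp) (by intros; rw [pow_add]),
      Finsupp.prod_add_index' (by simp) (by intros; rw [pow_add]), map_add]
    refine ⟨Polynomial.natDegree_mul_le.trans (add_le_add hf.1 hg.1), ?_⟩
    rw [Polynomial.coeff_mul_add_eq_of_natDegree_le hf.1 hg.1, hf.2, hg.2]
  | single i e =>
    have h1 : (Polynomial.C (x i) + Polynomial.X * Polynomial.C (v i)).natDegree ≤ 1 := by
      compute_degree
    rw [Finsupp.prod_single_index (by simp), Finsupp.prod_single_index (by simp),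
      Finsupp.degree_single]
    have h2 := Polynomial.natDegree_pow_le_of_le e h1
    rw [mul_one] at h2
    refine ⟨h2, ?_⟩
    have h3 := Polynomial.coeff_pow_of_natDegree_le (m := e) h1
    rw [mul_one] at h3
    rw [h3]
    simp

lemma ae_eval_ne_zero {k : ℕ} (p : MvPolynomial (Fin k) ℝ) (hp : p ≠ 0) :
    ∀ᵐ y : E k, y ∈ {y : E k | MvPolynomial.eval (fun i => y i) p ≠ 0} := by
  classical
  set d := p.totalDegree with hd
  -- a direction where the top homogeneous part does not vanish
  have htop : MvPolynomial.homogeneousComponent d p ≠ 0 := by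
    obtain ⟨m, hm, hmd⟩ : ∃ m ∈ p.support, m.degree = d := by
      have hne : p.support.Nonempty := MvPolynomial.support_nonempty.2 hp
      obtain ⟨m, hm, hmm⟩ := Finset.exists_mem_eq_sup p.support hne
        (fun s => s.sum fun _ e => e)
      refine ⟨m, hm, ?_⟩
      rw [hd, MvPolynomial.totalDegree, hmm]
      simp [Finsupp.degree, Finsupp.sum]
    intro h0
    have := congrArg (MvPolynomial.coeff m) h0
    rw [MvPolynomial.coeff_homogeneousComponent, if_pos hmd] at this
    exact (MvPolynomial.mem_support_iff.1 hm) (by simpa using this)
  obtain ⟨v, hv⟩ : ∃ v : Fin k → ℝ,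
      MvPolynomial.eval v (MvPolynomial.homogeneousComponent d p) ≠ 0 := by
    by_contra hcon
    push Not at hcon
    exact htop (MvPolynomial.funext (by intro x; rw [hcon x]; simp))
  let L : ℝ →ₗ[ℝ] E k := LinearMap.toSpanSingleton ℝ (E k) (WithLp.toLp 2 v)
  have hcont : Continuous (fun y : E k => MvPolynomial.eval (fun i => y i) p) :=
    (MvPolynomial.continuous_eval p).comp (by fun_prop)
  apply ae_mem_of_ae_add_linearMap_mem L (volume : Measure ℝ) volume
  · exact (isOpen_ne_fun hcont continuous_const).measurableSet
  intro y
  -- the polynomial of one variable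
  let P : Polynomial ℝ := MvPolynomial.aeval
    (fun i => Polynomial.C (y i) + Polynomial.X * Polynomial.C (v i)) p
  have hPev : ∀ t : ℝ, P.eval t = MvPolynomial.eval (fun i => (y + L t) i) p := by
    intro t
    have h1 : P.eval t = (MvPolynomial.aeval (R := ℝ) (fun i => (y i + t * v i))) p := by
      have := MvPolynomial.comp_aeval_apply (R := ℝ)
        (fun i => Polynomial.C (y i) + Polynomial.X * Polynomial.C (v i))
        (Polynomial.aeval (R := ℝ) t) p
      rw [Polynomial.coe_aeval_eq_eval] at this
      rw [this]
      congr 1
      congr 1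
      funext i
      rw [Polynomial.eval_add, Polynomial.eval_mul, Polynomial.eval_C, Polynomial.eval_C, Polynomial.eval_X]
    rw [h1, MvPolynomial.aeval_eq_eval]
    rfl
  have hP0 : P ≠ 0 := by
    intro h0
    have hcoef : P.coeff d = MvPolynomial.eval v (MvPolynomial.homogeneousComponent d p) := by
      have hPsum : P = ∑ m ∈ p.support, Polynomial.C (p.coeff m) *
          m.prod fun i e => (Polynomial.C (y i) + Polynomial.X * Polynomial.C (v i)) ^ e := by
        show MvPolynomial.aeval _ p = _
        rw [MvPolynomial.aeval_def, MvPolynomial.eval₂_eq]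
        apply Finset.sum_congr rfl
        intro m hm
        congr 1
      rw [hPsum, Polynomial.finsetSum_coeff, MvPolynomial.homogeneousComponent_apply,
        map_sum, Finset.sum_filter]
      apply Finset.sum_congr rfl
      intro m hm
      rw [Polynomial.coeff_C_mul]
      have hle : m.degree ≤ d := by
        have := MvPolynomial.le_totalDegree hm
        simpa [Finsupp.degree, Finsupp.sum] using this
      by_cases hmd : m.degree = d
      · rw [if_pos hmd, ← hmd, (line_monomial (fun i => y i) v m).2, MvPolynomial.eval_monomial]
      · rw [if_neg hmd, Polynomial.coeff_eq_zero_of_natDegree_lt, mul_zero]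
        exact lt_of_le_of_lt (line_monomial (fun i => y i) v m).1 (lt_of_le_of_ne hle hmd)
    rw [h0] at hcoef
    exact hv (by rw [← hcoef]; simp)
  have hfin : ({t : ℝ | P.eval t = 0}).Finite := by
    refine Set.Finite.subset (P.roots.toFinset.finite_toSet) ?_
    intro t ht
    simp only [Finset.mem_coe, Multiset.mem_toFinset]
    exact (Polynomial.mem_roots hP0).2 ht
  have hz : volume ({t : ℝ | P.eval t = 0}) = 0 := hfin.measure_zero _
  rw [ae_iff]
  refine measure_mono_null ?_ hz
  intro t ht
  simp only [mem_ofPred_eq, not_not] at ht ⊢
  rw [hPev]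
  exact ht

theorem volume_frontier_semialgebraic {k : ℕ} {S : Set (E k)} (hS : IsSemialgebraic S) :
    volume (frontier S) = 0 := by
  induction hS with
  | pos p =>
    by_cases hp : p = 0
    · subst hp
      simp
    · have hcont : Continuous (fun y : E k => MvPolynomial.eval (fun i => y i) p) :=
        (MvPolynomial.continuous_eval p).comp (by fun_prop)
      have h1 : frontier {x : E k | 0 < MvPolynomial.eval (fun i => x i) p} ⊆
          {x : E k | 0 = MvPolynomial.eval (fun i => x i) p} :=
        frontier_lt_subset_eq continuous_const hcont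
      have h2 := ae_eval_ne_zero p hp
      rw [ae_iff] at h2
      refine measure_mono_null (h1.trans ?_) h2
      intro x hx
      simp only [mem_ofPred_eq, not_not] at hx ⊢
      exact hx.symm
  | compl S _ ih => rwa [frontier_compl]
  | union S T _ _ ihS ihT =>
    refine measure_mono_null (frontier_union_subset S T) ?_
    exact measure_union_null (measure_mono_null inter_subset_left ihS)
      (measure_mono_null inter_subset_right ihT)

end BandLim48
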