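import Pool.Agent.Lib.BandLim48.Defs

/-! Synthesis of band-limited signals from integer samples (MP_fc1499_an). -/

set_option autoImplicit false

open MeasureTheory Topology Filter Set
open scoped SchwartzMap FourierTransform ENNReal

namespace BandLim48

/-- Peetre type inequality. -/
private lemma peetre (s m : ℝ) : (1 + (s - m) ^ 2)⁻¹ ≤ 2 * (1 + s ^ 2) * (1 + m ^ 2)⁻¹ := by
  have h1 : (0 : ℝ) < 1 + (s - m) ^ 2 := by positivity
  have h2 : (0 : ℝ) < 1 + m ^ 2 := by positivity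
  rw [← div_eq_mul_inv, inv_eq_one_div, div_le_div_iff₀ h1 h2]
  have h3 : 1 + m ^ 2 ≤ 2 * (1 + s ^ 2) * (1 + (s - m) ^ 2) := by
    nlinarith [sq_nonneg (s * (s - m)), sq_nonneg (2 * s - m), sq_nonneg (s - m), sq_nonneg s]
  linarith

private lemma summable_base : Summable (fun m : ℤ => (1 + (m : ℝ) ^ 2)⁻¹) := by
  have h : Summable (fun m : ℤ => 1 / (m : ℝ) ^ 2) :=
    Real.summable_one_div_int_pow.mpr (by norm_num)
  have h' : Summable (fun m : ℤ => if m = 0 then (1 : ℝ) else 0) := by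
    apply summable_of_ne_finset_zero (s := {0})
    intro b hb
    simp at hb
    simp [hb]
  refine Summable.of_nonneg_of_le (fun m => by positivity) (fun m => ?_) (h'.add h)
  by_cases hm : m = 0
  · subst hm; simp
  · have hm' : (0 : ℝ) < (m : ℝ) ^ 2 := by
      have : (m : ℝ) ≠ 0 := by exact_mod_cast hm
      positivity
    simp only [hm, if_false, zero_add]
    rw [one_div]
    exact inv_anti₀ hm' (by linarith)

private lemma summable_shift (t : ℝ) : Summable (fun n : ℤ => (1 + (t - n) ^ 2)⁻¹) := by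
  refine Summable.of_nonneg_of_le (fun m => by positivity) (fun m => peetre t m) ?_
  exact summable_base.mul_left _

private lemma tsum_shift_le (t : ℝ) :
    ∑' n : ℤ, (1 + (t - n) ^ 2)⁻¹ ≤ 4 * ∑' m : ℤ, (1 + (m : ℝ) ^ 2)⁻¹ := by
  rw [← (Equiv.addRight ⌊t⌋).tsum_eq, ← tsum_mul_left]
  refine Summable.tsum_le_tsum (fun m => ?_) ?_ (summable_base.mul_left _)
  · have h0 : t - ((Equiv.addRight ⌊t⌋ m : ℤ) : ℝ) = Int.fract t - m := by
      rw [Equiv.coe_addRight, Int.cast_add, Int.fract]; ring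
    rw [h0]
    refine (peetre _ _).trans ?_
    have h1 : (0 : ℝ) ≤ (1 + (m : ℝ) ^ 2)⁻¹ := by positivity
    apply mul_le_mul_of_nonneg_right _ h1
    have h2 := Int.fract_nonneg t
    have h3 := (Int.fract_lt_one t).le
    nlinarith
  · exact (Equiv.summable_iff (Equiv.addRight ⌊t⌋)).mpr (summable_shift t)

private lemma prod_summable {k : ℕ} (f : Fin k → ℤ → ℝ) (h0 : ∀ i n, 0 ≤ f i n)
    (hs : ∀ i, Summable (f i)) (K : ℝ) (hK : ∀ i, ∑' n, f i n ≤ K) :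
    Summable (fun w : Fin k → ℤ => ∏ i, f i (w i)) ∧
      ∑' w : Fin k → ℤ, ∏ i, f i (w i) ≤ K ^ k := by
  have key : ∀ S : Finset (Fin k → ℤ), ∑ w ∈ S, ∏ i, f i (w i) ≤ K ^ k := by
    intro S
    calc ∑ w ∈ S, ∏ i, f i (w i)
        ≤ ∑ w ∈ Fintype.piFinset (fun i => S.image (fun w => w i)), ∏ i, f i (w i) := by
          apply Finset.sum_le_sum_of_subset_of_nonneg
          · intro w hw
            rw [Fintype.mem_piFinset]
            intro i
            exact Finset.mem_image_of_mem _ hw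
          · intro w _ _
            exact Finset.prod_nonneg fun i _ => h0 i _
      _ = ∏ i, ∑ n ∈ S.image (fun w => w i), f i n := by
          rw [Finset.prod_univ_sum]
      _ ≤ ∏ _i : Fin k, K := by
          apply Finset.prod_le_prod
          · intro i _
            exact Finset.sum_nonneg fun n _ => h0 i n
          · intro i _
            exact ((hs i).sum_le_tsum _ (fun n _ => h0 i n)).trans (hK i)
      _ = K ^ k := by simp
  have hsum : Summable (fun w : Fin k → ℤ => ∏ i, f i (w i)) :=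
    summable_of_sum_le (fun w => Finset.prod_nonneg fun i _ => h0 i _) key
  exact ⟨hsum, hsum.tsum_le_of_sum_le key⟩

private lemma iota_apply {k : ℕ} (w : Fin k → ℤ) (i : Fin k) : (iota w : E k) i = (w i : ℝ) := rfl

/-- uniform bound for the sums of the majorant -/
private lemma major {k : ℕ} : ∃ K : ℝ, 0 ≤ K ∧ ∀ t : E k,
    Summable (fun w : Fin k → ℤ => ∏ i, (1 + ((t - iota w) i) ^ 2)⁻¹) ∧
      ∑' w : Fin k → ℤ, ∏ i, (1 + ((t - iota w) i) ^ 2)⁻¹ ≤ K := by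
  refine ⟨(4 * ∑' m : ℤ, (1 + (m : ℝ) ^ 2)⁻¹) ^ k, ?_, fun t => ?_⟩
  · have : 0 ≤ ∑' m : ℤ, (1 + (m : ℝ) ^ 2)⁻¹ := tsum_nonneg fun m => by positivity
    positivity
  · exact prod_summable (fun i n => (1 + (t i - n) ^ 2)⁻¹) (fun i n => by positivity)
      (fun i => summable_shift (t i)) _ (fun i => tsum_shift_le (t i))

private lemma C_nonneg {k : ℕ} {φ : E k → ℂ} {C : ℝ}
    (hφ : ∀ t, ‖φ t‖ ≤ C * ∏ i, (1 + (t i) ^ 2)⁻¹) : 0 ≤ C := by
  have h := hφ 0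
  simp at h
  exact (norm_nonneg _).trans h

theorem synth_summable {k : ℕ} (φ : E k → ℂ) (C : ℝ)
    (hφ : ∀ t, ‖φ t‖ ≤ C * ∏ i, (1 + (t i) ^ 2)⁻¹) :
    ∃ K : ℝ, ∀ t : E k, Summable (fun w : Fin k → ℤ => ‖φ (t - iota w)‖) ∧
      ∑' w : Fin k → ℤ, ‖φ (t - iota w)‖ ≤ K := by
  obtain ⟨K, hK0, hK⟩ := major (k := k)
  refine ⟨C * K, fun t => ?_⟩
  obtain ⟨h1, h2⟩ := hK t
  have h3 : Summable (fun w : Fin k → ℤ => C * ∏ i, (1 + ((t - iota w) i) ^ 2)⁻¹) :=
    h1.mul_left _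
  have h4 : Summable (fun w : Fin k → ℤ => ‖φ (t - iota w)‖) :=
    Summable.of_nonneg_of_le (fun _ => norm_nonneg _) (fun w => hφ _) h3
  refine ⟨h4, ?_⟩
  calc ∑' w : Fin k → ℤ, ‖φ (t - iota w)‖
      ≤ ∑' w : Fin k → ℤ, C * ∏ i, (1 + ((t - iota w) i) ^ 2)⁻¹ :=
        Summable.tsum_le_tsum (fun w => hφ _) h4 h3
    _ = C * ∑' w : Fin k → ℤ, ∏ i, (1 + ((t - iota w) i) ^ 2)⁻¹ := tsum_mul_left
    _ ≤ C * K := mul_le_mul_of_nonneg_left h2 (C_nonneg hφ)

theorem synth_continuous {k : ℕ} {X : Type*} [TopologicalSpace X] [CompactSpace X]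
    [AddAction (Fin k → ℤ) X] (hact : ∀ n : Fin k → ℤ, Continuous (fun x : X => n +ᵥ x))
    (φ : E k → ℂ) (hc : Continuous φ) (C : ℝ)
    (hφ : ∀ t, ‖φ t‖ ≤ C * ∏ i, (1 + (t i) ^ 2)⁻¹) (A : X → ℂ) (hA : Continuous A) :
    Continuous (fun p : X × E k => ∑' w : Fin k → ℤ, A (w +ᵥ p.1) * φ (p.2 - iota w)) := by
  obtain ⟨M, hM⟩ : ∃ M : ℝ, ∀ x, ‖A x‖ ≤ M := by
    obtain ⟨M, hM⟩ := isCompact_univ.exists_bound_of_continuousOn hA.continuousOn
    exact ⟨M, fun x => hM x (mem_univ x)⟩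
  have hC := C_nonneg hφ
  rw [continuous_iff_continuousAt]
  intro p
  set R : ℝ := ‖p.2‖ + 1 with hR
  have hR0 : 0 ≤ R := by positivity
  have hO : IsOpen {q : X × E k | ‖q.2‖ < R} :=
    isOpen_lt (continuous_norm.comp continuous_snd) continuous_const
  have hp : p ∈ {q : X × E k | ‖q.2‖ < R} := by simp [hR]
  have hM0 : 0 ≤ M := (norm_nonneg _).trans (hM p.1)
  suffices hcont : ContinuousOn
      (fun p : X × E k => ∑' w : Fin k → ℤ, A (w +ᵥ p.1) * φ (p.2 - iota w))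
      {q : X × E k | ‖q.2‖ < R} from hcont.continuousAt (hO.mem_nhds hp)
  have hsumm : Summable (fun w : Fin k → ℤ =>
      M * (C * ∏ i, (2 * (1 + R ^ 2) * (1 + (w i : ℝ) ^ 2)⁻¹))) := by
    apply Summable.mul_left
    apply Summable.mul_left
    exact (prod_summable (fun (_ : Fin k) (n : ℤ) => 2 * (1 + R ^ 2) * (1 + (n : ℝ) ^ 2)⁻¹)
      (fun i n => by positivity) (fun i => summable_base.mul_left _) _ (fun i => le_refl _)).1
  refine continuousOn_tsum (fun w => ?_) hsumm (fun w q hq => ?_)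
  · apply Continuous.continuousOn
    exact (hA.comp ((hact w).comp continuous_fst)).mul
      (hc.comp (continuous_snd.sub continuous_const))
  · rw [norm_mul]
    apply mul_le_mul (hM _) _ (norm_nonneg _) hM0
    refine (hφ _).trans (mul_le_mul_of_nonneg_left ?_ hC)
    apply Finset.prod_le_prod (fun i _ => by positivity)
    intro i _
    have h1 : (1 + ((q.2 - iota w) i) ^ 2)⁻¹ ≤
        2 * (1 + (q.2 i) ^ 2) * (1 + (w i : ℝ) ^ 2)⁻¹ := peetre (q.2 i) (w i)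
    refine h1.trans ?_
    have h2 : |q.2 i| ≤ R := (PiLp.norm_apply_le q.2 i).trans (le_of_lt hq)
    have h3 : (q.2 i) ^ 2 ≤ R ^ 2 := sq_le_sq' (abs_le.mp h2).1 (abs_le.mp h2).2
    gcongr

private lemma exists_translate {k : ℕ} (ψ : 𝓢(E k, ℂ)) (v : E k) :
    ∃ ψ' : 𝓢(E k, ℂ), (∀ t, (𝓕 ψ' : 𝓢(E k, ℂ)) t = (𝓕 ψ : 𝓢(E k, ℂ)) (t + v)) ∧
      tsupport (ψ' : E k → ℂ) ⊆ tsupport (ψ : E k → ℂ) := by
  refine ⟨𝓕⁻ (SchwartzMap.compSubConstCLM ℂ (-v) (𝓕 ψ : 𝓢(E k, ℂ))), fun t => ?_, ?_⟩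
  · rw [FourierTransform.fourier_fourierInv_eq, SchwartzMap.compSubConstCLM_apply, sub_neg_eq_add]
  · apply closure_mono
    intro ξ hξ
    rw [Function.mem_support] at hξ ⊢
    intro h0
    apply hξ
    rw [SchwartzMap.fourierInv_coe, Real.fourierInv_eq]
    have h1 : ∀ y : E k, 𝐞 (inner ℝ y ξ) •
        (SchwartzMap.compSubConstCLM ℂ (-v) (𝓕 ψ : 𝓢(E k, ℂ))) y =
        𝐞 (- inner ℝ v ξ) • (𝐞 (inner ℝ (y + v) ξ) • (𝓕 ψ : 𝓢(E k, ℂ)) (y + v)) := by
      intro y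
      rw [SchwartzMap.compSubConstCLM_apply, sub_neg_eq_add, smul_smul, ← AddChar.map_add_eq_mul,
        inner_add_left]
      congr 2
      ring
    simp_rw [h1]
    rw [MeasureTheory.integral_add_right_eq_self
      (fun y : E k => 𝐞 (- inner ℝ v ξ) • (𝐞 (inner ℝ y ξ) • (𝓕 ψ : 𝓢(E k, ℂ)) y)) v]
    simp_rw [Circle.smul_def]
    rw [integral_smul]
    have h2 : ∫ y : E k, ((𝐞 (inner ℝ y ξ) : Circle) : ℂ) • (𝓕 ψ : 𝓢(E k, ℂ)) y = ψ ξ := by
      have h3 : (𝓕⁻ (𝓕 ψ : 𝓢(E k, ℂ)) : 𝓢(E k, ℂ)) ξ = ψ ξ := by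
        rw [FourierTransform.fourierInv_fourier_eq]
      rw [SchwartzMap.fourierInv_coe, Real.fourierInv_eq] at h3
      exact h3
    rw [h2, h0, smul_zero]

theorem synth_specIn {k : ℕ} (φ : E k → ℂ) (hc : Continuous φ) (C : ℝ)
    (hφ : ∀ t, ‖φ t‖ ≤ C * ∏ i, (1 + (t i) ^ 2)⁻¹) (Q : Set (E k)) (hQ : SpecIn φ Q)
    (a : (Fin k → ℤ) → ℂ) (B : ℝ) (ha : ∀ w, ‖a w‖ ≤ B) :
    SpecIn (fun t => ∑' w : Fin k → ℤ, a w * φ (t - iota w)) Q := by
  intro ψ hψ
  obtain ⟨K, hK⟩ := synth_summable φ C hφ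
  have hC := C_nonneg hφ
  have hB0 : 0 ≤ B := (norm_nonneg _).trans (ha 0)
  have hφb : ∀ t, ‖φ t‖ ≤ C := by
    intro t
    refine (hφ t).trans ?_
    have : ∏ i, (1 + (t i) ^ 2)⁻¹ ≤ 1 := by
      apply Finset.prod_le_one (fun i _ => by positivity)
      intro i _
      apply inv_le_one_of_one_le₀
      nlinarith [sq_nonneg (t i)]
    nlinarith
  have hψi : Integrable (fun t => (𝓕 ψ : 𝓢(E k, ℂ)) t) := (𝓕 ψ : 𝓢(E k, ℂ)).integrable
  -- each term is integrable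
  have hint : ∀ w : Fin k → ℤ, Integrable
      (fun t => a w * φ (t - iota w) * (𝓕 ψ : 𝓢(E k, ℂ)) t) := by
    intro w
    apply hψi.bdd_mul (c := B * C)
    · exact (continuous_const.mul (hc.comp (continuous_id.sub continuous_const))).aestronglyMeasurable
    · filter_upwards with t
      rw [norm_mul]
      exact mul_le_mul (ha w) (hφb _) (norm_nonneg _) hB0
  -- each term has integral zero
  have hzero : ∀ w : Fin k → ℤ, ∫ t, a w * φ (t - iota w) * (𝓕 ψ : 𝓢(E k, ℂ)) t = 0 := by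
    intro w
    obtain ⟨ψ', h1, h2⟩ := exists_translate ψ (iota w : E k)
    have h3 : ∫ t, φ t * (𝓕 ψ' : 𝓢(E k, ℂ)) t = 0 := hQ ψ' (h2.trans hψ)
    have h4 : ∫ t, a w * φ (t - iota w) * (𝓕 ψ : 𝓢(E k, ℂ)) t
        = ∫ t, a w * φ t * (𝓕 ψ : 𝓢(E k, ℂ)) (t + iota w) := by
      rw [← MeasureTheory.integral_add_right_eq_self
        (fun t : E k => a w * φ (t - iota w) * (𝓕 ψ : 𝓢(E k, ℂ)) t) (iota w)]
      simp only [add_sub_cancel_right]
    rw [h4]
    simp_rw [← h1, mul_assoc]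
    rw [integral_const_mul, h3, mul_zero]
  have hsum : Summable (fun w : Fin k → ℤ =>
      ∫ t, ‖a w * φ (t - iota w) * (𝓕 ψ : 𝓢(E k, ℂ)) t‖) := by
    apply summable_of_sum_le (c := ∫ t, B * K * ‖(𝓕 ψ : 𝓢(E k, ℂ)) t‖)
    · intro w
      exact integral_nonneg fun t => norm_nonneg _
    · intro S
      rw [← integral_finsetSum S (fun w _ => (hint w).norm)]
      apply integral_mono (integrable_finsetSum S fun w _ => (hint w).norm)
        (hψi.norm.const_mul _)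
      intro t
      obtain ⟨k1, k2⟩ := hK t
      calc ∑ w ∈ S, ‖a w * φ (t - iota w) * (𝓕 ψ : 𝓢(E k, ℂ)) t‖
          ≤ ∑ w ∈ S, B * ‖φ (t - iota w)‖ * ‖(𝓕 ψ : 𝓢(E k, ℂ)) t‖ := by
            apply Finset.sum_le_sum
            intro w _
            rw [norm_mul, norm_mul]
            gcongr
            exact ha w
        _ = B * (∑ w ∈ S, ‖φ (t - iota w)‖) * ‖(𝓕 ψ : 𝓢(E k, ℂ)) t‖ := by
            rw [Finset.mul_sum, Finset.sum_mul]
        _ ≤ B * K * ‖(𝓕 ψ : 𝓢(E k, ℂ)) t‖ := by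
            gcongr
            exact (k1.sum_le_tsum S (fun _ _ => norm_nonneg _)).trans k2
  have hmain := integral_tsum_of_summable_integral_norm hint hsum
  simp_rw [← tsum_mul_right]
  rw [← hmain]
  simp [hzero]

end BandLim48
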