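import Pool.Agent.Lib.BandLim48.Baire
import Pool.Agent.Lib.BandLim48.MeanDim
import Pool.Agent.Lib.BandLim48.Synth
import Pool.Agent.Lib.BandLim48.Bands
import Pool.Agent.Lib.BandLim48.Kernel
import Pool.Agent.Lib.BandLim48.Cubes
import Pool.Agent.Lib.BandLim48.Semialg

/-! From the discrete theorem to an embedding in `B_1(Ω)`. -/

set_option autoImplicit false

open MeasureTheory Topology Filter Set
open scoped SchwartzMap FourierTransform ENNReal

namespace BandLim48

lemma SpecIn.mono {k : ℕ} {f : E k → ℂ} {Q Q' : Set (E k)} (h : SpecIn f Q) (hQ : Q ⊆ Q') :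
    SpecIn f Q' :=
  fun ψ hψ => h ψ (hψ.trans (compl_subset_compl.2 hQ))

lemma SpecIn.const_mul {k : ℕ} {f : E k → ℂ} {Q : Set (E k)} (h : SpecIn f Q) (c : ℂ) :
    SpecIn (fun t => c * f t) Q := by
  intro ψ hψ
  have := h ψ hψ
  simp only [mul_assoc, integral_const_mul, this, mul_zero]

lemma SpecIn.sub {k : ℕ} {f g : E k → ℂ} {Q : Set (E k)} (hf : SpecIn f Q) (hg : SpecIn g Q)
    (hfc : Continuous f) (hgc : Continuous g) {B B' : ℝ} (hfb : ∀ t, ‖f t‖ ≤ B)
    (hgb : ∀ t, ‖g t‖ ≤ B') : SpecIn (fun t => f t - g t) Q := by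
  intro ψ hψ
  have h1 := hf ψ hψ
  have h2 := hg ψ hψ
  simp only [sub_mul]
  rw [integral_sub (bands_integrable hfc hfb _) (bands_integrable hgc hgb _), h1, h2, sub_zero]

/-- A band: a kernel with its properties. -/
structure Band (k : ℕ) where
  φ : E k → ℂ
  Q : Set (E k)
  C : ℝ
  ℓ : ℕ
  hℓ : 1 ≤ ℓ
  cont : Continuous φ
  zero : φ 0 = 1
  vanish : ∀ w : Fin k → ℤ, w ≠ 0 → (∀ i, (ℓ : ℤ) ∣ w i) → φ (iota w) = 0
  lt_one : ∀ w : Fin k → ℤ, w ≠ 0 → ‖φ (iota w)‖ < 1
  bound : ∀ t, ‖φ t‖ ≤ C * ∏ i, (1 + (t i) ^ 2)⁻¹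
  compact : IsCompact Q
  spec : SpecIn φ Q

lemma isCompact_Cube {k : ℕ} (c : E k) (s : ℝ) : IsCompact (Cube c s) := by
  have h1 : IsClosed (Cube c s) := by
    unfold Cube
    simp only [Set.ofPred_forall, Set.ofPred_and]
    refine isClosed_iInter fun i => ?_
    refine IsClosed.inter ?_ ?_
    · exact isClosed_le continuous_const (by fun_prop)
    · exact isClosed_le (by fun_prop) continuous_const
  refine Metric.isCompact_of_isClosed_isBounded h1 ?_
  refine (Metric.isBounded_iff_subset_closedBall c).2 ⟨√(∑ _i : Fin k, s ^ 2), ?_⟩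
  intro ξ hξ
  rw [Metric.mem_closedBall, EuclideanSpace.dist_eq]
  refine Real.sqrt_le_sqrt (Finset.sum_le_sum fun i _ => ?_)
  have := hξ i
  rw [Real.dist_eq, sq_abs]
  nlinarith [this.1, this.2]

lemma exists_band {k : ℕ} (c : E k) (s : ℝ) (hs : 0 < s) (ℓ : ℕ) (hℓ : 1 < ℓ * s) :
    ∃ b : Band k, b.Q = Cube c s ∧ b.ℓ = ℓ := by
  obtain ⟨φ, h1, h2, h3, h4, ⟨C, h5⟩, h6⟩ := exists_kernel c s hs ℓ hℓ
  refine ⟨⟨φ, Cube c s, C, ℓ, ?_, h1, h2, h3, h4, h5, isCompact_Cube c s, h6⟩, rfl, rfl⟩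
  by_contra hcon
  have : ℓ = 0 := by omega
  rw [this] at hℓ
  norm_num at hℓ

/-- The kernel of convolution on the samples. -/
noncomputable def Band.a {k : ℕ} (b : Band k) (w : Fin k → ℤ) : ℂ := b.φ (iota (-w))

lemma iota_neg {k : ℕ} (w : Fin k → ℤ) : iota (-w) = -iota w := by
  unfold iota
  ext i
  simp

lemma iota_add {k : ℕ} (w v : Fin k → ℤ) : iota (w + v) = iota w + iota v := by
  unfold iota
  ext i
  simp

@[simp] lemma iota_zero {k : ℕ} : iota (0 : Fin k → ℤ) = 0 := by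
  unfold iota
  ext i
  simp

lemma Band.isKer {k : ℕ} (b : Band k) : IsKer b.ℓ b.a := by
  obtain ⟨K, hK⟩ := synth_summable b.φ b.C b.bound
  refine ⟨?_, ?_, ?_⟩
  · have := (hK 0).1
    simp only [zero_sub] at this
    simpa only [Band.a, iota_neg] using this
  · simp [Band.a, b.zero]
  · intro u hu
    unfold Band.a
    refine b.vanish _ ?_ ?_
    · intro h
      have h1 : (b.ℓ : ℤ) • u = 0 := neg_eq_zero.1 h
      have hℓ := b.hℓ
      have h2 : (b.ℓ : ℤ) ≠ 0 := by
        have : (b.ℓ : ℤ) ≥ 1 := by exact_mod_cast hℓ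
        omega
      exact hu ((smul_eq_zero.1 h1).resolve_left h2)
    · intro i
      simp

lemma Band.isMKer {k : ℕ} (b : Band k) : IsMKer b.a := by
  refine ⟨b.isKer.summable, b.isKer.zero, fun w hw => ?_⟩
  exact b.lt_one (-w) (neg_ne_zero.2 hw)

section Signal

variable {k : ℕ} {X : Type*} [MetricSpace X] [CompactSpace X] [AddAction (Fin k → ℤ) X]

/-- The signal of `x` in a band. -/
noncomputable def Band.signal (b : Band k) (A : C(X, ℂ)) (x : X) (t : E k) : ℂ :=
  ∑' w : Fin k → ℤ, A (w +ᵥ x) * b.φ (t - iota w)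

lemma Band.signal_continuous (hact : ∀ n : Fin k → ℤ, Continuous (fun x : X => n +ᵥ x))
    (b : Band k) (A : C(X, ℂ)) : Continuous (fun p : X × E k => b.signal A p.1 p.2) :=
  synth_continuous hact b.φ b.cont b.C b.bound A A.continuous

lemma Band.signal_bound (b : Band k) (A : C(X, ℂ)) : ∃ K : ℝ, 0 ≤ K ∧
    ∀ x t, ‖b.signal A x t‖ ≤ K := by
  obtain ⟨K, hK⟩ := synth_summable b.φ b.C b.bound
  have hK0 : 0 ≤ K := (tsum_nonneg fun _ => norm_nonneg _).trans (hK 0).2
  refine ⟨‖A‖ * K, by positivity, fun x t => ?_⟩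
  obtain ⟨h1, h2⟩ := hK t
  unfold Band.signal
  have h3 : ∀ w : Fin k → ℤ, ‖A (w +ᵥ x) * b.φ (t - iota w)‖ ≤ ‖A‖ * ‖b.φ (t - iota w)‖ := by
    intro w
    rw [norm_mul]
    exact mul_le_mul_of_nonneg_right (A.norm_coe_le_norm _) (norm_nonneg _)
  calc ‖∑' w : Fin k → ℤ, A (w +ᵥ x) * b.φ (t - iota w)‖
      ≤ ∑' w : Fin k → ℤ, ‖A‖ * ‖b.φ (t - iota w)‖ :=
        tsum_of_norm_bounded (h1.mul_left _).hasSum h3
    _ = ‖A‖ * ∑' w : Fin k → ℤ, ‖b.φ (t - iota w)‖ := tsum_mul_left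
    _ ≤ ‖A‖ * K := mul_le_mul_of_nonneg_left h2 (norm_nonneg _)

lemma Band.signal_spec (b : Band k) (A : C(X, ℂ)) (x : X) : SpecIn (b.signal A x) b.Q :=
  synth_specIn b.φ b.cont b.C b.bound b.Q b.spec (fun w => A (w +ᵥ x)) ‖A‖
    (fun _ => A.norm_coe_le_norm _)

omit [CompactSpace X] in
lemma Band.signal_equiv (b : Band k) (A : C(X, ℂ)) (n : Fin k → ℤ) (x : X) (t : E k) :
    b.signal A (n +ᵥ x) t = b.signal A x (t + iota n) := by
  unfold Band.signal
  rw [← (Equiv.addRight n).tsum_eq (fun w : Fin k → ℤ => A (w +ᵥ x) * b.φ (t + iota n - iota w))]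
  refine tsum_congr fun w => ?_
  rw [Equiv.coe_addRight, iota_add, vadd_vadd]
  congr 2
  abel

omit [CompactSpace X] in
lemma Band.signal_iota (b : Band k) (A : C(X, ℂ)) (s : Fin k → ℤ) (x : X) :
    b.signal A x (iota s) = conv b.a A (s +ᵥ x) := by
  unfold Band.signal conv Band.a
  rw [← (Equiv.addRight s).tsum_eq (fun w : Fin k → ℤ => A (w +ᵥ x) * b.φ (iota s - iota w))]
  refine tsum_congr fun w => ?_
  rw [Equiv.coe_addRight, iota_add, iota_neg, vadd_vadd, mul_comm]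
  congr 2
  abel

/-- Adding up separated bands. -/
theorem assemble (hact : ∀ n : Fin k → ℤ, Continuous (fun x : X => n +ᵥ x)) {I : Type}
    [Countable I] (bd : I → Band k)
    (hsep : ∀ i, ∃ Z : Set (E k), IsClosed Z ∧ Disjoint (bd i).Q Z ∧ ∀ j, j ≠ i → (bd j).Q ⊆ Z)
    (Ω : Set (E k)) (hΩ : ∀ i, (bd i).Q ⊆ Ω) (A : I → C(X, ℂ))
    (hinj : ∀ x y : X, (∀ i (s : Fin k → ℤ), conv (bd i).a (A i) (s +ᵥ x)
      = conv (bd i).a (A i) (s +ᵥ y)) → x = y) :
    ∃ F : X → C(E k, ℂ), Continuous F ∧ Function.Injective F ∧ (∀ x, F x ∈ B1 Ω) ∧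
      ∀ (n : Fin k → ℤ) (x : X) (t : E k), F (n +ᵥ x) t = F x (t + iota n) := by
  classical
  have : Encodable I := Encodable.ofCountable I
  have hK : ∀ i, ∃ K : ℝ, 0 ≤ K ∧ ∀ x t, ‖(bd i).signal (A i) x t‖ ≤ K :=
    fun i => (bd i).signal_bound (A i)
  choose K hK0 hK using hK
  obtain ⟨ε, hε, S, hS, hS1⟩ := posSumOfEncodable (zero_lt_one (α := ℝ)) I
  let c : I → ℝ := fun i => ε i / (1 + K i)
  have hc0 : ∀ i, 0 < c i := fun i => div_pos (hε i) (by linarith [hK0 i])
  have hcK : ∀ i, c i * K i ≤ ε i := by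
    intro i
    have h1 : 0 < 1 + K i := by linarith [hK0 i]
    rw [div_mul_eq_mul_div, div_le_iff₀ h1]
    nlinarith [hε i, hK0 i]
  let g : I → X → E k → ℂ := fun i x t => (c i : ℂ) * (bd i).signal (A i) x t
  have hgb : ∀ i x t, ‖g i x t‖ ≤ ε i := by
    intro i x t
    simp only [g, norm_mul, Complex.norm_real, Real.norm_eq_abs, abs_of_pos (hc0 i)]
    exact (mul_le_mul_of_nonneg_left (hK i x t) (hc0 i).le).trans (hcK i)
  have hgc : ∀ i, Continuous (fun p : X × E k => g i p.1 p.2) :=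
    fun i => continuous_const.mul ((bd i).signal_continuous hact (A i))
  have hFc : Continuous (fun p : X × E k => ∑' i, g i p.1 p.2) :=
    continuous_tsum hgc hS.summable (fun i p => hgb i p.1 p.2)
  let F : C(X, C(E k, ℂ)) := ContinuousMap.curry ⟨fun p : X × E k => ∑' i, g i p.1 p.2, hFc⟩
  have hF : ∀ x t, F x t = ∑' i, g i x t := fun x t => rfl
  have hgx : ∀ i x, Continuous (g i x) := fun i x =>
    (hgc i).comp (continuous_const.prodMk continuous_id)
  refine ⟨F, F.continuous, ?_, ?_, ?_⟩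
  · intro x y hxy
    apply hinj
    intro i s
    have h1 := bands_injective (fun i => (bd i).Q) (fun i => (bd i).compact) hsep
      (fun i t => g i x t - g i y t) (fun i => (hgx i x).sub (hgx i y)) (fun i => 2 * ε i)
      (fun i t => (norm_sub_le _ _).trans (by linarith [hgb i x t, hgb i y t]))
      (hS.summable.mul_left 2)
      (fun i => SpecIn.sub (((bd i).signal_spec (A i) x).const_mul _)
        (((bd i).signal_spec (A i) y).const_mul _) (hgx i x) (hgx i y) (hgb i x) (hgb i y))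
      (fun t => by
        have hsx : Summable (fun i => g i x t) :=
          Summable.of_norm_bounded hS.summable (fun i => hgb i x t)
        have hsy : Summable (fun i => g i y t) :=
          Summable.of_norm_bounded hS.summable (fun i => hgb i y t)
        rw [hsx.tsum_sub hsy, ← hF, ← hF, hxy, sub_self])
      i (iota s)
    have h2 : (c i : ℂ) * (bd i).signal (A i) x (iota s)
        = (c i : ℂ) * (bd i).signal (A i) y (iota s) := sub_eq_zero.1 h1
    have hcne : (c i : ℂ) ≠ 0 := by exact_mod_cast (hc0 i).ne'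
    have h3 := mul_left_cancel₀ hcne h2
    rwa [Band.signal_iota, Band.signal_iota] at h3
  · intro x
    refine ⟨fun t => ?_, ?_⟩
    · rw [hF]
      exact (tsum_of_norm_bounded hS (fun i => hgb i x t)).trans hS1
    · have := bands_specIn Ω (fun i => g i x) (fun i => hgx i x) ε (fun i t => hgb i x t)
        hS.summable (fun i => (((bd i).signal_spec (A i) x).const_mul _).mono (hΩ i))
      exact this
  · intro n x t
    rw [hF, hF]
    refine tsum_congr fun i => ?_
    simp only [g, Band.signal_equiv]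

end Signal

end BandLim48
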