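import Pool.Agent.Lib.BandLim48.Disc

/-! The discrete embedding theorem from the one-scale statement, by a Baire category argument. -/

set_option autoImplicit false

open Topology Filter Set

namespace BandLim48

section

variable {k : ℕ} {X : Type*} [TopologicalSpace X] [CompactSpace X] [AddAction (Fin k → ℤ) X]

lemma continuous_convC (hact : ∀ n : Fin k → ℤ, Continuous (fun x : X => n +ᵥ x))
    {a : (Fin k → ℤ) → ℂ} (ha : Summable (fun w => ‖a w‖)) :
    Continuous (fun p : C(X, ℂ) × X => conv a (⇑p.1) p.2) := by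
  -- the convolution is Lipschitz in the function, uniformly in the point
  set S : ℝ := ∑' w, ‖a w‖ with hS
  have hS0 : 0 ≤ S := tsum_nonneg fun _ => norm_nonneg _
  have hlip : ∀ (A B : C(X, ℂ)) (x : X), ‖conv a (⇑A) x - conv a (⇑B) x‖ ≤ S * ‖A - B‖ := by
    intro A B x
    have h1 : conv a (⇑A) x = conv a (fun y => (A - B) y + B y) x := by
      congr 1
      funext y
      simp
    rw [h1, conv_add (A := fun y => (A - B) y) (A' := fun y => B y) ha
      (fun y => (A - B).norm_coe_le_norm y) (fun y => B.norm_coe_le_norm y), add_sub_cancel_right]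
    exact norm_conv_le ha (fun y => (A - B).norm_coe_le_norm y) x
  rw [Metric.continuous_iff']
  intro p ε hε
  have hc : Continuous (conv a (⇑p.1)) := continuous_conv hact ha p.1.continuous
  have h1 : ∀ᶠ q : C(X, ℂ) × X in 𝓝 p, dist (conv a (⇑p.1) q.2) (conv a (⇑p.1) p.2) < ε / 2 := by
    have := (hc.comp continuous_snd).continuousAt (x := p)
    exact (Metric.tendsto_nhds.1 this) (ε / 2) (by positivity)
  have h2 : ∀ᶠ q : C(X, ℂ) × X in 𝓝 p, S * ‖q.1 - p.1‖ < ε / 2 := by
    have : Tendsto (fun q : C(X, ℂ) × X => S * ‖q.1 - p.1‖) (𝓝 p) (𝓝 (S * ‖p.1 - p.1‖)) :=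
      ((continuous_fst.sub continuous_const).norm.const_mul S).continuousAt
    rw [sub_self, norm_zero, mul_zero] at this
    exact this.eventually (gt_mem_nhds (by positivity))
  filter_upwards [h1, h2] with q hq1 hq2
  calc dist (conv a (⇑q.1) q.2) (conv a (⇑p.1) p.2)
      ≤ dist (conv a (⇑q.1) q.2) (conv a (⇑p.1) q.2)
        + dist (conv a (⇑p.1) q.2) (conv a (⇑p.1) p.2) := dist_triangle _ _ _
    _ < ε := by
        rw [dist_eq_norm (conv a (⇑q.1) q.2)]
        have := hlip q.1 p.1 q.2
        linarith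

end

theorem discrete_embedding {k : ℕ} {X : Type*} [MetricSpace X] [CompactSpace X]
    [AddAction (Fin k → ℤ) X] (hact : ∀ n : Fin k → ℤ, Continuous (fun x : X => n +ᵥ x))
    {m : ℕ} {a : Fin m → (Fin k → ℤ) → ℂ} (ha : ∀ i, Summable (fun w => ‖a i w‖))
    (a' a'' : ℕ → (Fin k → ℤ) → ℂ) (ha' : ∀ j, Summable (fun w => ‖a' j w‖))
    (ha'' : ∀ j, Summable (fun w => ‖a'' j w‖))
    (hlevel : ∀ j : ℕ, LevelStatement X m a (a' j) (a'' j) (1 / ((j : ℝ) + 1))) :
    ∃ (A : Fin m → C(X, ℂ)) (Y h : ℕ → C(X, ℂ)), ∀ x y : X,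
      (∀ i (s : Fin k → ℤ), conv (a i) (A i) (s +ᵥ x) = conv (a i) (A i) (s +ᵥ y)) →
      (∀ j (s : Fin k → ℤ), conv (a' j) (Y j) (s +ᵥ x) = conv (a' j) (Y j) (s +ᵥ y)) →
      (∀ j (s : Fin k → ℤ), conv (a'' j) (h j) (s +ᵥ x) = conv (a'' j) (h j) (s +ᵥ y)) →
      x = y := by
  choose Y h hYh using hlevel
  -- the pairs which are not separated by the auxiliary bands
  let P : X → X → Prop := fun x y =>
    (∀ j (s : Fin k → ℤ), conv (a' j) (Y j) (s +ᵥ x) = conv (a' j) (Y j) (s +ᵥ y)) ∧
    (∀ j (s : Fin k → ℤ), conv (a'' j) (h j) (s +ᵥ x) = conv (a'' j) (h j) (s +ᵥ y))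
  let G : ℕ → Set (Fin m → C(X, ℂ)) := fun n => {A | ∀ x y : X,
    (∀ i (s : Fin k → ℤ), conv (a i) (A i) (s +ᵥ x) = conv (a i) (A i) (s +ᵥ y)) →
    P x y → dist x y < 1 / ((n : ℝ) + 1)}
  have hopen : ∀ n, IsOpen (G n) := by
    intro n
    -- the bad set is the projection of a closed set along a compact space
    let B : Set ((Fin m → C(X, ℂ)) × (X × X)) := {p |
      (∀ i (s : Fin k → ℤ), conv (a i) (p.1 i) (s +ᵥ p.2.1) = conv (a i) (p.1 i) (s +ᵥ p.2.2)) ∧
      P p.2.1 p.2.2 ∧ 1 / ((n : ℝ) + 1) ≤ dist p.2.1 p.2.2}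
    have hB : IsClosed B := by
      have e1 : IsClosed {p : (Fin m → C(X, ℂ)) × (X × X) | ∀ i (s : Fin k → ℤ),
          conv (a i) (p.1 i) (s +ᵥ p.2.1) = conv (a i) (p.1 i) (s +ᵥ p.2.2)} := by
        simp only [Set.ofPred_forall]
        refine isClosed_iInter fun i => isClosed_iInter fun s => ?_
        refine isClosed_eq ?_ ?_
        · have c1 : Continuous (fun p : (Fin m → C(X, ℂ)) × (X × X) => (p.1 i, s +ᵥ p.2.1)) :=
            ((continuous_apply i).comp continuous_fst).prodMk
              ((hact s).comp (continuous_fst.comp continuous_snd))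
          exact (continuous_convC hact (ha i)).comp c1
        · have c1 : Continuous (fun p : (Fin m → C(X, ℂ)) × (X × X) => (p.1 i, s +ᵥ p.2.2)) :=
            ((continuous_apply i).comp continuous_fst).prodMk
              ((hact s).comp (continuous_snd.comp continuous_snd))
          exact (continuous_convC hact (ha i)).comp c1
      have e2 : IsClosed {p : (Fin m → C(X, ℂ)) × (X × X) | P p.2.1 p.2.2} := by
        simp only [P, Set.ofPred_and, Set.ofPred_forall]
        refine IsClosed.inter ?_ ?_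
        · refine isClosed_iInter fun j => isClosed_iInter fun s => ?_
          refine isClosed_eq ?_ ?_
          · exact (continuous_conv hact (ha' j) (Y j).continuous).comp
              ((hact s).comp (continuous_fst.comp continuous_snd))
          · exact (continuous_conv hact (ha' j) (Y j).continuous).comp
              ((hact s).comp (continuous_snd.comp continuous_snd))
        · refine isClosed_iInter fun j => isClosed_iInter fun s => ?_
          refine isClosed_eq ?_ ?_
          · exact (continuous_conv hact (ha'' j) (h j).continuous).comp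
              ((hact s).comp (continuous_fst.comp continuous_snd))
          · exact (continuous_conv hact (ha'' j) (h j).continuous).comp
              ((hact s).comp (continuous_snd.comp continuous_snd))
      have e3 : IsClosed {p : (Fin m → C(X, ℂ)) × (X × X) |
          1 / ((n : ℝ) + 1) ≤ dist p.2.1 p.2.2} :=
        isClosed_le continuous_const
          ((continuous_fst.comp continuous_snd).dist (continuous_snd.comp continuous_snd))
      exact e1.inter (e2.inter e3)
    have hproj : IsClosed (Prod.fst '' B) := isClosedMap_fst_of_compactSpace B hB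
    have : G n = (Prod.fst '' B)ᶜ := by
      ext A
      simp only [G, Set.mem_ofPred_eq, mem_compl_iff, mem_image, Prod.exists, exists_and_right,
        exists_eq_right, not_exists]
      constructor
      · rintro hA x y ⟨h1, h2, h3⟩
        exact absurd (hA x y h1 h2) (not_lt.2 h3)
      · intro hA x y h1 h2
        by_contra hcon
        exact hA x y ⟨h1, h2, not_lt.1 hcon⟩
    rw [this]
    exact hproj.isOpen_compl
  have hdense : ∀ n, Dense (G n) := by
    intro n
    rw [Metric.dense_iff]
    intro A r hr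
    set δ : ℝ := r / 8 with hδ
    have hδ0 : 0 < δ := by positivity
    -- uniform continuity of the samples
    have huc : ∀ i, ∃ η > 0, ∀ x y, dist x y < η → ‖conv (a i) (A i) x - conv (a i) (A i) y‖ ≤ δ := by
      intro i
      have hc : UniformContinuous (conv (a i) (A i)) :=
        CompactSpace.uniformContinuous_of_continuous (continuous_conv hact (ha i) (A i).continuous)
      obtain ⟨η, hη, hη'⟩ := Metric.uniformContinuous_iff.1 hc δ hδ0
      exact ⟨η, hη, fun x y hxy => by rw [← dist_eq_norm]; exact (hη' hxy).le⟩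
    choose η hη hη' using huc
    obtain ⟨η₀, hη₀, hη₀'⟩ : ∃ η₀ > 0, ∀ i, η₀ ≤ η i := by
      rcases isEmpty_or_nonempty (Fin m) with hm | hm
      · exact ⟨1, one_pos, fun i => (hm.false i).elim⟩
      · obtain ⟨i₀, -, hi₀⟩ := Finset.exists_min_image Finset.univ η Finset.univ_nonempty
        exact ⟨η i₀, hη i₀, fun i => hi₀ i (Finset.mem_univ i)⟩
    obtain ⟨j, hj⟩ := exists_nat_gt (max (1 / η₀) n)
    have hj1 : 1 / η₀ < j := lt_of_le_of_lt (le_max_left _ _) hj
    have hj2 : (n : ℝ) < j := lt_of_le_of_lt (le_max_right _ _) hj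
    have hε1 : 1 / ((j : ℝ) + 1) < η₀ := by
      rw [div_lt_iff₀ (by positivity)]
      rw [div_lt_iff₀ hη₀] at hj1
      nlinarith
    have hε2 : 1 / ((j : ℝ) + 1) ≤ 1 / ((n : ℝ) + 1) := by
      apply one_div_le_one_div_of_le (by positivity)
      linarith
    obtain ⟨A', hA', hsep⟩ := hYh j A δ hδ0 (fun i x y hxy =>
      hη' i x y (hxy.trans (lt_of_lt_of_le hε1 (hη₀' i))))
    refine ⟨fun i => A i + A' i, ?_, ?_⟩
    · rw [Metric.mem_ball, dist_pi_lt_iff hr]
      intro i
      rw [dist_eq_norm, add_sub_cancel_left]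
      calc ‖A' i‖ ≤ 4 * δ := hA' i
        _ < r := by rw [hδ]; linarith
    · intro x y h1 h2
      exact (hsep x y h1 (h2.1 j) (h2.2 j)).trans_le hε2
  obtain ⟨A, hA⟩ := (dense_iInter_of_isOpen_nat hopen hdense).nonempty
  refine ⟨A, Y, h, fun x y h1 h2 h3 => ?_⟩
  have hn : ∀ n : ℕ, dist x y < 1 / ((n : ℝ) + 1) := fun n => mem_iInter.1 hA n x y h1 ⟨h2, h3⟩
  by_contra hne
  have hd : 0 < dist x y := dist_pos.2 hne
  obtain ⟨n, hn'⟩ := exists_nat_one_div_lt hd
  exact lt_irrefl _ ((hn n).trans hn')

end BandLim48
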