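import Pool.Agent.Lib.BandLim48.Defs

/-! Generic matrices: every square minor is nonzero after a small perturbation (MP_fc1499_an). -/

set_option autoImplicit false

open MeasureTheory Topology Filter Set
open scoped SchwartzMap FourierTransform ENNReal

namespace BandLim48

/-- The minor with rows `e b`, `b ∈ T`, and columns `T`, as a polynomial in the matrix entries. -/
private noncomputable def minorPoly {I J : Type} [DecidableEq I] [DecidableEq J]
    (T : Finset J) (e : T → I) : MvPolynomial (I × J) ℝ :=
  Matrix.det (Matrix.of (fun a b : T => (MvPolynomial.X (e a, (b : J)) : MvPolynomial (I × J) ℝ)))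

private lemma eval_minorPoly {I J : Type} [DecidableEq I] [DecidableEq J]
    (T : Finset J) (e : T → I) (L : I → J → ℝ) :
    MvPolynomial.eval (fun p : I × J => L p.1 p.2) (minorPoly T e) =
      Matrix.det (Matrix.of (fun a b : T => L (e a) b)) := by
  unfold minorPoly
  rw [RingHom.map_det]
  congr 1
  ext a b
  simp [Matrix.map_apply]

private lemma minorPoly_ne_zero {I J : Type} [DecidableEq I] [DecidableEq J]
    (T : Finset J) (e : T → I) (he : Function.Injective e) : minorPoly T e ≠ 0 := by
  intro h
  have h1 := eval_minorPoly T e (fun i j => if h : j ∈ T then (if i = e ⟨j, h⟩ then 1 else 0) else 0)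
  rw [h, map_zero] at h1
  have h2 : (Matrix.of (fun a b : T =>
      (fun (i : I) (j : J) => if h : j ∈ T then (if i = e ⟨j, h⟩ then (1 : ℝ) else 0) else 0)
        (e a) b)) = 1 := by
    ext a b
    by_cases hab : a = b
    · subst hab
      simp
    · have : e a ≠ e b := fun hh => hab (he hh)
      simp [hab, this]
  rw [h2, Matrix.det_one] at h1
  exact zero_ne_one h1

theorem exists_generic_matrix {I J : Type} [Fintype I] [Fintype J] [DecidableEq I] [DecidableEq J]
    (L0 : I → J → ℝ) (δ : ℝ) (hδ : 0 < δ) :
    ∃ L : I → J → ℝ, (∀ i j, |L i j - L0 i j| ≤ δ) ∧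
      ∀ (S : Finset I) (u : J → ℝ), (Finset.univ.filter (fun j => u j ≠ 0)).card ≤ S.card →
        (∀ i ∈ S, ∑ j, L i j * u j = 0) → u = 0 := by
  classical
  -- the product of all minors
  set P : MvPolynomial (I × J) ℝ :=
    ∏ T : Finset J, ∏ e ∈ (Finset.univ : Finset (T → I)).filter Function.Injective, minorPoly T e
    with hP
  have hPne : P ≠ 0 := by
    rw [hP]
    refine Finset.prod_ne_zero_iff.mpr fun T _ => Finset.prod_ne_zero_iff.mpr fun e he => ?_
    exact minorPoly_ne_zero T e (Finset.mem_filter.mp he).2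
  -- a point where it does not vanish
  obtain ⟨x1, hx1⟩ : ∃ x : I × J → ℝ, MvPolynomial.eval x P ≠ 0 := by
    by_contra hcon
    push Not at hcon
    exact hPne (MvPolynomial.funext (fun x => by simp [hcon x]))
  -- the line through `L0` and `x1`
  set q : Polynomial ℝ := MvPolynomial.aeval (fun p : I × J =>
    Polynomial.C (L0 p.1 p.2) + Polynomial.X * Polynomial.C (x1 p - L0 p.1 p.2)) P with hq
  have hqeval : ∀ t : ℝ, q.eval t =
      MvPolynomial.eval (fun p : I × J => L0 p.1 p.2 + t * (x1 p - L0 p.1 p.2)) P := by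
    intro t
    rw [hq, ← Polynomial.coe_evalRingHom, MvPolynomial.aeval_def, MvPolynomial.hom_eval₂]
    rw [MvPolynomial.eval, MvPolynomial.coe_eval₂Hom]
    congr 1
    · ext r
      simp
    · funext p
      simp
  have hqne : q ≠ 0 := by
    intro h
    have h1 := hqeval 1
    rw [h, Polynomial.eval_zero] at h1
    apply hx1
    rw [h1]
    congr 2
    funext p
    ring
  -- a bound for the direction
  set M : ℝ := ∑ p : I × J, |x1 p - L0 p.1 p.2| with hM
  have hM0 : 0 ≤ M := Finset.sum_nonneg fun _ _ => abs_nonneg _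
  have hMle : ∀ p : I × J, |x1 p - L0 p.1 p.2| ≤ M := fun p =>
    Finset.single_le_sum (f := fun p : I × J => |x1 p - L0 p.1 p.2|)
      (fun _ _ => abs_nonneg _) (Finset.mem_univ p)
  obtain ⟨t, ht, htq⟩ : ∃ t ∈ Set.Ioo (0 : ℝ) (δ / (M + 1)), q.eval t ≠ 0 := by
    by_contra hcon
    push Not at hcon
    have hinf : (Set.Ioo (0 : ℝ) (δ / (M + 1))).Infinite :=
      Set.Ioo_infinite (by positivity)
    exact hqne (Polynomial.eq_zero_of_infinite_isRoot q
      (hinf.mono fun t ht => hcon t ht))
  refine ⟨fun i j => L0 i j + t * (x1 (i, j) - L0 i j), ?_, ?_⟩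
  · intro i j
    have h1 : L0 i j + t * (x1 (i, j) - L0 i j) - L0 i j = t * (x1 (i, j) - L0 i j) := by ring
    rw [h1, abs_mul, abs_of_pos ht.1]
    calc t * |x1 (i, j) - L0 i j| ≤ (δ / (M + 1)) * (M + 1) := by
          apply mul_le_mul ht.2.le _ (abs_nonneg _) (by positivity)
          exact (hMle (i, j)).trans (by linarith)
      _ = δ := by field_simp
  · intro S u hcard hker
    set T : Finset J := Finset.univ.filter (fun j => u j ≠ 0) with hT
    obtain ⟨S', hS'S, hS'card⟩ := Finset.exists_subset_card_eq hcard
    let e : T ≃ S' := Finset.equivOfCardEq hS'card.symm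
    let f : T → I := fun b => (e b : I)
    have hf : Function.Injective f := fun a b hab => e.injective (Subtype.ext hab)
    have hne : MvPolynomial.eval (fun p : I × J => L0 p.1 p.2 + t * (x1 p - L0 p.1 p.2))
        (minorPoly T f) ≠ 0 := by
      rw [hqeval t, hP, map_prod, Finset.prod_ne_zero_iff] at htq
      have h1 := htq T (Finset.mem_univ _)
      rw [map_prod, Finset.prod_ne_zero_iff] at h1
      exact h1 f (Finset.mem_filter.mpr ⟨Finset.mem_univ _, hf⟩)
    have heq := eval_minorPoly T f (fun i j => L0 i j + t * (x1 (i, j) - L0 i j))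
    rw [heq] at hne
    have hv := Matrix.eq_zero_of_mulVec_eq_zero hne (v := fun b : T => u b) (by
      funext a
      have h1 := hker (f a) (hS'S (e a).2)
      have h2 : ∑ j, (L0 (f a) j + t * (x1 (f a, j) - L0 (f a) j)) * u j =
          ∑ b : T, (L0 (f a) b + t * (x1 (f a, (b : J)) - L0 (f a) b)) * u b := by
        rw [Finset.sum_coe_sort T
          (fun j => (L0 (f a) j + t * (x1 (f a, j) - L0 (f a) j)) * u j)]
        symm
        apply Finset.sum_subset (Finset.subset_univ _)
        intro j _ hj
        have : u j = 0 := by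
          by_contra hh
          exact hj (Finset.mem_filter.mpr ⟨Finset.mem_univ _, hh⟩)
        rw [this, mul_zero]
      simp only [Matrix.mulVec, dotProduct, Matrix.of_apply, Pi.zero_apply]
      rw [← h2]
      exact h1)
    funext j
    by_contra hj
    have hjT : j ∈ T := Finset.mem_filter.mpr ⟨Finset.mem_univ _, hj⟩
    exact hj (congrFun hv ⟨j, hjT⟩)

end BandLim48
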