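import Pool.Agent.Lib.BandLim48.Decode
import Pool.Agent.Lib.BandLim48.GenMat

/-! The code of the boundary layers. -/

set_option autoImplicit false

open Topology Filter Set

namespace BandLim48

variable {k : ℕ} {X : Type*} [MetricSpace X] [CompactSpace X] [AddAction (Fin k → ℤ) X]

/-- The weight of the boundary layer. -/
noncomputable def chib {R : ℕ} (hne : (comp k R).Nonempty) (g : X → ℝ) (E4 : ℝ) (s : Fin k → ℤ)
    (x : X) : ℝ :=
  max 0 (min (1 - dep hne 1 g x (toR s)) (dep hne 1 g x (toR s) + E4))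

omit [MetricSpace X] [CompactSpace X] in
lemma chib_pos_iff {R : ℕ} (hne : (comp k R).Nonempty) (g : X → ℝ) (E4 : ℝ) (s : Fin k → ℤ)
    (x : X) : 0 < chib hne g E4 s x ↔
      -E4 < dep hne 1 g x (toR s) ∧ dep hne 1 g x (toR s) < 1 := by
  unfold chib
  rw [lt_max_iff, lt_min_iff]
  constructor
  · rintro (h | ⟨h1, h2⟩)
    · exact absurd h (lt_irrefl _)
    · constructor <;> linarith
  · rintro ⟨h1, h2⟩
    exact Or.inr ⟨by linarith, by linarith⟩

omit [MetricSpace X] [CompactSpace X] in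
lemma chib_nonneg {R : ℕ} (hne : (comp k R).Nonempty) (g : X → ℝ) (E4 : ℝ) (s : Fin k → ℤ)
    (x : X) : 0 ≤ chib hne g E4 s x := le_max_left _ _

omit [CompactSpace X] in
lemma continuous_chib {R : ℕ} (hne : (comp k R).Nonempty) {g : X → ℝ} (hg : Continuous g)
    (hact : ∀ n : Fin k → ℤ, Continuous (fun x : X => n +ᵥ x)) (E4 : ℝ) (s : Fin k → ℤ) :
    Continuous (chib hne g E4 s) := by
  unfold chib
  have h1 := continuous_dep_left (μ := 1) hne hg hact (toR s)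
  exact continuous_const.max ((continuous_const.sub h1).min (h1.add continuous_const))

lemma boundary_code (hact : ∀ n : Fin k → ℤ, Continuous (fun x : X => n +ᵥ x)) {R : ℕ}
    (hne : (comp k R).Nonempty) {g : X → ℝ} (hg : Continuous g) {ε : ℝ}
    {F : Type} [Fintype F] [DecidableEq F] (P : F → X → ℝ) (hP : ∀ c, Continuous (P c))
    (hPε : ∀ x y, (∀ c, P c x = P c y) → dist x y < ε)
    {ℓ E0 RA Q : ℕ} (hℓ : 1 ≤ ℓ) {E4 : ℝ} {a : (Fin k → ℤ) → ℂ} (ha : IsKer ℓ a)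
    (htail : tail a E0 ≤ 1 / 2) (hR : 2 * ℓ * (RA + Q) + E0 ≤ R)
    (hcount : ∀ (x : X) (A S : Finset (Fin k → ℤ)),
      (∀ s ∈ A, s ∈ ibox k RA ∧ -E4 < dep hne 1 g x (toR s) ∧ dep hne 1 g x (toR s) < 1) →
      (∀ v : Fin k → ℤ, v ∈ ibox k (RA + Q) →
        dep hne (1 / 2) g x (toR ((ℓ : ℤ) • v)) < -E0 → v ∈ S) →
      Fintype.card F * A.card ≤ S.card) :
    ∃ Y : C(X, ℂ), ∀ x y : X,
      (∀ (μ : ℝ) (n : Fin k → ℤ) (t : Fin k → ℝ),
        dep hne μ g (n +ᵥ x) t = dep hne μ g (n +ᵥ y) t) →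
      (∀ s : Fin k → ℤ, conv a Y (s +ᵥ x) = conv a Y (s +ᵥ y)) →
      ∀ n n0 : Fin k → ℤ, n0 ∈ ibox k RA → -E4 < dep hne 1 g (n +ᵥ x) (toR n0) →
        dep hne 1 g (n +ᵥ x) (toR n0) < 1 →
        dist (n0 +ᵥ (n +ᵥ x)) (n0 +ᵥ (n +ᵥ y)) < ε := by
  classical
  set I : Type := {v : Fin k → ℤ // v ∈ ibox k (RA + Q)} with hI
  set J : Type := {v : Fin k → ℤ // v ∈ ibox k RA} × F with hJ
  obtain ⟨L, -, hL⟩ := exists_generic_matrix (I := I) (J := J) (fun _ _ => 0) 1 one_pos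
  set Lx : (Fin k → ℤ) → J → ℝ := fun v j =>
    if h : v ∈ ibox k (RA + Q) then L ⟨v, h⟩ j else 0 with hLx
  set yv : (Fin k → ℤ) → X → ℝ := fun v x =>
    ∑ j : J, Lx v j * (chib hne g E4 j.1.1 x * P j.2 (j.1.1 +ᵥ x)) with hyv
  have hyv_cont : ∀ v, Continuous (yv v) := by
    intro v
    simp only [hyv]
    refine continuous_finsetSum _ (fun j _ => ?_)
    exact continuous_const.mul ((continuous_chib hne hg hact E4 _).mul
      ((hP _).comp (hact _)))
  set Yf : X → ℂ := fun z => ∑ v ∈ ibox k (RA + Q), (gat hne (1 / 2) g ℓ E0 v z : ℂ) *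
    (yv v (-((ℓ : ℤ) • v) +ᵥ z) : ℂ) with hYf
  have hYcont : Continuous Yf := by
    simp only [hYf]
    refine continuous_finsetSum _ (fun v _ => ?_)
    refine Continuous.mul ?_ ?_
    · exact Complex.continuous_ofReal.comp (continuous_gat hne (1 / 2) g ℓ E0 hg hact v)
    · exact Complex.continuous_ofReal.comp ((hyv_cont v).comp (hact _))
  set Y : C(X, ℂ) := ⟨Yf, hYcont⟩ with hY
  have hR' : 2 * ℓ * (RA + Q) ≤ R := by omega
  have hYne : ∀ z, Y z ≠ 0 → 0 < gtot hne (1 / 2) g ℓ E0 (RA + Q) z := by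
    intro z hz
    rw [gtot_pos_iff]
    by_contra hcon
    push Not at hcon
    apply hz
    show Yf z = 0
    simp only [hYf]
    refine Finset.sum_eq_zero (fun v hv => ?_)
    have h0 : gat hne (1 / 2) g ℓ E0 v z = 0 :=
      le_antisymm (hcon v hv) (gat_nonneg hne (1 / 2) g ℓ E0 v z)
    rw [h0]
    simp
  refine ⟨Y, ?_⟩
  intro x y hdep hconv n n0 hn0 h1 h2
  -- the codes agree along the orbits
  have hgam : ∀ (v n : Fin k → ℤ), gam hne (1 / 2) g ℓ E0 v (n +ᵥ x)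
      = gam hne (1 / 2) g ℓ E0 v (n +ᵥ y) := by
    intro v n
    unfold gam
    rw [hdep]
  have hgat : ∀ (v s : Fin k → ℤ), gat hne (1 / 2) g ℓ E0 v (s +ᵥ x)
      = gat hne (1 / 2) g ℓ E0 v (s +ᵥ y) := by
    intro v s
    unfold gat
    rw [vadd_vadd, vadd_vadd]
    exact hgam v _
  have hgtot : ∀ s : Fin k → ℤ, gtot hne (1 / 2) g ℓ E0 (RA + Q) (s +ᵥ x)
      = gtot hne (1 / 2) g ℓ E0 (RA + Q) (s +ᵥ y) := by
    intro s
    unfold gtot
    exact Finset.sum_congr rfl (fun v _ => hgat v s)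
  have hYeq := code_decode (Y := Y) ha hR htail (C := ‖Y‖) (fun z => Y.norm_coe_le_norm z)
    hYne hgtot hconv
  set x' := n +ᵥ x with hx'
  set y' := n +ᵥ y with hy'
  -- values of the code in the cell
  have hval : ∀ (z : X) (v : Fin k → ℤ), v ∈ ibox k (RA + Q) → 0 < gam hne (1 / 2) g ℓ E0 v z →
      Y (((ℓ : ℤ) • v) +ᵥ z) = (gam hne (1 / 2) g ℓ E0 v z : ℂ) * (yv v z : ℂ) := by
    intro z v hv hpos
    have e1 : gat hne (1 / 2) g ℓ E0 v (((ℓ : ℤ) • v) +ᵥ z) = gam hne (1 / 2) g ℓ E0 v z := by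
      unfold gat
      rw [neg_vadd_vadd]
    have h3 := sum_gat_mul (hne := hne) (μ := 1 / 2) (g := g) (E0 := E0) hℓ hR' hv
      (x := ((ℓ : ℤ) • v) +ᵥ z) (by rw [e1]; exact hpos)
      (fun w => (yv w (-((ℓ : ℤ) • w) +ᵥ (((ℓ : ℤ) • v) +ᵥ z)) : ℂ))
    have h4 : Y (((ℓ : ℤ) • v) +ᵥ z) = Yf (((ℓ : ℤ) • v) +ᵥ z) := rfl
    rw [h4]
    simp only [hYf]
    rw [h3, e1, neg_vadd_vadd]
  set S : Finset (Fin k → ℤ) := (ibox k (RA + Q)).filter
    (fun v => 0 < gam hne (1 / 2) g ℓ E0 v x') with hS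
  have hyeq : ∀ v ∈ S, yv v x' = yv v y' := by
    intro v hv
    obtain ⟨hvb, hpos⟩ := Finset.mem_filter.1 hv
    have hpos' : 0 < gam hne (1 / 2) g ℓ E0 v y' := by
      rw [hy', ← hgam]; exact hpos
    have h3 := hval x' v hvb hpos
    have h4 := hval y' v hvb hpos'
    have h5 : Y (((ℓ : ℤ) • v) +ᵥ x') = Y (((ℓ : ℤ) • v) +ᵥ y') := by
      rw [hx', hy', vadd_vadd, vadd_vadd]
      exact hYeq _
    rw [h3, h4] at h5
    have h6 : gam hne (1 / 2) g ℓ E0 v x' = gam hne (1 / 2) g ℓ E0 v y' := by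
      rw [hx', hy']; exact hgam v n
    rw [h6] at h5
    have h7 : (gam hne (1 / 2) g ℓ E0 v y' : ℂ) ≠ 0 := by
      exact_mod_cast hpos'.ne'
    exact_mod_cast mul_left_cancel₀ h7 h5
  set u : J → ℝ := fun j => chib hne g E4 j.1.1 x' * (P j.2 (j.1.1 +ᵥ x') - P j.2 (j.1.1 +ᵥ y'))
    with hu
  have hchi : ∀ s, chib hne g E4 s x' = chib hne g E4 s y' := by
    intro s
    unfold chib
    rw [hx', hy', hdep]
  set SI : Finset I := Finset.univ.filter (fun v : I => v.1 ∈ S) with hSI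
  have hSIcard : SI.card = S.card := by
    refine Finset.card_bij (fun v _ => v.1) (fun v hv => (Finset.mem_filter.1 hv).2)
      (fun v _ w _ h => Subtype.ext h) (fun v hv => ?_)
    exact ⟨⟨v, (Finset.mem_filter.1 hv).1⟩, Finset.mem_filter.2 ⟨Finset.mem_univ _, hv⟩, rfl⟩
  set A : Finset (Fin k → ℤ) := (ibox k RA).filter (fun s => 0 < chib hne g E4 s x') with hA
  have hcard := hcount x' A S (fun s hs => by
    obtain ⟨hs1, hs2⟩ := Finset.mem_filter.1 hs
    exact ⟨hs1, (chib_pos_iff hne g E4 s x').1 hs2⟩) (fun v hv1 hv2 =>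
      Finset.mem_filter.2 ⟨hv1, (gam_pos_iff hne (1 / 2) g ℓ E0).2 hv2⟩)
  have hsupp : (Finset.univ.filter (fun j : J => u j ≠ 0)).card ≤ Fintype.card F * A.card := by
    have h3 : (Finset.univ.filter (fun j : J => u j ≠ 0)).card
        ≤ (A ×ˢ (Finset.univ : Finset F)).card := by
      refine Finset.card_le_card_of_injOn (fun j => (j.1.1, j.2)) (fun j hj => ?_) ?_
      · have hj' := (Finset.mem_filter.1 hj).2
        refine Finset.mem_coe.2 (Finset.mem_product.2 ⟨Finset.mem_filter.2 ⟨j.1.2, ?_⟩,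
          Finset.mem_univ _⟩)
        exact lt_of_le_of_ne (chib_nonneg hne g E4 _ _) (Ne.symm (left_ne_zero_of_mul hj'))
      · intro j _ j' _ h
        simp only [Prod.mk.injEq] at h
        exact Prod.ext (Subtype.ext h.1) h.2
    refine h3.trans ?_
    rw [Finset.card_product, Finset.card_univ, mul_comm]
  have hu0 : u = 0 := by
    refine hL SI u (by rw [hSIcard]; exact hsupp.trans hcard) (fun v hv => ?_)
    have hvS : v.1 ∈ S := (Finset.mem_filter.1 hv).2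
    have h3 := hyeq v.1 hvS
    simp only [hyv] at h3
    have h4 : ∀ j, Lx v.1 j = L v j := by
      intro j
      simp only [hLx]
      rw [dif_pos v.2]
    simp only [h4] at h3
    rw [← sub_eq_zero, ← Finset.sum_sub_distrib] at h3
    rw [← h3]
    refine Finset.sum_congr rfl (fun j _ => ?_)
    simp only [hu]
    rw [hchi]
    ring
  apply hPε
  intro c
  have h3 := congrFun hu0 (⟨⟨n0, hn0⟩, c⟩ : J)
  simp only [hu, Pi.zero_apply] at h3
  rcases mul_eq_zero.1 h3 with h4 | h4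
  · have h5 := (chib_pos_iff hne g E4 n0 x').2 ⟨h1, h2⟩
    exact absurd h4 h5.ne'
  · exact sub_eq_zero.1 h4

end BandLim48
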