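import Pool.Agent.Lib.BandLim48.Tile

/-! Writing data on sample points of the cells. -/

set_option autoImplicit false

open Topology Filter Set

namespace BandLim48

variable {k : ℕ} {X : Type*} [AddAction (Fin k → ℤ) X]

/-- Convolution with a kernel along the orbits. -/
noncomputable def conv (a : (Fin k → ℤ) → ℂ) (A : X → ℂ) (x : X) : ℂ :=
  ∑' w : Fin k → ℤ, a w * A (w +ᵥ x)

/-- The tail of a kernel. -/
noncomputable def tail (a : (Fin k → ℤ) → ℂ) (E0 : ℕ) : ℝ :=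
  ∑' w : Fin k → ℤ, if (∃ i, (E0 : ℤ) < |w i|) then ‖a w‖ else 0

open Classical in
lemma exists_tail_lt {a : (Fin k → ℤ) → ℂ} (ha : Summable (fun w => ‖a w‖)) {η : ℝ}
    (hη : 0 < η) : ∃ E1 : ℕ, ∀ E0, E1 ≤ E0 → tail a E0 ≤ η := by
  obtain ⟨F, hF⟩ := (summable_iff_vanishing_norm.1 ha) η hη
  refine ⟨∑ w ∈ F, ∑ i, (|w i|).toNat, fun E0 hE0 => ?_⟩
  unfold tail
  refine Real.tsum_le_of_sum_le (fun w => by split_ifs <;> positivity) (fun s => ?_)
  set s' := s.filter (fun w => ∃ i, (E0 : ℤ) < |w i|) with hs'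
  rw [← Finset.sum_filter]
  have hdisj : Disjoint s' F := by
    rw [Finset.disjoint_left]
    intro w hw hwF
    obtain ⟨-, i, hi⟩ := Finset.mem_filter.1 hw
    have h1 : (|w i|).toNat ≤ ∑ i, (|w i|).toNat :=
      Finset.single_le_sum (f := fun i => (|w i|).toNat) (fun _ _ => Nat.zero_le _)
        (Finset.mem_univ i)
    have h2 : ∑ i, (|w i|).toNat ≤ ∑ w ∈ F, ∑ i, (|w i|).toNat :=
      Finset.single_le_sum (f := fun w => ∑ i, (|w i|).toNat) (fun _ _ => Nat.zero_le _) hwF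
    have h3 : |w i| = ((|w i|).toNat : ℤ) := (Int.toNat_of_nonneg (abs_nonneg _)).symm
    rw [h3] at hi
    have h4 : E0 < (|w i|).toNat := by exact_mod_cast hi
    omega
  have h5 := hF s' hdisj
  rw [Real.norm_of_nonneg (Finset.sum_nonneg (fun _ _ => norm_nonneg _))] at h5
  exact h5.le

variable [TopologicalSpace X] [CompactSpace X]

lemma continuous_conv (hact : ∀ n : Fin k → ℤ, Continuous (fun x : X => n +ᵥ x))
    {a : (Fin k → ℤ) → ℂ} (ha : Summable (fun w => ‖a w‖)) {A : X → ℂ} (hA : Continuous A) :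
    Continuous (conv a A) := by
  obtain ⟨C, hC⟩ := (isCompact_univ (X := X)).exists_bound_of_continuousOn hA.continuousOn
  unfold conv
  refine continuous_tsum (u := fun w => ‖a w‖ * C) (fun w => ?_) (ha.mul_right C) (fun w x => ?_)
  · exact continuous_const.mul (hA.comp (hact w))
  · rw [norm_mul]
    exact mul_le_mul_of_nonneg_left (hC _ (mem_univ _)) (norm_nonneg _)

omit [TopologicalSpace X] [CompactSpace X] in
lemma summable_conv {a : (Fin k → ℤ) → ℂ} (ha : Summable (fun w => ‖a w‖)) {A : X → ℂ} {C : ℝ}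
    (hC : ∀ x, ‖A x‖ ≤ C) (x : X) : Summable (fun w => a w * A (w +ᵥ x)) := by
  refine Summable.of_norm_bounded (g := fun w => ‖a w‖ * C) (ha.mul_right C) (fun w => ?_)
  rw [norm_mul]
  exact mul_le_mul_of_nonneg_left (hC _) (norm_nonneg _)

omit [TopologicalSpace X] [CompactSpace X] in
lemma conv_add {a : (Fin k → ℤ) → ℂ} (ha : Summable (fun w => ‖a w‖)) {A A' : X → ℂ} {C C' : ℝ}
    (hC : ∀ x, ‖A x‖ ≤ C) (hC' : ∀ x, ‖A' x‖ ≤ C') (x : X) :
    conv a (fun y => A y + A' y) x = conv a A x + conv a A' x := by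
  unfold conv
  rw [← (summable_conv ha hC x).tsum_add (summable_conv ha hC' x)]
  simp only [mul_add]

omit [TopologicalSpace X] [CompactSpace X] in
lemma norm_conv_le {a : (Fin k → ℤ) → ℂ} (ha : Summable (fun w => ‖a w‖)) {A : X → ℂ} {C : ℝ}
    (hC : ∀ x, ‖A x‖ ≤ C) (x : X) : ‖conv a A x‖ ≤ (∑' w, ‖a w‖) * C := by
  unfold conv
  rw [← tsum_mul_right]
  refine tsum_of_norm_bounded (ha.mul_right C).hasSum (fun w => ?_)
  rw [norm_mul]
  exact mul_le_mul_of_nonneg_left (hC _) (norm_nonneg _)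

section Samples

variable {R : ℕ} (hne : (comp k R).Nonempty) (μ : ℝ) (g : X → ℝ) (ℓ E0 : ℕ)

/-- Cutoff at the sample point `ℓ v` of the cell of the origin. -/
noncomputable def gam (v : Fin k → ℤ) (x : X) : ℝ :=
  max 0 (min 1 (- dep hne μ g x (toR ((ℓ : ℤ) • v)) - E0))

omit [TopologicalSpace X] [CompactSpace X] in
lemma gam_nonneg (v : Fin k → ℤ) (x : X) : 0 ≤ gam hne μ g ℓ E0 v x := le_max_left _ _

omit [TopologicalSpace X] [CompactSpace X] in
lemma gam_le_one (v : Fin k → ℤ) (x : X) : gam hne μ g ℓ E0 v x ≤ 1 :=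
  max_le zero_le_one (min_le_left _ _)

omit [TopologicalSpace X] [CompactSpace X] in
lemma gam_pos_iff {v : Fin k → ℤ} {x : X} :
    0 < gam hne μ g ℓ E0 v x ↔ dep hne μ g x (toR ((ℓ : ℤ) • v)) < -E0 := by
  unfold gam
  rw [lt_max_iff, lt_min_iff]
  constructor
  · rintro (h | ⟨-, h⟩)
    · exact absurd h (lt_irrefl _)
    · linarith
  · intro h
    exact Or.inr ⟨one_pos, by linarith⟩

omit [TopologicalSpace X] [CompactSpace X] in
lemma gam_eq_one {v : Fin k → ℤ} {x : X}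
    (h : dep hne μ g x (toR ((ℓ : ℤ) • v)) ≤ -(E0 + 1)) : gam hne μ g ℓ E0 v x = 1 := by
  unfold gam
  rw [min_eq_left (by linarith)]
  exact max_eq_right zero_le_one

omit [CompactSpace X] in
lemma continuous_gam (hg : Continuous g)
    (hact : ∀ n : Fin k → ℤ, Continuous (fun x : X => n +ᵥ x)) (v : Fin k → ℤ) :
    Continuous (gam hne μ g ℓ E0 v) := by
  unfold gam
  exact continuous_const.max (continuous_const.min
    (((continuous_dep_left hne hg hact _).neg).sub continuous_const))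

/-- The point `x` itself is the sample point `v` of its cell. -/
noncomputable def gat (v : Fin k → ℤ) (x : X) : ℝ := gam hne μ g ℓ E0 v (-((ℓ : ℤ) • v) +ᵥ x)

omit [CompactSpace X] in
lemma continuous_gat (hg : Continuous g)
    (hact : ∀ n : Fin k → ℤ, Continuous (fun x : X => n +ᵥ x)) (v : Fin k → ℤ) :
    Continuous (gat hne μ g ℓ E0 v) :=
  (continuous_gam hne μ g ℓ E0 hg hact v).comp (hact _)

omit [TopologicalSpace X] [CompactSpace X] in
lemma gat_unique {Rv : ℕ} (hℓ : 1 ≤ ℓ) (hR : 2 * ℓ * Rv ≤ R) {v v' : Fin k → ℤ}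
    (hv : v ∈ ibox k Rv) (hv' : v' ∈ ibox k Rv) {x : X} (h1 : 0 < gat hne μ g ℓ E0 v x)
    (h2 : 0 < gat hne μ g ℓ E0 v' x) : v = v' := by
  unfold gat at h1 h2
  rw [gam_pos_iff] at h1 h2
  have hE : (0 : ℝ) ≤ E0 := Nat.cast_nonneg _
  set y := -((ℓ : ℤ) • v) +ᵥ x with hy
  have hx : x = ((ℓ : ℤ) • v) +ᵥ y := by rw [hy, vadd_neg_vadd]
  have e1 : -((ℓ : ℤ) • v') +ᵥ x = ((ℓ : ℤ) • v - (ℓ : ℤ) • v') +ᵥ y := by
    rw [hx, vadd_vadd]
    congr 1
    abel
  rw [e1] at h2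
  have e2 : toR ((ℓ : ℤ) • v') = toR ((ℓ : ℤ) • v) - toR ((ℓ : ℤ) • v - (ℓ : ℤ) • v') := by
    rw [← toR_sub]; congr 1; abel
  rw [e2] at h2
  have hn : ((ℓ : ℤ) • v - (ℓ : ℤ) • v') ∈ ibox k R := by
    rw [mem_ibox] at hv hv' ⊢
    intro i
    have h3 := hv i
    have h4 := hv' i
    have h5 : ((2 * ℓ * Rv : ℕ) : ℤ) ≤ R := by exact_mod_cast hR
    push_cast at h5
    simp only [Pi.sub_apply, Pi.smul_apply, smul_eq_mul]
    rw [← mul_sub, abs_mul, abs_of_nonneg (by positivity : (0 : ℤ) ≤ ℓ)]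
    have h6 : |v i - v' i| ≤ 2 * Rv := (abs_sub _ _).trans (by linarith)
    have h7 : (ℓ : ℤ) * |v i - v' i| ≤ ℓ * (2 * Rv) := mul_le_mul_of_nonneg_left h6 (by positivity)
    linarith
  have h0 := unique_cell hne hn (h1.trans_le (by linarith)) (h2.trans_le (by linarith))
  rw [sub_eq_zero] at h0
  funext i
  have h8 := congrFun h0 i
  simp only [Pi.smul_apply, smul_eq_mul] at h8
  have hℓ' : (ℓ : ℤ) ≠ 0 := by exact_mod_cast (by omega : ℓ ≠ 0)
  exact mul_left_cancel₀ hℓ' h8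

omit [TopologicalSpace X] [CompactSpace X] in
lemma gat_sep {Rv : ℕ} (hR : 2 * ℓ * Rv + E0 ≤ R) {v v' : Fin k → ℤ}
    (hv : v ∈ ibox k Rv) (hv' : v' ∈ ibox k Rv) {x : X} {w : Fin k → ℤ}
    (h1 : 0 < gat hne μ g ℓ E0 v x) (h2 : 0 < gat hne μ g ℓ E0 v' (w +ᵥ x)) :
    (∃ u : Fin k → ℤ, w = (ℓ : ℤ) • u) ∨ ∃ i, (E0 : ℤ) < |w i| := by
  by_contra hcon
  push Not at hcon
  obtain ⟨hcon1, hcon2⟩ := hcon
  unfold gat at h1 h2
  rw [gam_pos_iff] at h1 h2
  have hE : (0 : ℝ) ≤ E0 := Nat.cast_nonneg _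
  set y := -((ℓ : ℤ) • v) +ᵥ x with hy
  have hx : x = ((ℓ : ℤ) • v) +ᵥ y := by rw [hy, vadd_neg_vadd]
  set n : Fin k → ℤ := (ℓ : ℤ) • v - (ℓ : ℤ) • v' + w with hn
  have e1 : -((ℓ : ℤ) • v') +ᵥ (w +ᵥ x) = n +ᵥ y := by
    rw [hx, vadd_vadd, vadd_vadd]
    congr 1
    rw [hn]; abel
  rw [e1] at h2
  have e2 : toR ((ℓ : ℤ) • v') = toR ((ℓ : ℤ) • v + w) - toR n := by
    rw [← toR_sub]; congr 1; rw [hn]; abel
  rw [e2] at h2
  have h3 : dep hne μ g y (toR ((ℓ : ℤ) • v + w)) < 0 := by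
    have h4 := dep_lipschitz (μ := μ) (g := g) (x := y) hne (toR ((ℓ : ℤ) • v))
      (toR ((ℓ : ℤ) • v + w))
    have h5 : ‖toR ((ℓ : ℤ) • v + w) - toR ((ℓ : ℤ) • v)‖ ≤ E0 := by
      rw [toR_add, add_sub_cancel_left, pi_norm_le_iff_of_nonneg hE]
      intro i
      simp only [toR, Real.norm_eq_abs]
      exact_mod_cast hcon2 i
    linarith
  have hnR : n ∈ ibox k R := by
    rw [mem_ibox] at hv hv' ⊢
    intro i
    have h3 := hv i
    have h4 := hv' i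
    have h5 : ((2 * ℓ * Rv + E0 : ℕ) : ℤ) ≤ R := by exact_mod_cast hR
    push_cast at h5
    simp only [hn, Pi.sub_apply, Pi.add_apply, Pi.smul_apply, smul_eq_mul]
    rw [← mul_sub]
    refine (abs_add_le _ _).trans ?_
    rw [abs_mul, abs_of_nonneg (by positivity : (0 : ℤ) ≤ ℓ)]
    have h6 : |v i - v' i| ≤ 2 * Rv := (abs_sub _ _).trans (by linarith)
    have h7 : (ℓ : ℤ) * |v i - v' i| ≤ ℓ * (2 * Rv) := mul_le_mul_of_nonneg_left h6 (by positivity)
    have h8 := hcon2 i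
    linarith
  have h0 := unique_cell hne hnR h3 (h2.trans_le (by linarith))
  apply hcon1 (v' - v)
  rw [hn] at h0
  have h9 : w = (ℓ : ℤ) • v' - (ℓ : ℤ) • v := by
    have h10 : w = ((ℓ : ℤ) • v - (ℓ : ℤ) • v' + w) + ((ℓ : ℤ) • v' - (ℓ : ℤ) • v) := by abel
    rw [h10, h0, zero_add]
  rw [h9, smul_sub]

end Samples

end BandLim48
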