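import Pool.Agent.Lib.BandLim48.Disc

/-! Removal of the interaction between different cells (Neumann series), and decoding. -/

set_option autoImplicit false

open Topology Filter Set

namespace BandLim48

variable {k : ℕ} {X : Type*} [AddAction (Fin k → ℤ) X]

section

variable {R : ℕ} (hne : (comp k R).Nonempty) (μ : ℝ) (g : X → ℝ) (ℓ E0 Rv : ℕ)

/-- The total cutoff. -/
noncomputable def gtot (x : X) : ℝ := ∑ v ∈ ibox k Rv, gat hne μ g ℓ E0 v x

lemma gat_nonneg (v : Fin k → ℤ) (x : X) : 0 ≤ gat hne μ g ℓ E0 v x := gam_nonneg _ _ _ _ _ _ _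

lemma gat_le_one (v : Fin k → ℤ) (x : X) : gat hne μ g ℓ E0 v x ≤ 1 := gam_le_one _ _ _ _ _ _ _

lemma gtot_nonneg (x : X) : 0 ≤ gtot hne μ g ℓ E0 Rv x :=
  Finset.sum_nonneg (fun v _ => gat_nonneg hne μ g ℓ E0 v x)

lemma gtot_pos_iff {x : X} : 0 < gtot hne μ g ℓ E0 Rv x ↔
    ∃ v ∈ ibox k Rv, 0 < gat hne μ g ℓ E0 v x := by
  unfold gtot
  constructor
  · intro h
    by_contra hcon
    push Not at hcon
    have : ∑ v ∈ ibox k Rv, gat hne μ g ℓ E0 v x ≤ 0 := Finset.sum_nonpos hcon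
    linarith
  · rintro ⟨v, hv, hpos⟩
    exact Finset.sum_pos' (fun v _ => gat_nonneg hne μ g ℓ E0 v x) ⟨v, hv, hpos⟩

variable {hne μ g ℓ E0 Rv}

lemma sum_gat_mul (hℓ : 1 ≤ ℓ) (hR : 2 * ℓ * Rv ≤ R) {v : Fin k → ℤ} (hv : v ∈ ibox k Rv)
    {x : X} (h : 0 < gat hne μ g ℓ E0 v x) (F : (Fin k → ℤ) → ℂ) :
    ∑ w ∈ ibox k Rv, (gat hne μ g ℓ E0 w x : ℂ) * F w = (gat hne μ g ℓ E0 v x : ℂ) * F v := by
  refine Finset.sum_eq_single v (fun w hw hwv => ?_) (fun h' => absurd hv h')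
  have h0 : gat hne μ g ℓ E0 w x = 0 := by
    by_contra hcon
    have hpos : 0 < gat hne μ g ℓ E0 w x := lt_of_le_of_ne (gat_nonneg hne μ g ℓ E0 w x)
      (Ne.symm hcon)
    exact hwv (gat_unique hne μ g ℓ E0 hℓ hR hw hv hpos h)
  rw [h0]
  simp

lemma gtot_eq (hℓ : 1 ≤ ℓ) (hR : 2 * ℓ * Rv ≤ R) {v : Fin k → ℤ} (hv : v ∈ ibox k Rv)
    {x : X} (h : 0 < gat hne μ g ℓ E0 v x) :
    gtot hne μ g ℓ E0 Rv x = gat hne μ g ℓ E0 v x := by
  unfold gtot
  refine Finset.sum_eq_single v (fun w hw hwv => ?_) (fun h' => absurd hv h')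
  by_contra hcon
  have hpos : 0 < gat hne μ g ℓ E0 w x := lt_of_le_of_ne (gat_nonneg hne μ g ℓ E0 w x)
    (Ne.symm hcon)
  exact hwv (gat_unique hne μ g ℓ E0 hℓ hR hw hv hpos h)

lemma gtot_le_one (hℓ : 1 ≤ ℓ) (hR : 2 * ℓ * Rv ≤ R) (x : X) :
    gtot hne μ g ℓ E0 Rv x ≤ 1 := by
  by_cases h : 0 < gtot hne μ g ℓ E0 Rv x
  · obtain ⟨v, hv, hpos⟩ := (gtot_pos_iff hne μ g ℓ E0 Rv).1 h
    rw [gtot_eq hℓ hR hv hpos]
    exact gat_le_one hne μ g ℓ E0 v x
  · linarith

/-- Different active points either differ by an element of `ℓ ℤ^k` or are far apart. -/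
lemma active_sep (hR : 2 * ℓ * Rv + E0 ≤ R) {x : X} {w : Fin k → ℤ}
    (h1 : 0 < gtot hne μ g ℓ E0 Rv x) (h2 : 0 < gtot hne μ g ℓ E0 Rv (w +ᵥ x)) :
    (∃ u : Fin k → ℤ, w = (ℓ : ℤ) • u) ∨ ∃ i, (E0 : ℤ) < |w i| := by
  obtain ⟨v, hv, hpos⟩ := (gtot_pos_iff hne μ g ℓ E0 Rv).1 h1
  obtain ⟨v', hv', hpos'⟩ := (gtot_pos_iff hne μ g ℓ E0 Rv).1 h2
  exact gat_sep hne μ g ℓ E0 hR hv hv' hpos hpos'

/-- The interaction sum is at most the tail of the kernel. -/
lemma active_sum {a : (Fin k → ℤ) → ℂ} (ha : IsKer ℓ a) (hR : 2 * ℓ * Rv + E0 ≤ R) {x : X}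
    (hx : 0 < gtot hne μ g ℓ E0 Rv x) (F : (Fin k → ℤ) → ℂ) {C : ℝ} (hC : ∀ w, ‖F w‖ ≤ C)
    (hF : ∀ w, F w ≠ 0 → 0 < gtot hne μ g ℓ E0 Rv (w +ᵥ x)) :
    ‖∑' w : Fin k → ℤ, a w * F w - F 0‖ ≤ tail a E0 * C := by
  classical
  have hC0 : 0 ≤ C := (norm_nonneg _).trans (hC 0)
  have hs : Summable (fun w => a w * F w) := by
    refine Summable.of_norm_bounded (g := fun w => ‖a w‖ * C) (ha.summable.mul_right C)
      (fun w => ?_)
    rw [norm_mul]
    exact mul_le_mul_of_nonneg_left (hC w) (norm_nonneg _)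
  have h1 : ∑' w : Fin k → ℤ, a w * F w - F 0
      = ∑' w : Fin k → ℤ, if w = 0 then 0 else a w * F w := by
    rw [hs.tsum_eq_add_tsum_ite 0, ha.zero, one_mul, add_sub_cancel_left]
  rw [h1]
  have hts : Summable (fun w : Fin k → ℤ => if (∃ i, (E0 : ℤ) < |w i|) then ‖a w‖ else 0) := by
    refine Summable.of_nonneg_of_le (fun w => by split_ifs <;> positivity) (fun w => ?_)
      ha.summable
    split_ifs
    · exact le_rfl
    · positivity
  unfold tail
  rw [← tsum_mul_right]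
  refine tsum_of_norm_bounded (hts.mul_right C).hasSum (fun w => ?_)
  by_cases hw : w = 0
  · rw [if_pos hw, norm_zero]
    split_ifs <;> positivity
  · rw [if_neg hw]
    by_cases hFw : F w = 0
    · rw [hFw, mul_zero, norm_zero]
      split_ifs <;> positivity
    · rcases active_sep hR hx (hF w hFw) with ⟨u, hu⟩ | hfar
      · have hu0 : u ≠ 0 := by
          rintro rfl
          exact hw (by rw [hu, smul_zero])
        rw [hu, ha.vanish u hu0, zero_mul, norm_zero]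
        split_ifs <;> positivity
      · rw [if_pos hfar, norm_mul]
        exact mul_le_mul_of_nonneg_left (hC w) (norm_nonneg _)

variable [TopologicalSpace X] [CompactSpace X]

omit [CompactSpace X] in
lemma continuous_gtot (hg : Continuous g)
    (hact : ∀ n : Fin k → ℤ, Continuous (fun x : X => n +ᵥ x)) :
    Continuous (gtot hne μ g ℓ E0 Rv) := by
  unfold gtot
  exact continuous_finsetSum _ (fun v _ => continuous_gat hne μ g ℓ E0 hg hact v)

/-- The correction: a function `A'` whose convolution with the kernel takes prescribed values at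
the points where the total cutoff is one. -/
lemma exists_correction (hg : Continuous g)
    (hact : ∀ n : Fin k → ℤ, Continuous (fun x : X => n +ᵥ x)) (hℓ : 1 ≤ ℓ)
    {a : (Fin k → ℤ) → ℂ} (ha : IsKer ℓ a) (hR : 2 * ℓ * Rv + E0 ≤ R)
    (htail : tail a E0 ≤ 1 / 2) (τ : C(X, ℂ)) {δ : ℝ} (hτ : ‖τ‖ ≤ δ) :
    ∃ A' : C(X, ℂ), ‖A'‖ ≤ 2 * δ ∧ ∀ x, gtot hne μ g ℓ E0 Rv x = 1 → conv a A' x = τ x := by
  classical
  have hR' : 2 * ℓ * Rv ≤ R := by omega
  set γ : X → ℝ := gtot hne μ g ℓ E0 Rv with hγ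
  have hγc : Continuous γ := continuous_gtot hg hact
  have hγ0 : ∀ x, 0 ≤ γ x := gtot_nonneg hne μ g ℓ E0 Rv
  have hγ1 : ∀ x, γ x ≤ 1 := gtot_le_one hℓ hR'
  have hδ : 0 ≤ δ := (norm_nonneg _).trans hτ
  -- the interaction
  set kf : (Fin k → ℤ) → X → ℂ := fun w x => if w = 0 then 0 else
    ((γ x : ℂ) * (γ (w +ᵥ x) : ℂ)) * a w with hkf
  have hkf_le : ∀ w x, ‖kf w x‖ ≤ ‖a w‖ := by
    intro w x
    simp only [hkf]
    split_ifs
    · rw [norm_zero]; positivity
    · rw [norm_mul, norm_mul, Complex.norm_real, Complex.norm_real, Real.norm_of_nonneg (hγ0 _),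
        Real.norm_of_nonneg (hγ0 _)]
      have : γ x * γ (w +ᵥ x) ≤ 1 := mul_le_one₀ (hγ1 _) (hγ0 _) (hγ1 _)
      exact mul_le_of_le_one_left (norm_nonneg _) this
  have hkf_cont : ∀ w, Continuous (kf w) := by
    intro w
    simp only [hkf]
    by_cases hw : w = 0
    · simp only [if_pos hw]; exact continuous_const
    · simp only [if_neg hw]
      refine Continuous.mul (Continuous.mul ?_ ?_) continuous_const
      · exact Complex.continuous_ofReal.comp hγc
      · exact Complex.continuous_ofReal.comp (hγc.comp (hact w))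
  have hsum_kf : ∀ (B : C(X, ℂ)) x, Summable (fun w => kf w x * B (w +ᵥ x)) := by
    intro B x
    refine Summable.of_norm_bounded (g := fun w => ‖a w‖ * ‖B‖) (ha.summable.mul_right _)
      (fun w => ?_)
    rw [norm_mul]
    exact mul_le_mul (hkf_le w x) (B.norm_coe_le_norm _) (norm_nonneg _) (norm_nonneg _)
  have hK_cont : ∀ B : C(X, ℂ), Continuous (fun x => ∑' w, kf w x * B (w +ᵥ x)) := by
    intro B
    refine continuous_tsum (u := fun w => ‖a w‖ * ‖B‖) (fun w => ?_) (ha.summable.mul_right _)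
      (fun w x => ?_)
    · exact (hkf_cont w).mul (B.continuous.comp (hact w))
    · rw [norm_mul]
      exact mul_le_mul (hkf_le w x) (B.norm_coe_le_norm _) (norm_nonneg _) (norm_nonneg _)
  have hK_bound : ∀ (B : C(X, ℂ)) x, ‖∑' w, kf w x * B (w +ᵥ x)‖ ≤ 1 / 2 * ‖B‖ := by
    intro B x
    by_cases hx : 0 < γ x
    · have h1 := active_sum (a := a) ha hR hx
        (fun w => (γ x : ℂ) * (γ (w +ᵥ x) : ℂ) * B (w +ᵥ x)) (C := ‖B‖) (fun w => by
          rw [norm_mul, norm_mul, Complex.norm_real, Complex.norm_real,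
            Real.norm_of_nonneg (hγ0 _), Real.norm_of_nonneg (hγ0 _)]
          have : γ x * γ (w +ᵥ x) ≤ 1 := mul_le_one₀ (hγ1 _) (hγ0 _) (hγ1 _)
          calc γ x * γ (w +ᵥ x) * ‖B (w +ᵥ x)‖ ≤ 1 * ‖B‖ :=
                mul_le_mul this (B.norm_coe_le_norm _) (norm_nonneg _) zero_le_one
            _ = ‖B‖ := one_mul _) (fun w hw => by
          have h2 : γ (w +ᵥ x) ≠ 0 := by
            intro h0
            apply hw
            simp [h0]
          exact lt_of_le_of_ne (hγ0 _) (Ne.symm h2))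
      have h3 : ∑' w, kf w x * B (w +ᵥ x)
          = ∑' w : Fin k → ℤ, a w * ((γ x : ℂ) * (γ (w +ᵥ x) : ℂ) * B (w +ᵥ x))
            - (γ x : ℂ) * (γ ((0 : Fin k → ℤ) +ᵥ x) : ℂ) * B ((0 : Fin k → ℤ) +ᵥ x) := by
        have hs : Summable (fun w : Fin k → ℤ =>
            a w * ((γ x : ℂ) * (γ (w +ᵥ x) : ℂ) * B (w +ᵥ x))) := by
          refine Summable.of_norm_bounded (g := fun w => ‖a w‖ * ‖B‖)
            (ha.summable.mul_right _) (fun w => ?_)
          rw [norm_mul, norm_mul, norm_mul, Complex.norm_real, Complex.norm_real,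
            Real.norm_of_nonneg (hγ0 _), Real.norm_of_nonneg (hγ0 _)]
          have : γ x * γ (w +ᵥ x) ≤ 1 := mul_le_one₀ (hγ1 _) (hγ0 _) (hγ1 _)
          refine mul_le_mul_of_nonneg_left ?_ (norm_nonneg _)
          calc γ x * γ (w +ᵥ x) * ‖B (w +ᵥ x)‖ ≤ 1 * ‖B‖ :=
                mul_le_mul this (B.norm_coe_le_norm _) (norm_nonneg _) zero_le_one
            _ = ‖B‖ := one_mul _
        rw [hs.tsum_eq_add_tsum_ite 0, ha.zero, one_mul, add_sub_cancel_left]
        refine tsum_congr (fun w => ?_)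
        simp only [hkf]
        split_ifs
        · ring
        · ring
      rw [h3]
      refine h1.trans ?_
      exact mul_le_mul_of_nonneg_right htail (norm_nonneg _)
    · have hx0 : γ x = 0 := le_antisymm (not_lt.1 hx) (hγ0 x)
      have h1 : ∀ w, kf w x * B (w +ᵥ x) = 0 := by
        intro w
        simp only [hkf, hx0]
        split_ifs <;> simp
      simp only [h1, tsum_zero, norm_zero]
      positivity
  -- the operator
  set Kl : C(X, ℂ) →ₗ[ℂ] C(X, ℂ) :=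
    { toFun := fun B => ⟨fun x => ∑' w, kf w x * B (w +ᵥ x), hK_cont B⟩
      map_add' := by
        intro B B'
        ext x
        simp only [ContinuousMap.coe_mk, ContinuousMap.add_apply]
        rw [← (hsum_kf B x).tsum_add (hsum_kf B' x)]
        exact tsum_congr (fun w => by ring)
      map_smul' := by
        intro c B
        ext x
        simp only [ContinuousMap.coe_mk, ContinuousMap.smul_apply, RingHom.id_apply, smul_eq_mul]
        rw [← tsum_mul_left]
        exact tsum_congr (fun w => by ring) } with hKl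
  have hKl_bound : ∀ B, ‖Kl B‖ ≤ 1 / 2 * ‖B‖ := by
    intro B
    rw [ContinuousMap.norm_le _ (by positivity)]
    intro x
    exact hK_bound B x
  set K : C(X, ℂ) →L[ℂ] C(X, ℂ) := Kl.mkContinuous (1 / 2) hKl_bound with hK
  have hKnorm : ‖-K‖ < 1 := by
    rw [norm_neg]
    exact (LinearMap.mkContinuous_norm_le _ (by norm_num) _).trans_lt (by norm_num)
  set U := Units.oneSub (-K) hKnorm with hU
  -- the right-hand side
  set B : C(X, ℂ) := (↑(U⁻¹) : C(X, ℂ) →L[ℂ] C(X, ℂ)) τ with hB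
  have hBeq : B + K B = τ := by
    have h1 : ((U : C(X, ℂ) →L[ℂ] C(X, ℂ)) * (↑(U⁻¹) : C(X, ℂ) →L[ℂ] C(X, ℂ))) τ = τ := by
      rw [Units.mul_inv]
      rfl
    have h2 : (U : C(X, ℂ) →L[ℂ] C(X, ℂ)) = 1 - (-K) := rfl
    rw [h2] at h1
    have h3 : ((1 - (-K)) * (↑(U⁻¹) : C(X, ℂ) →L[ℂ] C(X, ℂ))) τ = B + K B := by
      simp only [sub_neg_eq_add]
      rfl
    rw [h3] at h1
    exact h1
  have hBnorm : ‖B‖ ≤ 2 * δ := by
    have h1 : ‖B‖ ≤ ‖τ‖ + 1 / 2 * ‖B‖ := by
      have h2 : B = τ - K B := by rw [← hBeq]; abel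
      calc ‖B‖ = ‖τ - K B‖ := by rw [← h2]
        _ ≤ ‖τ‖ + ‖K B‖ := norm_sub_le _ _
        _ ≤ ‖τ‖ + 1 / 2 * ‖B‖ := by
            gcongr
            exact hKl_bound B
    linarith
  refine ⟨⟨fun x => (γ x : ℂ) * B x, (Complex.continuous_ofReal.comp hγc).mul B.continuous⟩,
    ?_, ?_⟩
  · rw [ContinuousMap.norm_le _ (by positivity)]
    intro x
    simp only [ContinuousMap.coe_mk]
    rw [norm_mul, Complex.norm_real, Real.norm_of_nonneg (hγ0 _)]
    calc γ x * ‖B x‖ ≤ 1 * ‖B‖ :=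
          mul_le_mul (hγ1 _) (B.norm_coe_le_norm _) (norm_nonneg _) zero_le_one
      _ ≤ 2 * δ := by rw [one_mul]; exact hBnorm
  · intro x hx
    have hx' : γ x = 1 := hx
    unfold conv
    simp only [ContinuousMap.coe_mk]
    have hs : Summable (fun w : Fin k → ℤ => a w * ((γ (w +ᵥ x) : ℂ) * B (w +ᵥ x))) := by
      refine Summable.of_norm_bounded (g := fun w => ‖a w‖ * ‖B‖)
        (ha.summable.mul_right _) (fun w => ?_)
      rw [norm_mul, norm_mul, Complex.norm_real, Real.norm_of_nonneg (hγ0 _)]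
      refine mul_le_mul_of_nonneg_left ?_ (norm_nonneg _)
      calc γ (w +ᵥ x) * ‖B (w +ᵥ x)‖ ≤ 1 * ‖B‖ :=
            mul_le_mul (hγ1 _) (B.norm_coe_le_norm _) (norm_nonneg _) zero_le_one
        _ = ‖B‖ := one_mul _
    rw [hs.tsum_eq_add_tsum_ite 0, ha.zero, one_mul, zero_vadd, hx']
    have h1 : (B + K B) x = τ x := by rw [hBeq]
    rw [← h1]
    have h2 : (K B) x = ∑' w, kf w x * B (w +ᵥ x) := rfl
    rw [ContinuousMap.add_apply, h2]
    simp only [Complex.ofReal_one, one_mul]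
    congr 1
    refine tsum_congr (fun w => ?_)
    simp only [hkf]
    split_ifs
    · ring
    · rw [hx']
      simp only [Complex.ofReal_one, one_mul]
      ring

end

end BandLim48
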