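import Pool.Agent.Lib.BandLim48.Tile

/-! The two counting lemmas. -/

set_option autoImplicit false

open Topology Filter Set MeasureTheory

namespace BandLim48

variable {k : ℕ} {X : Type*} [AddAction (Fin k → ℤ) X]

/-- The half-open cube of side `b` with lowest corner `b q`. -/
def hcube (b : ℕ) (q : Fin k → ℤ) : Set (Fin k → ℝ) :=
  Set.pi univ (fun i => Set.Ico ((b : ℝ) * q i) ((b : ℝ) * q i + b))

lemma mem_hcube {b : ℕ} {q : Fin k → ℤ} {t : Fin k → ℝ} :
    t ∈ hcube b q ↔ ∀ i, (b : ℝ) * q i ≤ t i ∧ t i < (b : ℝ) * q i + b := by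
  simp [hcube, Set.mem_pi]

lemma volume_hcube (b : ℕ) (q : Fin k → ℤ) : volume (hcube b q) = (b : ENNReal) ^ k := by
  unfold hcube
  rw [Real.volume_pi_Ico]
  simp

lemma measurableSet_hcube (b : ℕ) (q : Fin k → ℤ) : MeasurableSet (hcube b q) :=
  MeasurableSet.univ_pi (fun _ => measurableSet_Ico)

/-- The index of the cube containing `t`. -/
noncomputable def cidx (b : ℕ) (t : Fin k → ℝ) : Fin k → ℤ := fun i => ⌊t i / b⌋

lemma mem_hcube_cidx {b : ℕ} (hb : 1 ≤ b) (t : Fin k → ℝ) : t ∈ hcube b (cidx b t) := by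
  rw [mem_hcube]
  intro i
  have hb' : (0 : ℝ) < b := by exact_mod_cast hb
  have h1 := Int.floor_le (t i / b)
  have h2 := Int.lt_floor_add_one (t i / b)
  rw [le_div_iff₀ hb'] at h1
  rw [div_lt_iff₀ hb'] at h2
  unfold cidx
  constructor
  · linarith
  · nlinarith

lemma hcube_disjoint {b : ℕ} {q q' : Fin k → ℤ} (h : q ≠ q') :
    Disjoint (hcube b q) (hcube b q') := by
  rw [Set.disjoint_left]
  intro t h1 h2
  apply h
  rw [mem_hcube] at h1 h2
  funext i
  by_contra hne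
  rcases lt_or_gt_of_ne hne with hlt | hlt
  · have h3 : (q i : ℝ) + 1 ≤ q' i := by exact_mod_cast hlt
    have h4 : (b : ℝ) * (q i + 1) ≤ b * q' i := mul_le_mul_of_nonneg_left h3 (Nat.cast_nonneg b)
    linarith [(h1 i).2, (h2 i).1]
  · have h3 : (q' i : ℝ) + 1 ≤ q i := by exact_mod_cast hlt
    have h4 : (b : ℝ) * (q' i + 1) ≤ b * q i := mul_le_mul_of_nonneg_left h3 (Nat.cast_nonneg b)
    linarith [(h2 i).2, (h1 i).1]

lemma norm_sub_cidx {b : ℕ} (hb : 1 ≤ b) (t : Fin k → ℝ) :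
    ‖toR ((b : ℤ) • cidx b t) - t‖ ≤ b := by
  rw [pi_norm_le_iff_of_nonneg (Nat.cast_nonneg b)]
  intro i
  have h := (mem_hcube.1 (mem_hcube_cidx hb t)) i
  simp only [toR, Pi.sub_apply, Pi.smul_apply, smul_eq_mul, Int.cast_mul, Int.cast_natCast,
    Real.norm_eq_abs]
  rw [abs_le]
  constructor <;> linarith [h.1, h.2]

/-- In a fat cell the number of sample points is at least (almost) the number of blocks. -/
lemma count_main {R : ℕ} (hne : (comp k R).Nonempty) {g : X → ℝ} (x : X) {b ℓ : ℕ}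
    (hb : 1 ≤ b) (hℓ : 1 ≤ ℓ) {Rb κ E' E2 : ℝ} (hκ0 : 0 < κ) (hκ1 : κ ≤ 1)
    (t0 : Fin k → ℝ) (ht0 : ‖t0‖ ≤ Rb) (hfat : dep hne 1 g x t0 ≤ -E2)
    (hE : E' + ℓ ≤ (1 - κ) * E2) (Bl Sa : Finset (Fin k → ℤ))
    (hBl : ∀ q ∈ Bl, ∀ t ∈ hcube b q, ‖t‖ ≤ Rb ∧ dep hne 1 g x t ≤ 0)
    (hSa : ∀ v : Fin k → ℤ, ‖toR ((ℓ : ℤ) • v)‖ ≤ Rb + ℓ →
      dep hne 1 g x (toR ((ℓ : ℤ) • v)) ≤ -E' → v ∈ Sa) :
    κ ^ k * (Bl.card * (b : ℝ) ^ k) ≤ Sa.card * (ℓ : ℝ) ^ k := by
  classical
  set U : Set (Fin k → ℝ) := ⋃ q ∈ Bl, hcube b q with hU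
  have hvolU : volume U = Bl.card * (b : ENNReal) ^ k := by
    rw [hU, measure_biUnion_finset (fun q _ q' _ h => hcube_disjoint h)
      (fun q _ => measurableSet_hcube b q)]
    simp [volume_hcube]
  have himg : (AffineMap.homothety t0 κ) '' U ⊆ ⋃ v ∈ Sa, hcube ℓ v := by
    rintro _ ⟨t, ht, rfl⟩
    obtain ⟨q, hq, htq⟩ := mem_iUnion₂.1 ht
    obtain ⟨hn, hd⟩ := hBl q hq t htq
    set t' : Fin k → ℝ := AffineMap.homothety t0 κ t with ht'
    have ht'' : t' = (1 - κ) • t0 + κ • t := by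
      rw [ht', AffineMap.homothety_apply]
      simp only [vsub_eq_sub, vadd_eq_add]
      ext i
      simp
      ring
    have hd' : dep hne 1 g x t' ≤ -(E' + ℓ) := by
      rw [ht'']
      refine (dep_convex hne t0 t hκ0.le hκ1).trans ?_
      have h1 : (1 - κ) * dep hne 1 g x t0 ≤ (1 - κ) * (-E2) :=
        mul_le_mul_of_nonneg_left hfat (by linarith)
      have h2 : κ * dep hne 1 g x t ≤ κ * 0 := mul_le_mul_of_nonneg_left hd hκ0.le
      linarith
    have hn' : ‖t'‖ ≤ Rb := by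
      rw [ht'']
      refine (norm_add_le _ _).trans ?_
      rw [norm_smul, norm_smul, Real.norm_eq_abs, Real.norm_eq_abs, abs_of_nonneg hκ0.le,
        abs_of_nonneg (by linarith : (0 : ℝ) ≤ 1 - κ)]
      have h1 : (1 - κ) * ‖t0‖ ≤ (1 - κ) * Rb := mul_le_mul_of_nonneg_left ht0 (by linarith)
      have h2 : κ * ‖t‖ ≤ κ * Rb := mul_le_mul_of_nonneg_left hn hκ0.le
      linarith
    refine mem_biUnion (x := cidx ℓ t') ?_ (mem_hcube_cidx hℓ t')
    have h3 := norm_sub_cidx hℓ t'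
    refine hSa _ ?_ ?_
    · have h4 : toR ((ℓ : ℤ) • cidx ℓ t') = (toR ((ℓ : ℤ) • cidx ℓ t') - t') + t' := by abel
      rw [h4]
      refine (norm_add_le _ _).trans ?_
      linarith
    · have h4 := dep_lipschitz (μ := 1) (g := g) (x := x) hne t' (toR ((ℓ : ℤ) • cidx ℓ t'))
      linarith
  have hvol2 : volume (⋃ v ∈ Sa, hcube ℓ v) ≤ Sa.card * (ℓ : ENNReal) ^ k := by
    refine (measure_biUnion_finset_le Sa _).trans ?_
    simp [volume_hcube]
  have hvol3 : volume ((AffineMap.homothety t0 κ) '' U)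
      = ENNReal.ofReal (κ ^ k) * (Bl.card * (b : ENNReal) ^ k) := by
    rw [Measure.addHaar_image_homothety, hvolU, Module.finrank_fin_fun,
      abs_of_nonneg (by positivity)]
  have hfin := (measure_mono himg).trans hvol2
  rw [hvol3] at hfin
  have h5 : ENNReal.ofReal (κ ^ k) * (Bl.card * (b : ENNReal) ^ k)
      = ENNReal.ofReal (κ ^ k * (Bl.card * (b : ℝ) ^ k)) := by
    rw [ENNReal.ofReal_mul (by positivity), ENNReal.ofReal_mul (by positivity),
      ENNReal.ofReal_pow (by positivity) k (p := (b : ℝ))]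
    simp
  have h6 : (Sa.card : ENNReal) * (ℓ : ENNReal) ^ k
      = ENNReal.ofReal (Sa.card * (ℓ : ℝ) ^ k) := by
    rw [ENNReal.ofReal_mul (by positivity), ENNReal.ofReal_pow (by positivity)]
    simp
  rw [h5, h6, ENNReal.ofReal_le_ofReal_iff (by positivity)] at hfin
  exact hfin

/-- The sign attached to a Boolean. -/
def sg (b : Bool) : ℤ := if b then 1 else -1

lemma exists_exit_direction (hk : 1 ≤ k) {R : ℕ} (hne : (comp k R).Nonempty) {g : X → ℝ} (x : X)
    {E4 : ℝ} {E3 : ℕ} (hE3 : k * (1 + E4) ≤ E3) (s : Fin k → ℤ)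
    (hs : -E4 < dep hne 1 g x (toR s)) :
    ∃ p : Fin k × Bool, ∀ j : ℕ,
      dep hne 1 g x (toR (s + Pi.single p.1 ((j : ℤ) * sg p.2))) < 1 → j < E3 := by
  obtain ⟨v, hv, hterm⟩ := exists_term_eq hne 1 g x (toR s)
  obtain ⟨i0, -, hi0⟩ := Finset.exists_max_image (Finset.univ : Finset (Fin k))
    (fun i => |(v i : ℝ)|) ⟨⟨0, hk⟩, Finset.mem_univ _⟩
  have hl := l1v_pos (mem_comp.1 hv).1
  have h2 : l1v v ≤ k * |(v i0 : ℝ)| := l1v_le (fun j => hi0 j (Finset.mem_univ j))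
  have hk' : (0 : ℝ) < k := by exact_mod_cast hk
  refine ⟨(i0, decide (0 ≤ v i0)), fun j hj => ?_⟩
  have hsg : (v i0 : ℝ) * (sg (decide (0 ≤ v i0)) : ℤ) = |(v i0 : ℝ)| := by
    unfold sg
    by_cases h : 0 ≤ v i0
    · have h' : (0 : ℝ) ≤ v i0 := by exact_mod_cast h
      simp [h, abs_of_nonneg h']
    · have h' : (v i0 : ℝ) ≤ 0 := by exact_mod_cast (not_le.1 h).le
      simp [h, abs_of_nonpos h']
  have h3 := (term_le_dep (μ := 1) (g := g) (x := x) hne hv
    (t := toR (s + Pi.single i0 ((j : ℤ) * sg (decide (0 ≤ v i0)))))).trans_lt hj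
  have h4 : dotv (toR (s + Pi.single i0 ((j : ℤ) * sg (decide (0 ≤ v i0))))) v
      = dotv (toR s) v + j * |(v i0 : ℝ)| := by
    rw [toR_add, dotv_add]
    congr 1
    unfold dotv toR
    rw [Finset.sum_eq_single i0]
    · rw [Pi.single_eq_same, ← hsg]
      push_cast
      ring
    · intro i _ hi
      rw [Pi.single_eq_of_ne hi]
      simp
    · intro h; exact absurd (Finset.mem_univ _) h
  rw [hterm] at hs
  unfold term at hs h3
  rw [h4, div_lt_iff₀ hl] at h3
  rw [lt_div_iff₀ hl] at hs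
  have h5 : (j : ℝ) * |(v i0 : ℝ)| < (1 + E4) * l1v v := by linarith
  have h6 : (j : ℝ) * (l1v v / k) ≤ j * |(v i0 : ℝ)| := by
    apply mul_le_mul_of_nonneg_left _ (Nat.cast_nonneg j)
    rw [div_le_iff₀ hk']
    linarith
  have h7 : (j : ℝ) * (l1v v / k) < (1 + E4) * l1v v := h6.trans_lt h5
  have h8 : (j : ℝ) < k * (1 + E4) := by
    have h9 : (j : ℝ) * (l1v v / k) = (j / k) * l1v v := by ring
    rw [h9] at h7
    have h10 := lt_of_mul_lt_mul_right h7 hl.le
    rw [div_lt_iff₀ hk'] at h10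
    linarith
  exact_mod_cast h8.trans_le hE3

/-- Boundary layers are thin. -/
lemma count_layer (hk : 1 ≤ k) {R : ℕ} (hne : (comp k R).Nonempty) {g : X → ℝ} (x : X)
    {E4 : ℝ} {E3 Q RA : ℕ} (hE3 : k * (1 + E4) ≤ E3) (A U' : Finset (Fin k → ℤ))
    (hA : ∀ s ∈ A, s ∈ ibox k RA ∧ -E4 < dep hne 1 g x (toR s) ∧ dep hne 1 g x (toR s) < 1)
    (hU' : ∀ s : Fin k → ℤ, s ∈ ibox k (RA + Q) → dep hne 1 g x (toR s) < 1 + Q → s ∈ U') :
    A.card * Q ≤ 2 * k * E3 * U'.card := by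
  classical
  -- split according to the exit direction
  have hnek : Nonempty (Fin k × Bool) := ⟨(⟨0, hk⟩, true)⟩
  choose! dir hdir using fun (s : Fin k → ℤ) (hs : s ∈ A) =>
    exists_exit_direction hk hne x hE3 s (hA s hs).2.1
  have hone : ∀ p : Fin k × Bool, (A.filter (fun s => dir s = p)).card * Q ≤ E3 * U'.card := by
    intro p
    set B := A.filter (fun s => dir s = p) with hB
    set e : ℕ → (Fin k → ℤ) := fun j => Pi.single p.1 ((j : ℤ) * sg p.2) with he
    have hsg : sg p.2 = 1 ∨ sg p.2 = -1 := by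
      unfold sg
      cases p.2 <;> simp
    have he_inj : ∀ j j' : ℕ, e j = e j' → j = j' := by
      intro j j' h
      have h1 := congrFun h p.1
      simp only [he, Pi.single_eq_same] at h1
      rcases hsg with h2 | h2 <;> rw [h2] at h1 <;> omega
    have he_add : ∀ j j' : ℕ, e (j + j') = e j + e j' := by
      intro j j'
      simp only [he]
      rw [← Pi.single_add]
      congr 1
      push_cast
      ring
    set P : Finset ((Fin k → ℤ) × ℕ) := B ×ˢ Finset.Icc 1 Q with hP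
    have hPcard : P.card = B.card * Q := by simp [hP]
    have h1 : P.card ≤ E3 * (P.image (fun p => p.1 + e p.2)).card := by
      apply Finset.card_le_mul_card_image
      intro u hu
      set F := P.filter (fun p => p.1 + e p.2 = u) with hF
      -- F injects into ℕ, in an interval of length E3
      have hinj : Set.InjOn (fun p : (Fin k → ℤ) × ℕ => p.2) (F : Set ((Fin k → ℤ) × ℕ)) := by
        intro p hp p' hp' hpp'
        have hp2 := (Finset.mem_filter.1 hp).2
        have hp2' := (Finset.mem_filter.1 hp').2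
        simp only at hpp'
        rw [hpp'] at hp2
        have : p.1 = p'.1 := by
          have h3 := hp2.trans hp2'.symm
          exact add_right_cancel h3
        exact Prod.ext this hpp'
      rw [← Finset.card_image_of_injOn hinj]
      rcases (F.image (fun p => p.2)).eq_empty_or_nonempty with hem | hnem
      · rw [hem]; simp
      · set J := F.image (fun p => p.2) with hJ
        set j0 := J.min' hnem with hj0
        have hj0J : j0 ∈ J := J.min'_mem hnem
        have hsub : J ⊆ Finset.Ico j0 (j0 + E3) := by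
          intro j hj
          have hj0j : j0 ≤ j := J.min'_le j hj
          rw [Finset.mem_Ico]
          refine ⟨hj0j, ?_⟩
          obtain ⟨⟨s, j1⟩, hs, rfl⟩ := Finset.mem_image.1 hj
          obtain ⟨⟨s', j1'⟩, hs', hj1'⟩ := Finset.mem_image.1 hj0J
          simp only at hj1' hj0j ⊢
          obtain ⟨hsP, hsu⟩ := Finset.mem_filter.1 hs
          obtain ⟨hsP', hsu'⟩ := Finset.mem_filter.1 hs'
          simp only at hsu hsu'
          have hsB : s ∈ B := (Finset.mem_product.1 hsP).1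
          have hsB' : s' ∈ B := (Finset.mem_product.1 hsP').1
          obtain ⟨d, hd⟩ := Nat.exists_eq_add_of_le hj0j
          have h3 : s' = s + e d := by
            have h4 : s + e (j0 + d) = s' + e j0 := by
              rw [← hd, hsu, ← hsu', hj1']
            rw [he_add, add_comm (e j0) (e d), ← add_assoc] at h4
            exact (add_right_cancel h4).symm
          have hdirs : dir s = p := (Finset.mem_filter.1 hsB).2
          have hsA : s ∈ A := (Finset.mem_filter.1 hsB).1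
          have hsA' : s' ∈ A := (Finset.mem_filter.1 hsB').1
          have h5 := hdir s hsA d
          rw [hdirs] at h5
          have h6 : dep hne 1 g x (toR (s + Pi.single p.1 ((d : ℤ) * sg p.2))) < 1 := by
            have : s + Pi.single p.1 ((d : ℤ) * sg p.2) = s' := h3.symm
            rw [this]
            exact (hA s' hsA').2.2
          have := h5 h6
          omega
        refine (Finset.card_le_card hsub).trans ?_
        simp
    have h2 : P.image (fun p => p.1 + e p.2) ⊆ U' := by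
      intro u hu
      obtain ⟨⟨s, j⟩, hsj, rfl⟩ := Finset.mem_image.1 hu
      obtain ⟨hsB, hj⟩ := Finset.mem_product.1 hsj
      simp only at hsB hj ⊢
      rw [Finset.mem_Icc] at hj
      have hsA : s ∈ A := (Finset.mem_filter.1 hsB).1
      obtain ⟨hs1, hs2, hs3⟩ := hA s hsA
      have habs : ∀ i, |e j i| ≤ (j : ℤ) := by
        intro i
        by_cases hi : i = p.1
        · subst hi
          simp only [he, Pi.single_eq_same]
          rw [abs_mul]
          rcases hsg with h | h <;> rw [h] <;> simp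
        · simp only [he]
          rw [Pi.single_eq_of_ne hi]
          simp
      apply hU'
      · rw [mem_ibox] at hs1 ⊢
        intro i
        have h4 := hs1 i
        have h5 := habs i
        have h6 : (j : ℤ) ≤ Q := by exact_mod_cast hj.2
        calc |(s + e j) i| ≤ |s i| + |e j i| := abs_add_le _ _
          _ ≤ ((RA + Q : ℕ) : ℤ) := by push_cast; linarith
      · have h4 := dep_lipschitz (μ := 1) (g := g) (x := x) hne (toR s) (toR (s + e j))
        have h5 : ‖toR (s + e j) - toR s‖ ≤ j := by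
          rw [toR_add, add_sub_cancel_left, pi_norm_le_iff_of_nonneg (Nat.cast_nonneg j)]
          intro i
          simp only [toR, Real.norm_eq_abs]
          exact_mod_cast habs i
        have h6 : (j : ℝ) ≤ Q := by exact_mod_cast hj.2
        linarith
    calc B.card * Q = P.card := hPcard.symm
      _ ≤ E3 * (P.image (fun p => p.1 + e p.2)).card := h1
      _ ≤ E3 * U'.card := Nat.mul_le_mul_left _ (Finset.card_le_card h2)
  have hsum : A.card = ∑ p : Fin k × Bool, (A.filter (fun s => dir s = p)).card :=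
    Finset.card_eq_sum_card_fiberwise (fun s _ => Finset.mem_coe.2 (Finset.mem_univ _))
  rw [hsum, Finset.sum_mul]
  calc ∑ p : Fin k × Bool, (A.filter (fun s => dir s = p)).card * Q
      ≤ ∑ _p : Fin k × Bool, E3 * U'.card := Finset.sum_le_sum (fun p _ => hone p)
    _ = 2 * k * E3 * U'.card := by
        simp [Finset.card_univ, Fintype.card_prod]
        ring

/-- The cell with halved weights contains many sample points. -/
lemma count_store (hk : 1 ≤ k) {R : ℕ} (hne : (comp k R).Nonempty) {g : X → ℝ} (x : X)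
    {N Γ : ℝ} {E0 : ℝ} {Q RA ℓ : ℕ} (hℓ : 1 ≤ ℓ) (hRA : 2 ≤ RA) (hN : 0 ≤ N) (hΓ0 : 0 ≤ Γ)
    (hNbig : (1 + (Q : ℝ)) / 2 - N / (4 * k) + ℓ < -E0)
    (hv : ∀ v ∈ comp k R, (∃ i, N ≤ |(v i : ℝ)|) ∨ g x + Γ ≤ g (v +ᵥ x))
    (hΓ : ((RA : ℝ) + Q) / 2 - Γ / (4 * k * R) ≤ (1 + (Q : ℝ)) / 2 - N / (4 * k))
    (U' S' : Finset (Fin k → ℤ))
    (hU' : ∀ s ∈ U', s ∈ ibox k (RA + Q) ∧ dep hne 1 g x (toR s) < 1 + Q)
    (hS' : ∀ v : Fin k → ℤ, v ∈ ibox k (RA + Q) →
      dep hne (1 / 2) g x (toR ((ℓ : ℤ) • v)) < -E0 → v ∈ S') :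
    U'.card ≤ (2 * ℓ) ^ k * S'.card := by
  classical
  have hk' : (0 : ℝ) < k := by exact_mod_cast hk
  set f : (Fin k → ℤ) → (Fin k → ℤ) := fun s i => s i / (2 * ℓ : ℤ) with hf
  have hℓ' : (0 : ℤ) < 2 * ℓ := by positivity
  have hfl : ∀ s i, (2 * ℓ : ℤ) * f s i ≤ s i ∧ s i < (2 * ℓ : ℤ) * f s i + 2 * ℓ := by
    intro s i
    simp only [hf]
    have h1 := Int.emod_add_mul_ediv (s i) (2 * ℓ)
    have h2 := Int.emod_nonneg (s i) hℓ'.ne'
    have h3 := Int.emod_lt_of_pos (s i) hℓ'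
    constructor <;> linarith
  have h1 : U'.card ≤ (2 * ℓ) ^ k * (U'.image f).card := by
    apply Finset.card_le_mul_card_image
    intro v hv
    have hsub : U'.filter (fun s => f s = v) ⊆
        Fintype.piFinset (fun i => Finset.Ico ((2 * ℓ : ℤ) * v i) ((2 * ℓ : ℤ) * v i + 2 * ℓ)) := by
      intro s hs
      obtain ⟨-, hsv⟩ := Finset.mem_filter.1 hs
      rw [Fintype.mem_piFinset]
      intro i
      rw [Finset.mem_Ico, ← hsv]
      exact hfl s i
    refine (Finset.card_le_card hsub).trans ?_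
    rw [Fintype.card_piFinset]
    simp only [Int.card_Ico, add_sub_cancel_left, Finset.prod_const, Finset.card_univ,
      Fintype.card_fin]
    apply le_of_eq
    congr 1
  refine h1.trans (Nat.mul_le_mul_left _ (Finset.card_le_card ?_))
  intro v hvim
  obtain ⟨s, hs, rfl⟩ := Finset.mem_image.1 hvim
  obtain ⟨hs1, hs2⟩ := hU' s hs
  rw [mem_ibox] at hs1
  apply hS'
  · rw [mem_ibox]
    intro i
    have h2 := hfl s i
    have h3 := hs1 i
    have hRQ : (2 : ℤ) ≤ ((RA + Q : ℕ) : ℤ) := by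
      have : 2 ≤ RA + Q := by omega
      exact_mod_cast this
    have hℓ1 : (1 : ℤ) ≤ ℓ := by exact_mod_cast hℓ
    rw [abs_le] at h3 ⊢
    constructor
    · by_contra hcon
      push Not at hcon
      have h4 : f s i + 1 ≤ -((RA + Q : ℕ) : ℤ) := by omega
      nlinarith [h2.2, h3.1]
    · by_contra hcon
      push Not at hcon
      have h4 : ((RA + Q : ℕ) : ℤ) + 1 ≤ f s i := by omega
      nlinarith [h2.1, h3.2]
  · have h4 : ‖toR s‖ ≤ (RA : ℝ) + Q := by
      rw [pi_norm_le_iff_of_nonneg (by positivity)]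
      intro i
      simp only [toR, Real.norm_eq_abs]
      exact_mod_cast hs1 i
    have h5 := key_homothety (μ := 1 / 2) hk hne (by norm_num) (by norm_num) (g := g) (x := x)
      (t := toR s) (ρ := 1 + Q) (N := N) (Γ := Γ) hN hΓ0 hs2.le hv (by
        have e1 : (1 / 2 : ℝ) * Γ / (2 * k * R) = Γ / (4 * k * R) := by ring
        have e2 : (1 - 1 / 2 : ℝ) * N / (2 * k) = N / (4 * k) := by ring
        rw [e1, e2]
        have : (1 / 2 : ℝ) * ‖toR s‖ ≤ ((RA : ℝ) + Q) / 2 := by linarith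
        linarith)
    have e2 : (1 - 1 / 2 : ℝ) * N / (2 * k) = N / (4 * k) := by ring
    rw [e2] at h5
    have h6 := dep_lipschitz (μ := 1 / 2) (g := g) (x := x) hne ((1 / 2 : ℝ) • toR s)
      (toR ((ℓ : ℤ) • f s))
    have h7 : ‖toR ((ℓ : ℤ) • f s) - (1 / 2 : ℝ) • toR s‖ ≤ ℓ := by
      rw [pi_norm_le_iff_of_nonneg (Nat.cast_nonneg ℓ)]
      intro i
      obtain ⟨h8, h9⟩ := hfl s i
      have h8' : 2 * (ℓ : ℝ) * (f s i : ℝ) ≤ s i := by exact_mod_cast h8
      have h9' : (s i : ℝ) < 2 * (ℓ : ℝ) * (f s i : ℝ) + 2 * ℓ := by exact_mod_cast h9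
      simp only [toR, Pi.sub_apply, Pi.smul_apply, smul_eq_mul, Int.cast_mul, Int.cast_natCast,
        Real.norm_eq_abs]
      rw [abs_le]
      constructor <;> linarith
    linarith

/-- The data of the boundary layer fit into the sample points. -/
lemma count_boundary (hk : 1 ≤ k) {R : ℕ} (hne : (comp k R).Nonempty) {g : X → ℝ} (x : X)
    {N Γ E0 E4 : ℝ} {E3 Q RA ℓ q : ℕ} (hE3 : k * (1 + E4) ≤ E3) (hE3' : 0 < E3)
    (hQ : 2 * k * E3 * (2 * ℓ) ^ k * q ≤ Q) (hℓ : 1 ≤ ℓ) (hRA : 2 ≤ RA) (hN : 0 ≤ N)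
    (hΓ0 : 0 ≤ Γ) (hNbig : (1 + (Q : ℝ)) / 2 - N / (4 * k) + ℓ < -E0)
    (hv : ∀ v ∈ comp k R, (∃ i, N ≤ |(v i : ℝ)|) ∨ g x + Γ ≤ g (v +ᵥ x))
    (hΓ : ((RA : ℝ) + Q) / 2 - Γ / (4 * k * R) ≤ (1 + (Q : ℝ)) / 2 - N / (4 * k))
    (A S' : Finset (Fin k → ℤ))
    (hA : ∀ s ∈ A, s ∈ ibox k RA ∧ -E4 < dep hne 1 g x (toR s) ∧ dep hne 1 g x (toR s) < 1)
    (hS' : ∀ v : Fin k → ℤ, v ∈ ibox k (RA + Q) →
      dep hne (1 / 2) g x (toR ((ℓ : ℤ) • v)) < -E0 → v ∈ S') :
    q * A.card ≤ S'.card := by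
  classical
  set U' : Finset (Fin k → ℤ) :=
    (ibox k (RA + Q)).filter (fun s => dep hne 1 g x (toR s) < 1 + Q) with hU'
  have h1 := count_layer hk hne x hE3 A U' hA (Q := Q) (fun s hs1 hs2 =>
    Finset.mem_filter.2 ⟨hs1, hs2⟩)
  have h2 := count_store hk hne x hℓ hRA hN hΓ0 hNbig hv hΓ U' S'
    (fun s hs => Finset.mem_filter.1 hs) hS'
  have hpos : 0 < 2 * k * E3 * (2 * ℓ) ^ k := by positivity
  have h3 : A.card * (2 * k * E3 * (2 * ℓ) ^ k * q) ≤ 2 * k * E3 * ((2 * ℓ) ^ k * S'.card) :=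
    (Nat.mul_le_mul_left _ hQ).trans (h1.trans (Nat.mul_le_mul_left _ h2))
  have h4 : (2 * k * E3 * (2 * ℓ) ^ k) * (q * A.card) ≤ (2 * k * E3 * (2 * ℓ) ^ k) * S'.card := by
    calc (2 * k * E3 * (2 * ℓ) ^ k) * (q * A.card)
        = A.card * (2 * k * E3 * (2 * ℓ) ^ k * q) := by ring
      _ ≤ 2 * k * E3 * ((2 * ℓ) ^ k * S'.card) := h3
      _ = (2 * k * E3 * (2 * ℓ) ^ k) * S'.card := by ring
  exact Nat.le_of_mul_le_mul_left h4 hpos

end BandLim48
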