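import Pool.Agent.Lib.BandLim48.Correct

/-! Decoding the marker function and the boundary code. -/

set_option autoImplicit false

open Topology Filter Set

namespace BandLim48

variable {k : ℕ} {X : Type*} [AddAction (Fin k → ℤ) X]

lemma eq_zero_of_contraction {I : Type*} (u : I → ℂ) {C q : ℝ} (hC0 : 0 ≤ C) (hq0 : 0 ≤ q)
    (hq1 : q < 1) (h0 : ∀ i, ‖u i‖ ≤ C)
    (hstep : ∀ D : ℝ, 0 ≤ D → (∀ i, ‖u i‖ ≤ D) → ∀ i, ‖u i‖ ≤ q * D) : ∀ i, u i = 0 := by
  have h1 : ∀ n : ℕ, ∀ i, ‖u i‖ ≤ q ^ n * C := by
    intro n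
    induction n with
    | zero => intro i; simpa using h0 i
    | succ n ih =>
      intro i
      have := hstep (q ^ n * C) (by positivity) ih i
      rw [pow_succ]
      linarith
  intro i
  have h2 : Tendsto (fun n : ℕ => q ^ n * C) atTop (𝓝 (0 * C)) :=
    (tendsto_pow_atTop_nhds_zero_of_lt_one hq0 hq1).mul_const C
  rw [zero_mul] at h2
  have h3 : ‖u i‖ ≤ 0 := ge_of_tendsto' h2 (fun n => h1 n i)
  exact norm_le_zero_iff.1 h3

/-- The convolution of a marker function with a suitable kernel determines the marker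
function along the orbit. -/
lemma marker_decode [TopologicalSpace X] {N M : ℕ} {h : X → ℝ} (hm : IsMarker (k := k) N M h)
    {a : (Fin k → ℤ) → ℂ} (ha : Summable (fun w => ‖a w‖)) (ha0 : a 0 = 1) {c0 : ℝ}
    (hc0 : 0 ≤ c0) (hac : ∀ w : Fin k → ℤ, w ≠ 0 → ‖a w‖ ≤ c0) {E1 : ℕ} (hE1 : 2 * E1 < N)
    (hq : c0 + tail a E1 < 1) {x y : X}
    (hxy : ∀ s : Fin k → ℤ, conv a (fun z => (h z : ℂ)) (s +ᵥ x)
      = conv a (fun z => (h z : ℂ)) (s +ᵥ y)) :
    ∀ s : Fin k → ℤ, h (s +ᵥ x) = h (s +ᵥ y) := by
  classical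
  set u : (Fin k → ℤ) → ℂ := fun s => (h (s +ᵥ x) : ℂ) - (h (s +ᵥ y) : ℂ) with hu
  have htail0 : 0 ≤ tail a E1 := tsum_nonneg (fun w => by split_ifs <;> positivity)
  have hh1 : ∀ z, ‖(h z : ℂ)‖ ≤ 1 := by
    intro z
    rw [Complex.norm_real, Real.norm_of_nonneg (hm.nonneg z)]
    exact hm.le_one z
  have hbound : ∀ s, ‖u s‖ ≤ 2 := by
    intro s
    refine (norm_sub_le _ _).trans ?_
    linarith [hh1 (s +ᵥ x), hh1 (s +ᵥ y)]
  have hconv : ∀ s, ∑' w : Fin k → ℤ, a w * u (w + s) = 0 := by
    intro s
    have h1 := hxy s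
    unfold conv at h1
    have hsx := summable_conv (A := fun z => (h z : ℂ)) ha hh1 (s +ᵥ x)
    have hsy := summable_conv (A := fun z => (h z : ℂ)) ha hh1 (s +ᵥ y)
    have h2 : ∑' w : Fin k → ℤ, a w * u (w + s)
        = ∑' w : Fin k → ℤ, (a w * (h (w +ᵥ (s +ᵥ x)) : ℂ) - a w * (h (w +ᵥ (s +ᵥ y)) : ℂ)) := by
      refine tsum_congr (fun w => ?_)
      simp only [hu, vadd_vadd]
      ring
    rw [h2, hsx.tsum_sub hsy, h1, sub_self]
  have hpos_of_ne : ∀ s, u s ≠ 0 → 0 < h (s +ᵥ x) ∨ 0 < h (s +ᵥ y) := by
    intro s hs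
    by_contra hcon
    push Not at hcon
    apply hs
    have h1 := le_antisymm hcon.1 (hm.nonneg _)
    have h2 := le_antisymm hcon.2 (hm.nonneg _)
    simp [hu, h1, h2]
  have hmain := eq_zero_of_contraction u (C := 2) (q := c0 + tail a E1) (by norm_num)
    (by linarith) hq hbound (by
      intro D hD0 hD s
      by_cases hus : u s = 0
      · rw [hus, norm_zero]
        exact mul_nonneg (by linarith) hD0
      -- separation facts
      have hsepx : ∀ (z : X) (w1 w2 : Fin k → ℤ), w1 ≠ w2 → (∀ i, |w1 i| ≤ (E1 : ℤ)) →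
          (∀ i, |w2 i| ≤ (E1 : ℤ)) → 0 < h (w1 +ᵥ z) → 0 < h (w2 +ᵥ z) → False := by
        intro z w1 w2 hne h1 h2 hp1 hp2
        obtain ⟨i, hi⟩ := hm.sep (w1 +ᵥ z) (w2 - w1) (sub_ne_zero.2 (Ne.symm hne)) hp1 (by
          rw [vadd_vadd, sub_add_cancel]; exact hp2)
        have h3 : |(w2 - w1) i| ≤ 2 * E1 := by
          rw [Pi.sub_apply]
          exact (abs_sub _ _).trans (by linarith [h1 i, h2 i])
        have h4 : (N : ℤ) ≤ 2 * E1 := hi.trans h3
        have h5 : N ≤ 2 * E1 := by exact_mod_cast h4
        omega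
      have hs : Summable (fun w => a w * u (w + s)) := by
        refine Summable.of_norm_bounded (g := fun w => ‖a w‖ * 2) (ha.mul_right 2) (fun w => ?_)
        rw [norm_mul]
        exact mul_le_mul_of_nonneg_left (hbound _) (norm_nonneg _)
      have h1 := hconv s
      rw [hs.tsum_eq_add_tsum_ite 0, ha0, one_mul, zero_add] at h1
      have h2 : u s = -∑' w : Fin k → ℤ, (if w = 0 then 0 else a w * u (w + s)) :=
        eq_neg_of_add_eq_zero_left h1
      -- splitting into near and far
      set fn : (Fin k → ℤ) → ℂ := fun w =>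
        if w = 0 then 0 else if (∃ i, (E1 : ℤ) < |w i|) then 0 else a w * u (w + s) with hfn
      set ff : (Fin k → ℤ) → ℂ := fun w =>
        if w = 0 then 0 else if (∃ i, (E1 : ℤ) < |w i|) then a w * u (w + s) else 0 with hff
      have hfsum : Summable ff := by
        refine Summable.of_norm_bounded (g := fun w => ‖a w‖ * 2) (ha.mul_right 2) (fun w => ?_)
        simp only [hff]
        split_ifs
        · rw [norm_zero]; positivity
        · rw [norm_mul]
          exact mul_le_mul_of_nonneg_left (hbound _) (norm_nonneg _)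
        · rw [norm_zero]; positivity
      have hnsum : Summable fn := by
        refine Summable.of_norm_bounded (g := fun w => ‖a w‖ * 2) (ha.mul_right 2) (fun w => ?_)
        simp only [hfn]
        split_ifs
        · rw [norm_zero]; positivity
        · rw [norm_zero]; positivity
        · rw [norm_mul]
          exact mul_le_mul_of_nonneg_left (hbound _) (norm_nonneg _)
      have h3 : ∑' w : Fin k → ℤ, (if w = 0 then 0 else a w * u (w + s))
          = ∑' w, fn w + ∑' w, ff w := by
        rw [← hnsum.tsum_add hfsum]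
        refine tsum_congr (fun w => ?_)
        simp only [hfn, hff]
        split_ifs <;> simp
      have hfar : ‖∑' w, ff w‖ ≤ tail a E1 * D := by
        have hts : Summable (fun w : Fin k → ℤ =>
            if (∃ i, (E1 : ℤ) < |w i|) then ‖a w‖ else 0) := by
          refine Summable.of_nonneg_of_le (fun w => by split_ifs <;> positivity) (fun w => ?_) ha
          split_ifs
          · exact le_rfl
          · positivity
        unfold tail
        rw [← tsum_mul_right]
        refine tsum_of_norm_bounded (hts.mul_right D).hasSum (fun w => ?_)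
        simp only [hff]
        by_cases hw : w = 0
        · rw [if_pos hw, norm_zero]
          split_ifs <;> positivity
        · rw [if_neg hw]
          split_ifs
          · rw [norm_mul]
            exact mul_le_mul_of_nonneg_left (hD _) (norm_nonneg _)
          · rw [norm_zero, zero_mul]
      have hnear : ‖∑' w, fn w‖ ≤ c0 * D := by
        by_cases hex : ∃ w1, fn w1 ≠ 0
        · obtain ⟨w1, hw1⟩ := hex
          have huniq : ∀ w, w ≠ w1 → fn w = 0 := by
            intro w hww1
            by_contra hw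
            -- properties of w and w1
            have hprop : ∀ w, fn w ≠ 0 → w ≠ 0 ∧ (∀ i, |w i| ≤ (E1 : ℤ)) ∧ u (w + s) ≠ 0 := by
              intro w hw
              simp only [hfn] at hw
              by_cases h1 : w = 0
              · exact absurd (if_pos h1) hw
              · rw [if_neg h1] at hw
                by_cases h2 : ∃ i, (E1 : ℤ) < |w i|
                · exact absurd (if_pos h2) hw
                · rw [if_neg h2] at hw
                  push Not at h2
                  exact ⟨h1, h2, right_ne_zero_of_mul hw⟩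
            obtain ⟨ha1, ha2, ha3⟩ := hprop w hw
            obtain ⟨hb1, hb2, hb3⟩ := hprop w1 hw1
            have hz : ∀ i, |(0 : Fin k → ℤ) i| ≤ (E1 : ℤ) := by intro i; simp
            have e : ∀ (w : Fin k → ℤ) (z : X), (w + s) +ᵥ z = w +ᵥ (s +ᵥ z) :=
              fun w z => (vadd_vadd _ _ _).symm
            rcases hpos_of_ne s hus with hx | hy
            · have hx' : 0 < h ((0 : Fin k → ℤ) +ᵥ (s +ᵥ x)) := by rwa [zero_vadd]
              have hA : 0 < h (w +ᵥ (s +ᵥ y)) := by
                rcases hpos_of_ne _ ha3 with h' | h'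
                · rw [e] at h'
                  exact (hsepx _ 0 w (Ne.symm ha1) hz ha2 hx' h').elim
                · rwa [e] at h'
              have hB : 0 < h (w1 +ᵥ (s +ᵥ y)) := by
                rcases hpos_of_ne _ hb3 with h' | h'
                · rw [e] at h'
                  exact (hsepx _ 0 w1 (Ne.symm hb1) hz hb2 hx' h').elim
                · rwa [e] at h'
              exact hsepx _ w w1 hww1 ha2 hb2 hA hB
            · have hy' : 0 < h ((0 : Fin k → ℤ) +ᵥ (s +ᵥ y)) := by rwa [zero_vadd]
              have hA : 0 < h (w +ᵥ (s +ᵥ x)) := by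
                rcases hpos_of_ne _ ha3 with h' | h'
                · rwa [e] at h'
                · rw [e] at h'
                  exact (hsepx _ 0 w (Ne.symm ha1) hz ha2 hy' h').elim
              have hB : 0 < h (w1 +ᵥ (s +ᵥ x)) := by
                rcases hpos_of_ne _ hb3 with h' | h'
                · rwa [e] at h'
                · rw [e] at h'
                  exact (hsepx _ 0 w1 (Ne.symm hb1) hz hb2 hy' h').elim
              exact hsepx _ w w1 hww1 ha2 hb2 hA hB
          rw [tsum_eq_single w1 huniq]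
          simp only [hfn]
          split_ifs with h1 h2
          · rw [norm_zero]; positivity
          · rw [norm_zero]; positivity
          · rw [norm_mul]
            exact mul_le_mul (hac w1 h1) (hD _) (norm_nonneg _) hc0
        · push Not at hex
          simp only [hex, tsum_zero, norm_zero]
          positivity
      rw [h2, norm_neg, h3]
      refine (norm_add_le _ _).trans ?_
      linarith)
  intro s
  have h1 := hmain s
  simp only [hu] at h1
  rw [sub_eq_zero] at h1
  exact_mod_cast h1

/-- The boundary code is determined by its convolution. -/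
lemma code_decode {R : ℕ} {hne : (comp k R).Nonempty} {μ : ℝ} {g : X → ℝ} {ℓ E0 Rv : ℕ}
    {a : (Fin k → ℤ) → ℂ} (ha : IsKer ℓ a) (hR : 2 * ℓ * Rv + E0 ≤ R)
    (htail : tail a E0 ≤ 1 / 2) {Y : X → ℂ} {C : ℝ} (hC : ∀ z, ‖Y z‖ ≤ C)
    (hY : ∀ z, Y z ≠ 0 → 0 < gtot hne μ g ℓ E0 Rv z) {x y : X}
    (hγ : ∀ s : Fin k → ℤ, gtot hne μ g ℓ E0 Rv (s +ᵥ x) = gtot hne μ g ℓ E0 Rv (s +ᵥ y))
    (hxy : ∀ s : Fin k → ℤ, conv a Y (s +ᵥ x) = conv a Y (s +ᵥ y)) :
    ∀ s : Fin k → ℤ, Y (s +ᵥ x) = Y (s +ᵥ y) := by
  set u : (Fin k → ℤ) → ℂ := fun s => Y (s +ᵥ x) - Y (s +ᵥ y) with hu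
  have hC0 : 0 ≤ C := (norm_nonneg _).trans (hC x)
  have hbound : ∀ s, ‖u s‖ ≤ 2 * C := by
    intro s
    refine (norm_sub_le _ _).trans ?_
    linarith [hC (s +ᵥ x), hC (s +ᵥ y)]
  have hne0 : ∀ s, u s ≠ 0 → 0 < gtot hne μ g ℓ E0 Rv (s +ᵥ x) := by
    intro s hs
    by_contra hcon
    apply hs
    have h1 : Y (s +ᵥ x) = 0 := by
      by_contra h; exact hcon (hY _ h)
    have h2 : Y (s +ᵥ y) = 0 := by
      by_contra h
      rw [hγ s] at hcon
      exact hcon (hY _ h)
    simp [hu, h1, h2]
  have hmain := eq_zero_of_contraction u (C := 2 * C) (q := 1 / 2) (by positivity)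
    (by norm_num) (by norm_num) hbound (by
      intro D hD0 hD s
      by_cases hus : u s = 0
      · rw [hus, norm_zero]; positivity
      have hpos := hne0 s hus
      have h1 := active_sum (a := a) ha hR hpos (fun w => u (w + s)) (C := D) (fun w => hD _)
        (fun w hw => by
          have := hne0 _ hw
          rwa [← vadd_vadd] at this)
      have h2 : ∑' w : Fin k → ℤ, a w * u (w + s) = 0 := by
        have hsx := summable_conv (A := Y) ha.summable hC (s +ᵥ x)
        have hsy := summable_conv (A := Y) ha.summable hC (s +ᵥ y)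
        have h3 := hxy s
        unfold conv at h3
        have h4 : ∑' w : Fin k → ℤ, a w * u (w + s)
            = ∑' w : Fin k → ℤ, (a w * Y (w +ᵥ (s +ᵥ x)) - a w * Y (w +ᵥ (s +ᵥ y))) := by
          refine tsum_congr (fun w => ?_)
          simp only [hu, vadd_vadd]
          ring
        rw [h4, hsx.tsum_sub hsy, h3, sub_self]
      simp only [zero_add] at h1
      rw [h2, zero_sub, norm_neg] at h1
      exact h1.trans (mul_le_mul_of_nonneg_right htail hD0))
  intro s
  have h1 := hmain s
  simp only [hu] at h1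
  exact sub_eq_zero.1 h1

end BandLim48
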