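import Mathlib

/-! Basic definitions for the embedding of `ℤ^k`-systems in band-limited shifts (MP_fc1499_an). -/

set_option autoImplicit false

open MeasureTheory Topology Filter Set
open scoped SchwartzMap FourierTransform ENNReal

namespace BandLim48

/-- `ℝ^k` with its Euclidean structure. -/
abbrev E (k : ℕ) := EuclideanSpace ℝ (Fin k)

/-- The integer vector `n`, as a vector of `ℝ^k`. -/
noncomputable def iota {k : ℕ} (n : Fin k → ℤ) : E k := WithLp.toLp 2 (fun i => (n i : ℝ))

/-- The Fourier transform of `f`, as a tempered distribution, vanishes outside `Q`: for every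
Schwartz function `ψ` whose support does not meet `Q` one has `∫ f(t) ψ^(t) dt = 0`. -/
def SpecIn {k : ℕ} (f : E k → ℂ) (Q : Set (E k)) : Prop :=
  ∀ ψ : 𝓢(E k, ℂ), tsupport (ψ : E k → ℂ) ⊆ Qᶜ → ∫ t, f t * (𝓕 ψ : 𝓢(E k, ℂ)) t = 0

/-- The space `B_1(Ω)` of the problem, inside the space of continuous functions with the
compact-open topology. -/
def B1 {k : ℕ} (Ω : Set (E k)) : Set C(E k, ℂ) :=
  {f | (∀ t, ‖f t‖ ≤ 1) ∧ SpecIn f Ω}

/-- Semi-algebraic subsets of `ℝ^k`: the smallest family which contains the sets `{p > 0}`, `p` a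
real polynomial, and is closed under complements and finite unions. -/
inductive IsSemialgebraic {k : ℕ} : Set (E k) → Prop
  | pos (p : MvPolynomial (Fin k) ℝ) :
      IsSemialgebraic {x : E k | 0 < MvPolynomial.eval (fun i => x i) p}
  | compl (S : Set (E k)) : IsSemialgebraic S → IsSemialgebraic Sᶜ
  | union (S T : Set (E k)) : IsSemialgebraic S → IsSemialgebraic T → IsSemialgebraic (S ∪ T)

/-- The closed cube with lowest corner `c` and side `s`. -/
def Cube {k : ℕ} (c : E k) (s : ℝ) : Set (E k) := {ξ | ∀ i, c i ≤ ξ i ∧ ξ i ≤ c i + s}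

end BandLim48
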