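import Pool.Agent.Lib.BandLim48.Marker
import Pool.Agent.Lib.BandLim48.Code

/-! Definitions for the discrete form of the embedding theorem, and its one-scale form. -/

set_option autoImplicit false

open Topology Filter Set

namespace BandLim48

/-- A summable kernel with value `1` at `0` which vanishes on `ℓ ℤ^k` minus the origin. -/
structure IsKer {k : ℕ} (ℓ : ℕ) (a : (Fin k → ℤ) → ℂ) : Prop where
  summable : Summable (fun w => ‖a w‖)
  zero : a 0 = 1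
  vanish : ∀ u : Fin k → ℤ, u ≠ 0 → a ((ℓ : ℤ) • u) = 0

/-- A summable kernel with value `1` at `0` and of modulus less than one elsewhere. -/
structure IsMKer {k : ℕ} (a : (Fin k → ℤ) → ℂ) : Prop where
  summable : Summable (fun w => ‖a w‖)
  zero : a 0 = 1
  lt_one : ∀ w : Fin k → ℤ, w ≠ 0 → ‖a w‖ < 1

/-- There is a continuous map from `X` to a finite simplicial complex of dimension at most `D`
(given by barycentric coordinates; a complex of dimension at most `D` with vertex set `V` is a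
subcomplex of the `D`-skeleton of the simplex with vertex set `V`) whose fibres have `d_b`-diameter
less than `ε`. -/
def WidimLE (k : ℕ) (X : Type*) [MetricSpace X] [AddAction (Fin k → ℤ) X] (b : ℕ) (ε : ℝ)
    (D : ℕ) : Prop :=
  ∃ (V : Type) (_ : Fintype V) (π : X → V → ℝ), Continuous π ∧ (∀ x e, 0 ≤ π x e) ∧
    (∀ x, ∑ e, π x e = 1) ∧
    (∀ x, (Finset.univ.filter (fun e => π x e ≠ 0)).card ≤ D + 1) ∧
    ∀ x y, π x = π y → ∀ w : Fin k → ℤ, (∀ i, 0 ≤ w i ∧ w i < (b : ℤ)) →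
      dist (w +ᵥ x) (w +ᵥ y) < ε

/-- `mdim X ≤ θ` in the form in which it is used. -/
def DimLE (k : ℕ) (X : Type*) [MetricSpace X] [AddAction (Fin k → ℤ) X] (θ : ℝ) : Prop :=
  ∀ ε : ℝ, 0 < ε → ∀ b0 : ℕ, ∃ b : ℕ, b0 ≤ b ∧ ∃ D : ℕ, (D : ℝ) ≤ θ * (b : ℝ) ^ k ∧
    WidimLE k X b ε D

/-- The one-scale statement (proved in `Level.lean`). -/
def LevelStatement {k : ℕ} (X : Type*) [MetricSpace X] [CompactSpace X]
    [AddAction (Fin k → ℤ) X] (m : ℕ) (a : Fin m → (Fin k → ℤ) → ℂ)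
    (a' a'' : (Fin k → ℤ) → ℂ) (ε : ℝ) : Prop :=
  ∃ Y h : C(X, ℂ), ∀ (A : Fin m → C(X, ℂ)) (δ : ℝ), 0 < δ →
    (∀ i x y, dist x y < ε → ‖conv (a i) (A i) x - conv (a i) (A i) y‖ ≤ δ) →
    ∃ A' : Fin m → C(X, ℂ), (∀ i, ‖A' i‖ ≤ 4 * δ) ∧ ∀ x y : X,
      (∀ i (s : Fin k → ℤ), conv (a i) (⇑(A i + A' i)) (s +ᵥ x)
        = conv (a i) (⇑(A i + A' i)) (s +ᵥ y)) →
      (∀ s : Fin k → ℤ, conv a' Y (s +ᵥ x) = conv a' Y (s +ᵥ y)) →
      (∀ s : Fin k → ℤ, conv a'' h (s +ᵥ x) = conv a'' h (s +ᵥ y)) → dist x y < ε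

end BandLim48
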