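import Mathlib

/-! Fine subdivision of a complex with explicit barycentric coordinates (MP_fc1499_an). -/

set_option autoImplicit false

open MeasureTheory Topology Filter Set

namespace BandLim48

section cells

variable {n : ℕ} (q : ℕ)

/-- The lower end of the interval of the `θ` with `⌊y i + θ⌋ = z i` for all `i`. -/
private noncomputable def lo (y : Fin n → ℝ) (z : Fin n → Fin (q + 1)) : ℝ :=
  (Finset.univ : Finset (Option (Fin n))).sup' ⟨none, Finset.mem_univ _⟩
    (fun o => o.elim 0 (fun i => ((z i : ℕ) : ℝ) - y i))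

/-- The upper end of that interval. -/
private noncomputable def hi (y : Fin n → ℝ) (z : Fin n → Fin (q + 1)) : ℝ :=
  (Finset.univ : Finset (Option (Fin n))).inf' ⟨none, Finset.mem_univ _⟩
    (fun o => o.elim 1 (fun i => ((z i : ℕ) : ℝ) + 1 - y i))

/-- The weight of the vertex `z`. -/
private noncomputable def wt (y : Fin n → ℝ) (z : Fin n → Fin (q + 1)) : ℝ :=
  max (hi q y z - lo q y z) 0

private lemma mem_cell (y : Fin n → ℝ) (z : Fin n → Fin (q + 1)) (θ : ℝ) :
    θ ∈ Ico (lo q y z) (hi q y z) ↔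
      (0 ≤ θ ∧ θ < 1 ∧ ∀ i, ((z i : ℕ) : ℝ) ≤ y i + θ ∧ y i + θ < ((z i : ℕ) : ℝ) + 1) := by
  rw [mem_Ico, lo, hi, Finset.sup'_le_iff, Finset.lt_inf'_iff]
  constructor
  · rintro ⟨h1, h2⟩
    refine ⟨h1 none (Finset.mem_univ _), h2 none (Finset.mem_univ _), fun i => ⟨?_, ?_⟩⟩
    · have := h1 (some i) (Finset.mem_univ _)
      simp only [Option.elim] at this
      linarith
    · have := h2 (some i) (Finset.mem_univ _)
      simp only [Option.elim] at this
      linarith
  · rintro ⟨h1, h2, h3⟩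
    constructor
    · intro o _
      cases o with
      | none => exact h1
      | some i =>
        simp only [Option.elim]
        linarith [(h3 i).1]
    · intro o _
      cases o with
      | none => exact h2
      | some i =>
        simp only [Option.elim]
        linarith [(h3 i).2]

private lemma wt_continuous (z : Fin n → Fin (q + 1)) :
    Continuous (fun y : Fin n → ℝ => wt q y z) := by
  unfold wt lo hi
  refine Continuous.max (Continuous.sub ?_ ?_) continuous_const
  · refine Continuous.finset_inf'_apply _ ?_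
    intro o _
    cases o with
    | none => exact continuous_const
    | some i => exact continuous_const.sub (continuous_apply i)
  · refine Continuous.finset_sup'_apply _ ?_
    intro o _
    cases o with
    | none => exact continuous_const
    | some i => exact continuous_const.sub (continuous_apply i)

private lemma wt_eq (y : Fin n → ℝ) (z : Fin n → Fin (q + 1)) :
    wt q y z = volume.real (Ico (lo q y z) (hi q y z)) := by
  rw [wt, Real.volume_real_Ico]

private lemma exists_theta {y : Fin n → ℝ} {z : Fin n → Fin (q + 1)} (h : wt q y z ≠ 0) :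
    ∃ θ : ℝ, 0 ≤ θ ∧ θ < 1 ∧ ∀ i, ((z i : ℕ) : ℝ) ≤ y i + θ ∧ y i + θ < ((z i : ℕ) : ℝ) + 1 := by
  refine ⟨lo q y z, (mem_cell q y z _).mp ⟨le_refl _, ?_⟩⟩
  by_contra hcon
  apply h
  rw [wt]
  exact max_eq_right (by linarith [not_lt.mp hcon])

private lemma wt_sum {y : Fin n → ℝ} (hy : ∀ i, 0 ≤ y i ∧ y i ≤ q) :
    ∑ z, wt q y z = 1 := by
  simp_rw [wt_eq]
  rw [← measureReal_biUnion_finset (h := fun z _ => by
    rw [Real.volume_Ico]; exact ENNReal.ofReal_ne_top)]
  · have : (⋃ z ∈ (Finset.univ : Finset (Fin n → Fin (q + 1))),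
        Ico (lo q y z) (hi q y z)) = Ico (0 : ℝ) 1 := by
      ext θ
      simp only [mem_iUnion, Finset.mem_univ, exists_prop, true_and, mem_cell]
      constructor
      · rintro ⟨z, h1, h2, _⟩
        exact ⟨h1, h2⟩
      · rintro ⟨h1, h2⟩
        have hlt : ∀ i, ⌊y i + θ⌋₊ < q + 1 := by
          intro i
          rw [Nat.floor_lt (by linarith [(hy i).1])]
          push_cast
          linarith [(hy i).2]
        refine ⟨fun i => ⟨⌊y i + θ⌋₊, hlt i⟩, h1, h2, fun i => ⟨?_, ?_⟩⟩
        · exact Nat.floor_le (by linarith [(hy i).1])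
        · exact Nat.lt_floor_add_one _
    rw [this, Real.volume_real_Ico]
    norm_num
  · intro z _ z' _ hne
    rw [Function.onFun, Set.disjoint_left]
    intro θ h h'
    rw [mem_cell] at h h'
    apply hne
    funext i
    have h1 := h.2.2 i
    have h2 := h'.2.2 i
    have h3 : ((z i : ℕ) : ℝ) < ((z' i : ℕ) : ℝ) + 1 := by linarith
    have h4 : ((z' i : ℕ) : ℝ) < ((z i : ℕ) : ℝ) + 1 := by linarith
    have h5 : (z i : ℕ) < (z' i : ℕ) + 1 := by exact_mod_cast h3
    have h6 : (z' i : ℕ) < (z i : ℕ) + 1 := by exact_mod_cast h4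
    apply Fin.ext
    omega
  · intro z _
    exact measurableSet_Ico

end cells

/-- equality of the floors of `y n + θ` from equality of the number of jumps -/
private lemma key_floor (q : ℕ) (u : ℕ → ℝ) (r : ℕ) (h0 : ∀ j, 0 ≤ u j)
    (y : ℕ → ℝ) (hy : ∀ n, y n = q * ∑ j ∈ Finset.range n, u j) (θ θ' : ℝ) (hθ : 0 ≤ θ)
    (hθθ : θ ≤ θ') (hθ' : θ' < 1)
    (hcard : (((Finset.range r).filter (fun j => u j ≠ 0)).filter
        (fun j => ⌊y (j + 1) + θ⌋₊ ≠ ⌊y (j + 1)⌋₊)).card =
      (((Finset.range r).filter (fun j => u j ≠ 0)).filter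
        (fun j => ⌊y (j + 1) + θ'⌋₊ ≠ ⌊y (j + 1)⌋₊)).card) :
    ∀ n ≤ r, ⌊y n + θ⌋₊ = ⌊y n + θ'⌋₊ := by
  have hy0 : ∀ n, 0 ≤ y n := by
    intro n
    rw [hy]
    exact mul_nonneg (Nat.cast_nonneg _) (Finset.sum_nonneg fun j _ => h0 j)
  have hmono : ∀ (n : ℕ) (s t : ℝ), s ≤ t → ⌊y n + s⌋₊ ≤ ⌊y n + t⌋₊ := fun n s t h =>
    Nat.floor_le_floor (by linarith)
  have hmono0 : ∀ (n : ℕ) (t : ℝ), 0 ≤ t → ⌊y n⌋₊ ≤ ⌊y n + t⌋₊ := fun n t h =>
    Nat.floor_le_floor (by linarith)
  have hup : ∀ (n : ℕ) (t : ℝ), t < 1 → ⌊y n + t⌋₊ ≤ ⌊y n⌋₊ + 1 := by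
    intro n t ht
    rw [← Nat.floor_add_one (hy0 n)]
    exact Nat.floor_le_floor (by linarith)
  have hsub : (((Finset.range r).filter (fun j => u j ≠ 0)).filter
        (fun j => ⌊y (j + 1) + θ⌋₊ ≠ ⌊y (j + 1)⌋₊)) ⊆
      (((Finset.range r).filter (fun j => u j ≠ 0)).filter
        (fun j => ⌊y (j + 1) + θ'⌋₊ ≠ ⌊y (j + 1)⌋₊)) := by
    intro j hj
    rw [Finset.mem_filter] at hj ⊢
    refine ⟨hj.1, ?_⟩
    have h1 := hmono (j + 1) _ _ hθθ
    have h2 := hmono0 (j + 1) θ hθ
    have h3 := hj.2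
    omega
  have heq := Finset.eq_of_subset_of_card_le hsub hcard.ge
  intro n
  induction n with
  | zero =>
    intro _
    have h : y 0 = 0 := by rw [hy]; simp
    rw [h, zero_add, zero_add, Nat.floor_eq_zero.mpr (by linarith),
      Nat.floor_eq_zero.mpr (by linarith)]
  | succ n ih =>
    intro hn
    by_cases hu : u n = 0
    · have h : y (n + 1) = y n := by rw [hy, hy, Finset.sum_range_succ, hu, add_zero]
      rw [h]
      exact ih (by omega)
    · have hmem : n ∈ (Finset.range r).filter (fun j => u j ≠ 0) := by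
        rw [Finset.mem_filter, Finset.mem_range]
        exact ⟨by omega, hu⟩
      have h1 := hup (n + 1) θ (by linarith)
      have h2 := hup (n + 1) θ' (by linarith)
      have h3 := hmono0 (n + 1) θ hθ
      have h4 := hmono0 (n + 1) θ' (by linarith)
      have h5 : (⌊y (n + 1) + θ⌋₊ ≠ ⌊y (n + 1)⌋₊) ↔ (⌊y (n + 1) + θ'⌋₊ ≠ ⌊y (n + 1)⌋₊) := by
        have := congrArg (fun S => n ∈ S) heq
        simp only [Finset.mem_filter, eq_iff_iff] at this
        rw [Finset.mem_filter] at hmem
        constructor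
        · intro h; exact (this.mp ⟨hmem, h⟩).2
        · intro h; exact (this.mpr ⟨hmem, h⟩).2
      by_cases h6 : ⌊y (n + 1) + θ⌋₊ = ⌊y (n + 1)⌋₊
      · have h7 : ⌊y (n + 1) + θ'⌋₊ = ⌊y (n + 1)⌋₊ := by
          by_contra h
          exact (h5.mpr h) h6
        rw [h6, h7]
      · have h7 := h5.mp h6
        omega

private lemma count_le (q : ℕ) (u : ℕ → ℝ) (r : ℕ) (h0 : ∀ j, 0 ≤ u j)
    (h1 : ∑ j ∈ Finset.range r, u j = 1)
    (y : ℕ → ℝ) (hy : ∀ n, y n = q * ∑ j ∈ Finset.range n, u j)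
    (Z : Finset (Fin (r + 1) → Fin (q + 1)))
    (hZ : ∀ z ∈ Z, ∃ θ : ℝ, 0 ≤ θ ∧ θ < 1 ∧ ∀ i : Fin (r + 1), (z i : ℕ) = ⌊y i + θ⌋₊) :
    Z.card ≤ ((Finset.range r).filter (fun j => u j ≠ 0)).card := by
  classical
  have hZ' : ∀ z : Fin (r + 1) → Fin (q + 1), ∃ θ : ℝ, z ∈ Z → 0 ≤ θ ∧ θ < 1 ∧
      ∀ i : Fin (r + 1), (z i : ℕ) = ⌊y i + θ⌋₊ := by
    intro z
    by_cases hz : z ∈ Z
    · obtain ⟨θ, hθ⟩ := hZ z hz
      exact ⟨θ, fun _ => hθ⟩
    · exact ⟨0, fun h => absurd h hz⟩
  choose θ hθ using hZ'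
  set S := (Finset.range r).filter (fun j => u j ≠ 0) with hS
  rw [← Finset.card_range S.card]
  refine Finset.card_le_card_of_injOn
    (fun z => (S.filter (fun j => ⌊y (j + 1) + θ z⌋₊ ≠ ⌊y (j + 1)⌋₊)).card) ?_ ?_
  · intro z hz
    rw [Finset.mem_coe, Finset.mem_range]
    apply Finset.card_lt_card
    rw [Finset.filter_ssubset]
    have hne : S.Nonempty := by
      by_contra hcon
      rw [Finset.not_nonempty_iff_eq_empty] at hcon
      have : ∑ j ∈ Finset.range r, u j = 0 := by
        apply Finset.sum_eq_zero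
        intro j hj
        by_contra hne
        have : j ∈ S := by rw [hS, Finset.mem_filter]; exact ⟨hj, hne⟩
        rw [hcon] at this
        simp at this
      rw [this] at h1
      exact zero_ne_one h1
    refine ⟨S.max' hne, S.max'_mem hne, ?_⟩
    rw [not_not]
    have hm : S.max' hne ∈ S := S.max'_mem hne
    have hmr : S.max' hne < r := Finset.mem_range.mp (Finset.mem_filter.mp hm).1
    have hyq : y (S.max' hne + 1) = q := by
      rw [hy, ← mul_one (q : ℝ), mul_assoc, one_mul]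
      congr 1
      rw [← h1]
      apply Finset.sum_subset
      · intro j hj
        rw [Finset.mem_range] at hj ⊢
        omega
      · intro j hj hj'
        by_contra hne'
        have : j ∈ S := by rw [hS, Finset.mem_filter]; exact ⟨hj, hne'⟩
        have := S.le_max' j this
        rw [Finset.mem_range] at hj'
        omega
    obtain ⟨t1, t2, _⟩ := hθ z hz
    rw [hyq, Nat.floor_natCast, Nat.floor_eq_iff (by positivity)]
    constructor
    · linarith
    · linarith
  · intro z hz z' hz' hzz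
    simp only at hzz
    obtain ⟨t1, t2, t3⟩ := hθ z hz
    obtain ⟨s1, s2, s3⟩ := hθ z' hz'
    funext i
    apply Fin.ext
    rw [t3, s3]
    rcases le_total (θ z) (θ z') with h | h
    · exact key_floor q u r h0 y hy _ _ t1 h s2 hzz i (by omega)
    · exact (key_floor q u r h0 y hy _ _ s1 h t2 hzz.symm i (by omega)).symm

theorem exists_small_stars {X : Type*} {V : Type} [TopologicalSpace X] [CompactSpace X] [Fintype V]
    (π : X → V → ℝ) (hπ : Continuous π) (h0 : ∀ x e, 0 ≤ π x e) (h1 : ∀ x, ∑ e, π x e = 1)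
    (D : ℕ) (hD : ∀ x, (Finset.univ.filter (fun e => π x e ≠ 0)).card ≤ D)
    (d : X → X → ℝ) (hd : Continuous (fun p : X × X => d p.1 p.2)) (ε : ℝ)
    (hε : ∀ x y, π x = π y → d x y < ε) :
    ∃ (W : Type) (_ : Fintype W) (ρ : X → W → ℝ), Continuous ρ ∧ (∀ x e, 0 ≤ ρ x e) ∧
      (∀ x, ∑ e, ρ x e = 1) ∧ (∀ x, (Finset.univ.filter (fun e => ρ x e ≠ 0)).card ≤ D) ∧
      (∀ x y e, ρ x e ≠ 0 → ρ y e ≠ 0 → d x y < ε) := by
  classical
  -- compactness
  obtain ⟨η, hη0, hη⟩ : ∃ η : ℝ, 0 < η ∧ ∀ x y, dist (π x) (π y) < η → d x y < ε := by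
    have hK : IsCompact {p : X × X | ε ≤ d p.1 p.2} :=
      (isClosed_le continuous_const hd).isCompact
    have hcont : Continuous (fun p : X × X => dist (π p.1) (π p.2)) :=
      (hπ.comp continuous_fst).dist (hπ.comp continuous_snd)
    obtain ⟨η, hη, hη'⟩ := hK.exists_forall_le' hcont.continuousOn (a := 0) (by
      intro p hp
      rw [dist_pos]
      intro heq
      exact absurd (hε p.1 p.2 heq) (not_lt.mpr hp))
    refine ⟨η, hη, fun x y hxy => ?_⟩
    by_contra hcon
    exact absurd (hη' (x, y) (not_lt.mp hcon)) (not_le.mpr hxy)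
  obtain ⟨q, hq⟩ := exists_nat_gt (4 / η)
  have hq0 : (0 : ℝ) < q := lt_trans (by positivity) hq
  set r := Fintype.card V with hr
  let e : V ≃ Fin r := Fintype.equivFin V
  let u : X → ℕ → ℝ := fun x j => if h : j < r then π x (e.symm ⟨j, h⟩) else 0
  have hu : ∀ x v, u x (e v) = π x v := by
    intro x v
    simp only [u, (e v).2, dif_pos, Fin.eta, Equiv.symm_apply_apply]
  have hu0 : ∀ x j, 0 ≤ u x j := by
    intro x j
    simp only [u]
    split_ifs
    · exact h0 _ _
    · exact le_refl _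
  have husum : ∀ x, ∑ j ∈ Finset.range r, u x j = 1 := by
    intro x
    rw [← h1 x, ← Fin.sum_univ_eq_sum_range, ← Equiv.sum_comp e]
    exact Finset.sum_congr rfl fun v _ => hu x v
  have hucard : ∀ x, ((Finset.range r).filter (fun j => u x j ≠ 0)).card ≤ D := by
    intro x
    refine le_trans ?_ (hD x)
    refine Finset.card_le_card_of_surjOn (fun v => (e v : ℕ)) ?_
    intro j hj
    rw [Finset.mem_coe, Finset.mem_filter, Finset.mem_range] at hj
    refine ⟨e.symm ⟨j, hj.1⟩, ?_, by simp⟩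
    rw [Finset.mem_coe, Finset.mem_filter]
    refine ⟨Finset.mem_univ _, ?_⟩
    rw [← hu]
    simpa using hj.2
  have hucont : ∀ j, Continuous (fun x => u x j) := by
    intro j
    by_cases h : j < r
    · simp only [u, h, dif_pos]
      exact (continuous_apply _).comp hπ
    · simp only [u, h, dif_neg, not_false_eq_true]
      exact continuous_const
  let Y : X → ℕ → ℝ := fun x n => q * ∑ j ∈ Finset.range n, u x j
  have hY : ∀ x n, Y x n = q * ∑ j ∈ Finset.range n, u x j := fun x n => rfl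
  have hYb : ∀ x, ∀ i : Fin (r + 1), 0 ≤ Y x i ∧ Y x i ≤ q := by
    intro x i
    refine ⟨mul_nonneg hq0.le (Finset.sum_nonneg fun j _ => hu0 x j), ?_⟩
    have : ∑ j ∈ Finset.range (i : ℕ), u x j ≤ 1 := by
      rw [← husum x]
      apply Finset.sum_le_sum_of_subset_of_nonneg
      · intro j hj
        rw [Finset.mem_range] at hj ⊢
        have := i.2
        omega
      · intro j _ _
        exact hu0 x j
    rw [hY]
    nlinarith
  refine ⟨Fin (r + 1) → Fin (q + 1), inferInstance,
    fun x z => wt q (fun i : Fin (r + 1) => Y x i) z, ?_, ?_, ?_, ?_, ?_⟩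
  · refine continuous_pi fun z => (wt_continuous q z).comp (continuous_pi fun i => ?_)
    exact continuous_const.mul (continuous_finsetSum _ fun j _ => hucont j)
  · intro x z
    exact le_max_right _ _
  · intro x
    exact wt_sum q (hYb x)
  · intro x
    refine le_trans ?_ (hucard x)
    refine count_le q (u x) r (hu0 x) (husum x) (Y x) (hY x) _ ?_
    intro z hz
    rw [Finset.mem_filter] at hz
    obtain ⟨θ, t1, t2, t3⟩ := exists_theta q hz.2
    refine ⟨θ, t1, t2, fun i => ?_⟩
    symm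
    rw [Nat.floor_eq_iff (by linarith [(hYb x i).1])]
    exact t3 i
  · intro x x' z hz hz'
    apply hη
    refine lt_of_le_of_lt ?_ ((div_lt_comm₀ hη0 hq0).mp hq)
    rw [dist_pi_le_iff (by positivity)]
    obtain ⟨θ, t1, t2, t3⟩ := exists_theta q hz
    obtain ⟨θ', t1', t2', t3'⟩ := exists_theta q hz'
    have hclose : ∀ n : ℕ, n < r + 1 → |Y x n - Y x' n| ≤ 2 := by
      intro n hn
      have a1 := t3 ⟨n, hn⟩
      have a2 := t3' ⟨n, hn⟩
      simp only at a1 a2
      rw [abs_le]
      constructor <;> linarith [a1.1, a1.2, a2.1, a2.2]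
    intro v
    rw [← hu, ← hu, Real.dist_eq, le_div_iff₀ hq0]
    have b1 := hclose (e v) (by omega)
    have b2 := hclose (e v + 1) (by omega)
    have b3 : Y x (e v + 1) = Y x (e v) + q * u x (e v) := by
      rw [hY, hY, Finset.sum_range_succ]; ring
    have b4 : Y x' (e v + 1) = Y x' (e v) + q * u x' (e v) := by
      rw [hY, hY, Finset.sum_range_succ]; ring
    rw [b3, b4] at b2
    rw [abs_le] at b1 b2
    have : |(u x (e v) - u x' (e v)) * q| ≤ 4 := by
      rw [abs_le]
      constructor <;> nlinarith [b1.1, b1.2, b2.1, b2.2]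
    rwa [abs_mul, abs_of_pos hq0] at this

end BandLim48
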