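import Pool.Agent.Lib.BandLim48.MainCode
import Pool.Agent.Lib.BandLim48.Subdiv

/-! The one-scale theorem. -/

set_option autoImplicit false

open Topology Filter Set

namespace BandLim48

lemma exists_kappa {k m ℓ : ℕ} {θ : ℝ} (hθ : θ * (ℓ : ℝ) ^ k < m) :
    ∃ κ : ℝ, 0 < κ ∧ κ < 1 ∧ θ * (ℓ : ℝ) ^ k < m * κ ^ k := by
  have h1 : Tendsto (fun κ : ℝ => (m : ℝ) * κ ^ k) (𝓝[<] 1) (𝓝 ((m : ℝ) * 1 ^ k)) := by
    apply Tendsto.mono_left _ nhdsWithin_le_nhds
    exact ((continuous_const.mul (continuous_id.pow k)).tendsto 1)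
  rw [one_pow, mul_one] at h1
  have h2 : ∀ᶠ κ : ℝ in 𝓝[<] 1, θ * (ℓ : ℝ) ^ k < m * κ ^ k := h1.eventually_const_lt hθ
  have h3 : ∀ᶠ κ : ℝ in 𝓝[<] 1, 0 < κ ∧ κ < 1 := by
    have : Set.Ioo (0 : ℝ) 1 ∈ 𝓝[<] (1 : ℝ) := Ioo_mem_nhdsLT one_pos
    exact this
  obtain ⟨κ, h4, h5⟩ := (h2.and h3).exists
  exact ⟨κ, h5.1, h5.2, h4⟩

lemma exists_block {k : ℕ} (hk : 1 ≤ k) {X : Type*} [MetricSpace X] [AddAction (Fin k → ℤ) X]
    {m ℓ : ℕ} {θ κ : ℝ} (hκ : θ * (ℓ : ℝ) ^ k < m * κ ^ k) (hdim : DimLE k X θ) {ε : ℝ}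
    (hε : 0 < ε) : ∃ b D : ℕ, 1 ≤ b ∧ WidimLE k X b ε D ∧
      ((D : ℝ) + 1) * (ℓ : ℝ) ^ k ≤ m * κ ^ k * (b : ℝ) ^ k := by
  set c : ℝ := m * κ ^ k - θ * (ℓ : ℝ) ^ k with hc
  have hc0 : 0 < c := by rw [hc]; linarith
  obtain ⟨b0, hb0⟩ := exists_nat_ge ((ℓ : ℝ) ^ k / c)
  obtain ⟨b, hb, D, hD, hW⟩ := hdim ε hε (b0 + 1)
  refine ⟨b, D, by omega, hW, ?_⟩
  have hb1 : (1 : ℝ) ≤ b := by
    have : 1 ≤ b := by omega
    exact_mod_cast this
  have h1 : (ℓ : ℝ) ^ k / c ≤ b := hb0.trans (by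
    have : b0 ≤ b := by omega
    exact_mod_cast this)
  have h2 : (b : ℝ) ≤ (b : ℝ) ^ k := by
    calc (b : ℝ) = (b : ℝ) ^ 1 := (pow_one _).symm
      _ ≤ (b : ℝ) ^ k := pow_le_pow_right₀ hb1 hk
  have h3 : (ℓ : ℝ) ^ k ≤ c * (b : ℝ) ^ k := by
    rw [div_le_iff₀ hc0] at h1
    have := mul_le_mul_of_nonneg_right h2 hc0.le
    linarith
  have h4 : (D : ℝ) * (ℓ : ℝ) ^ k ≤ θ * (b : ℝ) ^ k * (ℓ : ℝ) ^ k :=
    mul_le_mul_of_nonneg_right hD (by positivity)
  rw [hc] at h3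
  nlinarith

/-- Finitely many continuous real functions which separate points at distance at least `ε`. -/
lemma exists_separating {X : Type*} [MetricSpace X] [CompactSpace X] {ε : ℝ} (hε : 0 < ε) :
    ∃ (q : ℕ) (P : Fin q → X → ℝ), (∀ c, Continuous (P c)) ∧
      ∀ x y, (∀ c, P c x = P c y) → dist x y < ε := by
  obtain ⟨T, -, hT, hcov⟩ := finite_cover_balls_of_compact (isCompact_univ (X := X))
    (show (0 : ℝ) < ε / 2 by positivity)
  have hfin : Fintype T := hT.fintype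
  set e := (Fintype.equivFin T) with he
  refine ⟨Fintype.card T, fun c x => dist x (e.symm c).1, fun c => continuous_id.dist
    continuous_const, ?_⟩
  intro x y h
  obtain ⟨z, hz, hxz⟩ := mem_iUnion₂.1 (hcov (mem_univ x))
  have h1 := h (e ⟨z, hz⟩)
  simp only [Equiv.symm_apply_apply] at h1
  have h2 : dist x z < ε / 2 := hxz
  calc dist x y ≤ dist x z + dist y z := dist_triangle_right _ _ _
    _ < ε := by rw [← h1]; linarith

/-- Fine subdivision of the complexes given by the mean dimension. -/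
lemma exists_stars {k : ℕ} {X : Type*} [MetricSpace X] [CompactSpace X]
    [AddAction (Fin k → ℤ) X] (hact : ∀ n : Fin k → ℤ, Continuous (fun x : X => n +ᵥ x))
    {b : ℕ} (hb : 1 ≤ b) {ε : ℝ} {D : ℕ} (hW : WidimLE k X b ε D) :
    ∃ (W : Type) (_ : Fintype W) (ρ : X → W → ℝ), Continuous ρ ∧ (∀ x e, 0 ≤ ρ x e) ∧
      (∀ x, ∑ e, ρ x e = 1) ∧ (∀ x, (Finset.univ.filter (fun e => ρ x e ≠ 0)).card ≤ D + 1) ∧
      (∀ x y e, ρ x e ≠ 0 → ρ y e ≠ 0 → ∀ w : Fin k → ℤ, (∀ i, 0 ≤ w i ∧ w i < (b : ℤ)) →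
        dist (w +ᵥ x) (w +ᵥ y) < ε) := by
  classical
  obtain ⟨V, hV, π, hπ, h0, h1, hD, hfib⟩ := hW
  set Bx : Finset (Fin k → ℤ) := Fintype.piFinset (fun _ => Finset.Ico (0 : ℤ) b) with hBx
  have hmem : ∀ w, w ∈ Bx ↔ ∀ i, 0 ≤ w i ∧ w i < (b : ℤ) := by
    intro w
    simp [hBx, Fintype.mem_piFinset]
  have hBne : Bx.Nonempty := ⟨0, (hmem 0).2 (fun i => ⟨le_rfl, by simp; omega⟩)⟩
  set d : X → X → ℝ := fun x y => Bx.sup' hBne (fun w => dist (w +ᵥ x) (w +ᵥ y)) with hd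
  have hdc : Continuous (fun p : X × X => d p.1 p.2) := by
    simp only [hd]
    refine Continuous.finset_sup'_apply hBne (fun w _ => ?_)
    exact ((hact w).comp continuous_fst).dist ((hact w).comp continuous_snd)
  have hlt : ∀ x y, d x y < ε ↔ ∀ w : Fin k → ℤ, (∀ i, 0 ≤ w i ∧ w i < (b : ℤ)) →
      dist (w +ᵥ x) (w +ᵥ y) < ε := by
    intro x y
    simp only [hd]
    rw [Finset.sup'_lt_iff]
    simp only [hmem]
  obtain ⟨W, hWf, ρ, r1, r2, r3, r4, r5⟩ := exists_small_stars π hπ h0 h1 (D + 1) hD d hdc ε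
    (fun x y h => (hlt x y).2 (hfib x y h))
  exact ⟨W, hWf, ρ, r1, r2, r3, r4, fun x y e hx hy => (hlt x y).1 (r5 x y e hx hy)⟩

lemma exists_c0 {k : ℕ} {a : (Fin k → ℤ) → ℂ} (ha : IsMKer a) :
    ∃ c0 : ℝ, 0 ≤ c0 ∧ c0 < 1 ∧ ∀ w : Fin k → ℤ, w ≠ 0 → ‖a w‖ ≤ c0 := by
  classical
  have h1 : Tendsto (fun w => ‖a w‖) cofinite (𝓝 0) := ha.summable.tendsto_cofinite_zero
  have h2 : ∀ᶠ w in cofinite, ‖a w‖ < 1 / 2 := h1.eventually_lt_const (by norm_num)
  have h3 : {w | ¬ ‖a w‖ < 1 / 2}.Finite := h2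
  set T := h3.toFinset.erase 0 with hT
  by_cases hne : T.Nonempty
  · refine ⟨max (1 / 2) (T.sup' hne (fun w => ‖a w‖)), by positivity, ?_, ?_⟩
    · rw [max_lt_iff]
      refine ⟨by norm_num, ?_⟩
      rw [Finset.sup'_lt_iff]
      intro w hw
      exact ha.lt_one w (Finset.mem_erase.1 hw).1
    · intro w hw
      by_cases h4 : ‖a w‖ < 1 / 2
      · exact h4.le.trans (le_max_left _ _)
      · have h5 : w ∈ T := Finset.mem_erase.2 ⟨hw, h3.mem_toFinset.2 h4⟩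
        exact (Finset.le_sup' (fun w => ‖a w‖) h5).trans (le_max_right _ _)
  · refine ⟨1 / 2, by norm_num, by norm_num, ?_⟩
    intro w hw
    by_contra h4
    apply hne
    exact ⟨w, Finset.mem_erase.2 ⟨hw, h3.mem_toFinset.2 (fun h => h4 h.le)⟩⟩

lemma dep_congr {k : ℕ} {X : Type*} [AddAction (Fin k → ℤ) X] {R : ℕ}
    (hne : (comp k R).Nonempty) {g : X → ℝ} {x y : X}
    (h : ∀ s : Fin k → ℤ, g (s +ᵥ x) = g (s +ᵥ y)) (μ : ℝ) (n : Fin k → ℤ) (t : Fin k → ℝ) :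
    dep hne μ g (n +ᵥ x) t = dep hne μ g (n +ᵥ y) t := by
  have h1 : ∀ v, term μ g (n +ᵥ x) t v = term μ g (n +ᵥ y) t v := by
    intro v
    unfold term
    rw [h n, vadd_vadd, vadd_vadd, h (v + n)]
  apply le_antisymm
  · rw [dep_le_iff]
    intro v hv
    rw [h1]
    exact term_le_dep hne hv
  · rw [dep_le_iff]
    intro v hv
    rw [← h1]
    exact term_le_dep hne hv

lemma abs_cidx_le {k : ℕ} {b : ℕ} (hb : 1 ≤ b) (t : Fin k → ℝ) {C : ℝ} (ht : ‖t‖ ≤ C) (i : Fin k) :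
    |(cidx b t i : ℝ)| ≤ C + 1 := by
  have hb' : (1 : ℝ) ≤ b := by exact_mod_cast hb
  have h1 : |t i| ≤ C := (norm_le_pi_norm t i).trans ht
  have h2 := Int.floor_le (t i / b)
  have h3 := Int.lt_floor_add_one (t i / b)
  have h4 : |t i / b| ≤ C := by
    rw [abs_div, abs_of_pos (by linarith : (0 : ℝ) < b)]
    exact (div_le_self (abs_nonneg _) hb').trans h1
  rw [abs_le] at h4 ⊢
  unfold cidx
  constructor <;> linarith [h4.1, h4.2]

theorem level_exists {k : ℕ} (hk : 1 ≤ k) {X : Type*} [MetricSpace X] [CompactSpace X]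
    [AddAction (Fin k → ℤ) X] (hact : ∀ n : Fin k → ℤ, Continuous (fun x : X => n +ᵥ x))
    (hX : MarkerProperty k X) {m ℓ : ℕ} (hℓ : 1 ≤ ℓ) {θ : ℝ}
    (hθ : θ * (ℓ : ℝ) ^ k < m) (hdim : DimLE k X θ) {a : Fin m → (Fin k → ℤ) → ℂ}
    (ha : ∀ i, IsKer ℓ (a i)) {ℓ' : ℕ} (hℓ' : 1 ≤ ℓ') {a' a'' : (Fin k → ℤ) → ℂ}
    (ha' : IsKer ℓ' a') (ha'' : IsMKer a'') {ε : ℝ} (hε : 0 < ε) :
    LevelStatement X m a a' a'' ε := by
  classical
  have hk' : (1 : ℝ) ≤ k := by exact_mod_cast hk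
  obtain ⟨κ, hκ0, hκ1, hκ⟩ := exists_kappa hθ
  obtain ⟨b, D, hb, hW, hbD⟩ := exists_block hk hκ hdim hε
  have hb' : (1 : ℝ) ≤ b := by exact_mod_cast hb
  obtain ⟨W, hWf, ρ, hρc, hρ0, hρ1, hρD, hstar⟩ := exists_stars hact hb hW
  obtain ⟨q, P, hPc, hPε⟩ := exists_separating (X := X) hε
  -- constants of the main code
  obtain ⟨E0, hE0b, hE0⟩ : ∃ E0 : ℕ, 2 * b + 1 ≤ E0 ∧ ∀ i, tail (a i) E0 ≤ 1 / 2 := by
    choose e he using fun i => exists_tail_lt (ha i).summable (η := 1 / 2) (by norm_num)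
    refine ⟨2 * b + 1 + ∑ i, e i, by omega, fun i => he i _ ?_⟩
    have : e i ≤ ∑ i, e i := Finset.single_le_sum (f := e) (fun _ _ => Nat.zero_le _)
      (Finset.mem_univ i)
    omega
  have hE0b' : 2 * (b : ℝ) + 1 ≤ E0 := by exact_mod_cast hE0b
  set E2 : ℝ := ((E0 : ℝ) + 1 + ℓ) / (1 - κ) with hE2
  have h1κ : 0 < 1 - κ := by linarith
  have hE2eq : ((E0 : ℝ) + 1) + ℓ = (1 - κ) * E2 := by rw [hE2]; field_simp
  have hE2ge : (E0 : ℝ) ≤ E2 := by
    have h1 : (E0 : ℝ) + 1 + ℓ ≤ E2 := by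
      rw [hE2, le_div_iff₀ h1κ]
      have h2 : (0 : ℝ) ≤ (E0 : ℝ) + 1 + ℓ := by positivity
      nlinarith
    have h2 : (0 : ℝ) ≤ ℓ := Nat.cast_nonneg _
    linarith
  set E4 : ℝ := E2 + 1 with hE4
  have hE4pos : 0 < E4 := by
    have : (0 : ℝ) ≤ E0 := Nat.cast_nonneg _
    rw [hE4]; linarith
  obtain ⟨E3, hE3⟩ := exists_nat_ge ((k : ℝ) * (1 + E4))
  have hE3pos : 0 < E3 := by
    have h1 : (0 : ℝ) < k * (1 + E4) := by positivity
    exact_mod_cast h1.trans_le hE3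
  -- constants of the boundary code
  obtain ⟨E0', hE0'⟩ := exists_tail_lt ha'.summable (η := 1 / 2) (by norm_num)
  have htail' : tail a' E0' ≤ 1 / 2 := hE0' E0' le_rfl
  set Q : ℕ := 2 * k * E3 * (2 * ℓ') ^ k * q with hQ
  -- constants of the marker code
  obtain ⟨c0, hc00, hc01, hac⟩ := exists_c0 ha''
  obtain ⟨E1, hE1⟩ := exists_tail_lt ha''.summable (η := (1 - c0) / 2) (by linarith)
  have htail'' := hE1 E1 le_rfl
  obtain ⟨N1, hN1⟩ := exists_nat_gt (4 * (k : ℝ) * ((1 + (Q : ℝ)) / 2 + ℓ' + E0'))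
  set N : ℕ := max N1 (2 * E1 + 1) with hN
  obtain ⟨M, h, hm⟩ := exists_marker hact hX N
  -- boxes
  set RA : ℕ := k * M + 2 with hRA
  set Rq : ℕ := k * (M + 1) + RA + 2 with hRq
  set Rv : ℕ := b * Rq + b + ℓ with hRv
  set R : ℕ := 2 * ℓ * Rv + E0 + (2 * ℓ' * (RA + Q) + E0') + M + 1 + RA with hR
  have hR1 : 1 ≤ R := by omega
  have hne : (comp k R).Nonempty := comp_nonempty hk hR1
  have hRpos : (0 : ℝ) < R := by exact_mod_cast hR1
  set Γ : ℝ := 4 * k * R * (RA + N) with hΓ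
  have hΓ0 : 0 ≤ Γ := by positivity
  set gmax : ℝ := k * ((M : ℝ) + 1) ^ 2 + 2 * 1 * k * R with hgmax
  set G : ℝ := gmax + Γ + 1 with hG
  have hG0 : 0 < G := by positivity
  set g : X → ℝ := fun x => G * (1 - h x) with hg
  have hgc : Continuous g := continuous_const.mul (continuous_const.sub hm.cont)
  have hg0 : ∀ x, 0 ≤ g x := fun x => mul_nonneg hG0.le (by linarith [hm.le_one x])
  have hgM : ∀ x : X, ∃ n : Fin k → ℤ, (∀ i, |n i| ≤ (M : ℤ)) ∧ g (n +ᵥ x) = 0 := by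
    intro x
    obtain ⟨n, hn, hn'⟩ := hm.dense x
    exact ⟨n, hn, by simp [hg, hn']⟩
  have hNk : (0 : ℝ) ≤ N := Nat.cast_nonneg _
  have hNbig : (1 + (Q : ℝ)) / 2 - N / (4 * k) + ℓ' < -E0' := by
    have h1 : (N1 : ℝ) ≤ N := by exact_mod_cast le_max_left _ _
    have h2 : 4 * (k : ℝ) * ((1 + (Q : ℝ)) / 2 + ℓ' + E0') < N := hN1.trans_le h1
    have h3 : (1 + (Q : ℝ)) / 2 + ℓ' + E0' < N / (4 * k) := by
      rw [lt_div_iff₀ (by positivity)]
      linarith
    linarith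
  -- counting in the boundary layer
  have hcountB : ∀ (x : X) (A S : Finset (Fin k → ℤ)),
      (∀ s ∈ A, s ∈ ibox k RA ∧ -E4 < dep hne 1 g x (toR s) ∧ dep hne 1 g x (toR s) < 1) →
      (∀ v : Fin k → ℤ, v ∈ ibox k (RA + Q) →
        dep hne (1 / 2) g x (toR ((ℓ' : ℤ) • v)) < -E0' → v ∈ S) →
      Fintype.card (Fin q) * A.card ≤ S.card := by
    intro x A S hA hS
    rw [Fintype.card_fin]
    rcases A.eq_empty_or_nonempty with hAe | ⟨s, hs⟩
    · rw [hAe]; simp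
    obtain ⟨hs1, hs2, hs3⟩ := hA s hs
    have hsn : ‖toR s‖ ≤ (RA : ℝ) := by
      rw [pi_norm_le_iff_of_nonneg (Nat.cast_nonneg _)]
      intro i
      simp only [toR, Real.norm_eq_abs]
      exact_mod_cast mem_ibox.1 hs1 i
    have hgx : g x ≤ gmax := by
      have h1 := (cell_bound hk hne (μ := 1) zero_le_one hg0 hgM x (t := toR s) (by
        have h2 : ((RA + M + 1 : ℕ) : ℝ) ≤ R := by
          have : RA + M + 1 ≤ R := by omega
          exact_mod_cast this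
        push_cast at h2
        linarith) (ρ := 1) zero_le_one hs3.le).2
      rw [one_mul] at h1
      exact h1
    have hhx : 0 < h x := by
      by_contra hcon
      have h1 : h x = 0 := le_antisymm (not_lt.1 hcon) (hm.nonneg x)
      have h2 : g x = G := by simp [hg, h1]
      rw [h2, hG] at hgx
      linarith
    refine count_boundary (N := N) (Γ := Γ) (E4 := E4) (E3 := E3) (Q := Q) (RA := RA) hk hne x hE3
      hE3pos le_rfl hℓ' (by omega) hNk hΓ0 hNbig ?_ ?_ A S hA hS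
    · intro v hv
      by_cases hhv : 0 < h (v +ᵥ x)
      · left
        obtain ⟨i, hi⟩ := hm.sep x v (mem_comp.1 hv).1 hhx hhv
        exact ⟨i, by exact_mod_cast hi⟩
      · right
        have h1 : h (v +ᵥ x) = 0 := le_antisymm (not_lt.1 hhv) (hm.nonneg _)
        have h2 : g (v +ᵥ x) = G := by simp [hg, h1]
        rw [h2, hG]
        linarith
    · have h1 : Γ / (4 * k * R) = RA + N := by
        rw [hΓ]
        field_simp
      rw [h1]
      have h2 : (N : ℝ) / (4 * k) ≤ N := div_le_self hNk (by linarith)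
      have h3 : (0 : ℝ) ≤ RA := Nat.cast_nonneg _
      linarith
  obtain ⟨Y, hY⟩ := boundary_code (ε := ε) hact hne hgc P hPc hPε (RA := RA) (Q := Q) hℓ'
    (E4 := E4) ha' htail' (by omega) hcountB
  -- counting in the fat cells
  have hcountM : ∀ (x : X) (t0 : Fin k → ℤ), t0 ∈ ibox k RA → dep hne 1 g x (toR t0) ≤ -E2 →
      ∀ Bl Sa : Finset (Fin k → ℤ),
      (∀ q ∈ Bl, q ∈ ibox k Rq ∧ dep hne 1 g x (toR ((b : ℤ) • q)) < -(E0 : ℝ) + b + 1) →
      (∀ v ∈ ibox k Rv, dep hne 1 g x (toR ((ℓ : ℤ) • v)) ≤ -((E0 : ℝ) + 1) → v ∈ Sa) →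
      (D + 1) * Bl.card ≤ m * Sa.card := by
    intro x t0 ht0 hfat Bl Sa hBl hSa
    have h1 := count_main hne x hb hℓ (Rb := (b : ℝ) * Rq + b) hκ0 hκ1.le (toR t0) (by
        rw [pi_norm_le_iff_of_nonneg (by positivity)]
        intro i
        simp only [toR, Real.norm_eq_abs]
        have h2 : |(t0 i : ℝ)| ≤ RA := by exact_mod_cast mem_ibox.1 ht0 i
        have h3 : (RA : ℝ) ≤ Rq := by
          have : RA ≤ Rq := by omega
          exact_mod_cast this
        have h4 : (Rq : ℝ) ≤ b * Rq := le_mul_of_one_le_left (Nat.cast_nonneg _) hb'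
        linarith) hfat hE2eq.le Bl Sa (by
        intro q hq t ht
        obtain ⟨hq1, hq2⟩ := hBl q hq
        rw [mem_hcube] at ht
        constructor
        · rw [pi_norm_le_iff_of_nonneg (by positivity)]
          intro i
          rw [Real.norm_eq_abs, abs_le]
          have h2 : |(q i : ℝ)| ≤ Rq := by exact_mod_cast mem_ibox.1 hq1 i
          rw [abs_le] at h2
          have h3 := ht i
          have h5 : (b : ℝ) * (q i : ℝ) ≤ b * Rq :=
            mul_le_mul_of_nonneg_left h2.2 (Nat.cast_nonneg b)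
          have h6 : (b : ℝ) * (-(Rq : ℝ)) ≤ b * (q i : ℝ) :=
            mul_le_mul_of_nonneg_left h2.1 (Nat.cast_nonneg b)
          have h7 : (b : ℝ) * (-(Rq : ℝ)) = -(b * Rq) := by ring
          rw [h7] at h6
          constructor
          · linarith only [h6, h3.1]
          · linarith only [h5, h3.2]
        · have h2 := dep_lipschitz (μ := 1) (g := g) (x := x) hne (toR ((b : ℤ) • q)) t
          have h3 : ‖t - toR ((b : ℤ) • q)‖ ≤ b := by
            rw [pi_norm_le_iff_of_nonneg (Nat.cast_nonneg _)]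
            intro i
            simp only [toR, Pi.sub_apply, Pi.smul_apply, smul_eq_mul, Int.cast_mul,
              Int.cast_natCast, Real.norm_eq_abs]
            rw [abs_le]
            have h3 := ht i
            constructor <;> linarith [h3.1, h3.2]
          linarith) (by
        intro v hv1 hv2
        refine hSa v ?_ hv2
        rw [mem_ibox]
        intro i
        have h2 : |((ℓ : ℤ) * v i : ℝ)| ≤ (b : ℝ) * Rq + b + ℓ := by
          refine le_trans ?_ hv1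
          have := norm_le_pi_norm (toR ((ℓ : ℤ) • v)) i
          simpa [toR] using this
        have h3 : (1 : ℝ) ≤ ℓ := by exact_mod_cast hℓ
        have h4 : |(v i : ℝ)| ≤ |((ℓ : ℤ) * v i : ℝ)| := by
          rw [abs_mul]
          have : (1 : ℝ) ≤ |((ℓ : ℤ) : ℝ)| := by
            rw [Int.cast_natCast, Nat.abs_cast]; exact h3
          exact le_mul_of_one_le_left (abs_nonneg _) this
        have h5 : |(v i : ℝ)| ≤ (Rv : ℝ) := by
          rw [hRv]
          push_cast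
          linarith
        exact_mod_cast h5)
    have hℓpos : (0 : ℝ) < (ℓ : ℝ) ^ k := by
      have : (0 : ℝ) < ℓ := by exact_mod_cast hℓ
      positivity
    have h2 : (((D : ℝ) + 1) * Bl.card) * (ℓ : ℝ) ^ k ≤ (m * Sa.card) * (ℓ : ℝ) ^ k := by
      calc (((D : ℝ) + 1) * Bl.card) * (ℓ : ℝ) ^ k
          = (((D : ℝ) + 1) * (ℓ : ℝ) ^ k) * Bl.card := by ring
        _ ≤ (m * κ ^ k * (b : ℝ) ^ k) * Bl.card :=
            mul_le_mul_of_nonneg_right hbD (Nat.cast_nonneg _)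
        _ = m * (κ ^ k * (Bl.card * (b : ℝ) ^ k)) := by ring
        _ ≤ m * (Sa.card * (ℓ : ℝ) ^ k) := mul_le_mul_of_nonneg_left h1 (Nat.cast_nonneg _)
        _ = (m * Sa.card) * (ℓ : ℝ) ^ k := by ring
    have h3 := le_of_mul_le_mul_right h2 hℓpos
    exact_mod_cast h3
  refine ⟨Y, ⟨fun z => (h z : ℂ), Complex.continuous_ofReal.comp hm.cont⟩, ?_⟩
  intro A δ hδ hmod
  obtain ⟨A', hA', hdec⟩ := main_code hact hne hgc ρ hρc hρ0 hρ1 hρD (Rq := Rq) (Rv := Rv)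
    (RA := RA) hb hℓ hstar ha hE0 (by omega) (by
      intro x v hv hd
      have hℓv : ‖toR ((ℓ : ℤ) • v)‖ ≤ (ℓ : ℝ) * Rv := by
        rw [pi_norm_le_iff_of_nonneg (by positivity)]
        intro i
        simp only [toR, Pi.smul_apply, smul_eq_mul, Int.cast_mul, Int.cast_natCast,
          Real.norm_eq_abs]
        rw [abs_mul, Nat.abs_cast]
        refine mul_le_mul_of_nonneg_left ?_ (Nat.cast_nonneg _)
        exact_mod_cast mem_ibox.1 hv i
      have h1 := (cell_bound hk hne (μ := 1) zero_le_one hg0 hgM x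
        (t := toR ((ℓ : ℤ) • v)) (by
        have h2 : ((ℓ * Rv + M + 1 : ℕ) : ℝ) ≤ R := by
          have h3 : ℓ * Rv + M + 1 ≤ R := by
            have : ℓ * Rv ≤ 2 * ℓ * Rv := by nlinarith
            omega
          exact_mod_cast h3
        push_cast at h2
        linarith) (ρ := 0) le_rfl (by
          have : (0 : ℝ) ≤ E0 := Nat.cast_nonneg _
          linarith)).1
      rw [mem_ibox]
      intro i
      have h2 := abs_cidx_le hb _ h1 i
      have h3 : (k : ℝ) * (M + 1) + 2 * k * 0 + 1 ≤ (Rq : ℝ) := by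
        rw [hRq]
        push_cast
        have : (0 : ℝ) ≤ RA := Nat.cast_nonneg _
        linarith
      exact_mod_cast h2.trans h3) hE2ge (by
      intro n0 hn0
      rw [mem_ibox]
      intro i
      have h1 : ‖toR n0‖ ≤ (RA : ℝ) := by
        rw [pi_norm_le_iff_of_nonneg (Nat.cast_nonneg _)]
        intro i
        simp only [toR, Real.norm_eq_abs]
        exact_mod_cast mem_ibox.1 hn0 i
      have h2 := abs_cidx_le hb _ h1 i
      have h3 : (RA : ℝ) + 1 ≤ (Rq : ℝ) := by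
        rw [hRq]
        push_cast
        have : (0 : ℝ) ≤ (k : ℝ) * (M + 1) := by positivity
        linarith
      exact_mod_cast h2.trans h3) hcountM A hδ hmod
  refine ⟨A', hA', ?_⟩
  intro x y hc1 hc2 hc3
  -- the marker functions agree
  have hh : ∀ s : Fin k → ℤ, h (s +ᵥ x) = h (s +ᵥ y) :=
    marker_decode hm ha''.summable ha''.zero hc00 hac (E1 := E1) (by
      have : 2 * E1 + 1 ≤ N := le_max_right _ _
      omega) (by linarith) hc3
  have hgg : ∀ s : Fin k → ℤ, g (s +ᵥ x) = g (s +ᵥ y) := by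
    intro s
    simp only [hg, hh]
  have hdep := dep_congr hne hgg
  obtain ⟨n, hn1, hn2⟩ := exists_cell hk hne (μ := 1) zero_le_one hg0 hgM x
  have hn0 : -n ∈ ibox k RA := by
    rw [mem_ibox]
    intro i
    rw [Pi.neg_apply, abs_neg]
    refine (hn1 i).trans ?_
    have : k * M ≤ RA := by omega
    exact_mod_cast this
  have hfinal : dist (-n +ᵥ (n +ᵥ x)) (-n +ᵥ (n +ᵥ y)) < ε := by
    by_cases hcase : dep hne 1 g (n +ᵥ x) (toR (-n)) ≤ -E2
    · exact hdec x y (hdep 1) hc1 n (-n) hn0 hcase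
    · refine hY x y hdep hc2 n (-n) hn0 ?_ ?_
      · push Not at hcase
        rw [hE4]
        linarith
      · linarith
  rwa [neg_vadd_vadd, neg_vadd_vadd] at hfinal

end BandLim48
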