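import Pool.Agent.Lib.BandLim48.Assembly
import Pool.Agent.Lib.BandLim48.Level

/-! The embedding theorem. -/

set_option autoImplicit false

open MeasureTheory Topology Filter Set
open scoped SchwartzMap FourierTransform ENNReal

namespace BandLim48

/-- The `n`-th small cube inside `Cube c s`. -/
noncomputable def smallCorner {k : ℕ} (c : E k) (s : ℝ) (n : ℕ) : E k :=
  WithLp.toLp 2 (fun i => c i + s / 2 ^ (n + 1))

noncomputable def smallSide (s : ℝ) (n : ℕ) : ℝ := s / 2 ^ (n + 2)

lemma smallCube_subset {k : ℕ} (c : E k) {s : ℝ} (hs : 0 < s) (n : ℕ) :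
    Cube (smallCorner c s n) (smallSide s n) ⊆ Cube c s := by
  intro ξ hξ i
  have h1 : c i + s / 2 ^ (n + 1) ≤ ξ i := (hξ i).1
  have h2 : ξ i ≤ c i + s / 2 ^ (n + 1) + s / 2 ^ (n + 2) := (hξ i).2
  have h3 : 0 < s / 2 ^ (n + 1) := by positivity
  have h4 : s / 2 ^ (n + 1) ≤ s / 2 := by
    apply div_le_div_of_nonneg_left hs.le (by norm_num)
    calc (2 : ℝ) = 2 ^ 1 := by norm_num
      _ ≤ 2 ^ (n + 1) := pow_le_pow_right₀ (by norm_num) (by omega)
  have h5 : s / 2 ^ (n + 2) ≤ s / 2 := by
    apply div_le_div_of_nonneg_left hs.le (by norm_num)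
    calc (2 : ℝ) = 2 ^ 1 := by norm_num
      _ ≤ 2 ^ (n + 2) := pow_le_pow_right₀ (by norm_num) (by omega)
  constructor <;> linarith

/-- The embedding theorem for a set with large interior. -/
theorem embedding {k : ℕ} (hk : 1 ≤ k) {X : Type*} [MetricSpace X] [CompactSpace X]
    [AddAction (Fin k → ℤ) X] (hact : ∀ n : Fin k → ℤ, Continuous (fun x : X => n +ᵥ x))
    (hX : MarkerProperty k X) (Ω : Set (E k)) (hdim : mdim k X < volume (interior Ω)) :
    ∃ F : X → C(E k, ℂ), Continuous F ∧ Function.Injective F ∧ (∀ x, F x ∈ B1 Ω) ∧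
      ∀ (n : Fin k → ℤ) (x : X) (t : E k), F (n +ᵥ x) t = F x (t + iota n) := by
  classical
  obtain ⟨θ, hθ1, hθ2⟩ := exists_between hdim
  have hθtop : θ ≠ ∞ := (hθ2.trans_le le_top).ne
  obtain ⟨ℓ, s, m, c, hℓ, hℓs, hθm, hcΩ, hcd⟩ := exists_cubes hk (interior Ω) isOpen_interior θ hθ2
  have hs : 0 < s := by
    by_contra hcon
    have : (ℓ : ℝ) * s ≤ 0 := mul_nonpos_of_nonneg_of_nonpos (by positivity) (not_lt.1 hcon)
    linarith
  -- the main bands
  have hmain : ∀ i : Fin m, ∃ b : Band k, b.Q = Cube (c i.succ) s ∧ b.ℓ = ℓ :=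
    fun i => exists_band (c i.succ) s hs ℓ hℓs
  choose bm hbmQ hbml using hmain
  -- the small bands
  have hsmall : ∀ n : ℕ, ∃ b : Band k, b.Q = Cube (smallCorner (c 0) s n) (smallSide s n) := by
    intro n
    have h1 : 0 < smallSide s n := by unfold smallSide; positivity
    obtain ⟨N, hN⟩ := exists_nat_gt (1 / smallSide s n)
    rw [div_lt_iff₀ h1] at hN
    obtain ⟨b, hb, -⟩ := exists_band (smallCorner (c 0) s n) (smallSide s n) h1 N hN
    exact ⟨b, hb⟩
  choose bs hbsQ using hsmall
  let bd : Fin m ⊕ ℕ → Band k := Sum.elim bm bs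
  have hbsub : ∀ n, (bs n).Q ⊆ Cube (c 0) s := fun n => by
    rw [hbsQ n]; exact smallCube_subset (c 0) hs n
  let i₀ : Fin k := ⟨0, hk⟩
  -- separation
  have hsep : ∀ i, ∃ Z : Set (E k), IsClosed Z ∧ Disjoint (bd i).Q Z ∧
      ∀ j, j ≠ i → (bd j).Q ⊆ Z := by
    rintro (i | n)
    · refine ⟨Cube (c 0) s ∪ ⋃ i' ∈ (Finset.univ.erase i : Finset (Fin m)), Cube (c i'.succ) s,
        ?_, ?_, ?_⟩
      · refine (isCompact_Cube _ _).isClosed.union ?_
        exact isClosed_biUnion_finset fun i' _ => (isCompact_Cube _ _).isClosed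
      · show Disjoint (bm i).Q _
        rw [hbmQ i, Set.disjoint_union_right]
        refine ⟨hcd (Fin.succ_ne_zero i), ?_⟩
        simp only [Set.disjoint_iUnion_right]
        intro i' hi'
        exact hcd (fun h => (Finset.mem_erase.1 hi').1 (Fin.succ_injective _ h).symm)
      · rintro (j | n) hj
        · refine Set.subset_union_of_subset_right ?_ _
          show (bm j).Q ⊆ _
          rw [hbmQ j]
          have hji : j ≠ i := fun h => hj (by rw [h])
          exact Set.subset_biUnion_of_mem (u := fun i' : Fin m => Cube (c i'.succ) s)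
            (Finset.mem_coe.2 (Finset.mem_erase.2 ⟨hji, Finset.mem_univ _⟩))
        · exact Set.subset_union_of_subset_left (hbsub n) _
    · refine ⟨({ξ : E k | ξ i₀ ≤ c 0 i₀ + s / 2 ^ (n + 1) * (7 / 8)} ∪
        {ξ : E k | c 0 i₀ + s / 2 ^ n * (7 / 8) ≤ ξ i₀}) ∪ ⋃ i' : Fin m, Cube (c i'.succ) s,
        ?_, ?_, ?_⟩
      · refine ((isClosed_le (by fun_prop) continuous_const).union
          (isClosed_le continuous_const (by fun_prop))).union ?_
        exact isClosed_iUnion_of_finite fun i' => (isCompact_Cube _ _).isClosed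
      · show Disjoint (bs n).Q _
        have hp : 0 < s / 2 ^ n := by positivity
        have e1 : s / 2 ^ (n + 1) = s / 2 ^ n / 2 := by rw [pow_succ]; field_simp
        have e2 : s / 2 ^ (n + 2) = s / 2 ^ n / 4 := by rw [pow_add]; field_simp; norm_num
        rw [Set.disjoint_union_right, Set.disjoint_union_right]
        refine ⟨⟨?_, ?_⟩, ?_⟩
        · rw [Set.disjoint_left]
          intro ξ hξ h2
          rw [hbsQ n] at hξ
          have h1 : c 0 i₀ + s / 2 ^ (n + 1) ≤ ξ i₀ := (hξ i₀).1
          have h2' : ξ i₀ ≤ c 0 i₀ + s / 2 ^ (n + 1) * (7 / 8) := h2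
          rw [e1] at h1 h2'
          linarith
        · rw [Set.disjoint_left]
          intro ξ hξ h2
          rw [hbsQ n] at hξ
          have h1 : ξ i₀ ≤ c 0 i₀ + s / 2 ^ (n + 1) + s / 2 ^ (n + 2) := (hξ i₀).2
          have h2' : c 0 i₀ + s / 2 ^ n * (7 / 8) ≤ ξ i₀ := h2
          rw [e1, e2] at h1
          linarith
        · simp only [Set.disjoint_iUnion_right]
          intro i'
          exact (hcd (Fin.succ_ne_zero i').symm).mono_left (hbsub n)
      · rintro (j | n') hj
        · refine Set.subset_union_of_subset_right ?_ _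
          show (bm j).Q ⊆ _
          rw [hbmQ j]
          exact Set.subset_iUnion (fun i' : Fin m => Cube (c i'.succ) s) j
        · refine Set.subset_union_of_subset_left ?_ _
          show (bs n').Q ⊆ _
          rw [hbsQ n']
          have hn' : n' ≠ n := fun h => hj (by rw [h])
          rcases lt_or_gt_of_ne hn' with h | h
          · -- n' < n : the cube is far from the corner
            refine Set.subset_union_of_subset_right ?_ _
            intro ξ hξ
            have h1 : c 0 i₀ + s / 2 ^ (n' + 1) ≤ ξ i₀ := (hξ i₀).1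
            have h3 : s / 2 ^ n ≤ s / 2 ^ (n' + 1) :=
              div_le_div_of_nonneg_left hs.le (by positivity)
                (pow_le_pow_right₀ (by norm_num) (by omega))
            have hp : 0 < s / 2 ^ n := by positivity
            show c 0 i₀ + s / 2 ^ n * (7 / 8) ≤ ξ i₀
            linarith
          · refine Set.subset_union_of_subset_left ?_ _
            intro ξ hξ
            have h1 : ξ i₀ ≤ c 0 i₀ + s / 2 ^ (n' + 1) + s / 2 ^ (n' + 2) := (hξ i₀).2
            have h3 : s / 2 ^ (n' + 1) ≤ s / 2 ^ (n + 1) / 2 := by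
              have : s / 2 ^ (n + 1) / 2 = s / 2 ^ (n + 2) := by
                rw [pow_succ 2 (n + 1)]; field_simp
              rw [this]
              exact div_le_div_of_nonneg_left hs.le (by positivity)
                (pow_le_pow_right₀ (by norm_num) (by omega))
            have h4 : s / 2 ^ (n' + 2) = s / 2 ^ (n' + 1) / 2 := by
              rw [pow_succ 2 (n' + 1)]; field_simp
            have hp : 0 < s / 2 ^ (n + 1) := by positivity
            show ξ i₀ ≤ c 0 i₀ + s / 2 ^ (n + 1) * (7 / 8)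
            rw [h4] at h1
            linarith
  -- the inclusion in Ω
  have hΩ : ∀ i, (bd i).Q ⊆ Ω := by
    rintro (i | n)
    · show (bm i).Q ⊆ Ω
      rw [hbmQ i]
      exact (hcΩ _).trans interior_subset
    · exact (hbsub n).trans ((hcΩ 0).trans interior_subset)
  -- the discrete theorem
  have hθ0 : (0 : ℝ) ≤ θ.toReal := ENNReal.toReal_nonneg
  have hdimθ : DimLE k X θ.toReal :=
    dimLE_of_mdim_lt hθ0 (by rw [ENNReal.ofReal_toReal hθtop]; exact hθ1)
  have hθm' : θ.toReal * (ℓ : ℝ) ^ k < m := by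
    have h1 : θ * (ℓ : ℝ≥0∞) ^ k = ENNReal.ofReal (θ.toReal * (ℓ : ℝ) ^ k) := by
      rw [ENNReal.ofReal_mul hθ0, ENNReal.ofReal_toReal hθtop, ENNReal.ofReal_pow (by positivity),
        ENNReal.ofReal_natCast]
    rw [h1] at hθm
    rw [← ENNReal.ofReal_natCast] at hθm
    exact (ENNReal.ofReal_lt_ofReal_iff_of_nonneg (by positivity)).1 hθm
  have hlevel : ∀ j : ℕ, LevelStatement X m (fun i => (bm i).a) ((bs (2 * j)).a)
      ((bs (2 * j + 1)).a) (1 / ((j : ℝ) + 1)) := by
    intro j
    refine level_exists hk hact hX hℓ hθm' hdimθ (fun i => ?_) (bs (2 * j)).hℓ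
      (bs (2 * j)).isKer (bs (2 * j + 1)).isMKer (by positivity)
    rw [← hbml i]
    exact (bm i).isKer
  obtain ⟨A, Y, h, hAYh⟩ := discrete_embedding hact (a := fun i => (bm i).a)
    (fun i => (bm i).isKer.summable) (fun j => (bs (2 * j)).a) (fun j => (bs (2 * j + 1)).a)
    (fun j => (bs (2 * j)).isKer.summable) (fun j => (bs (2 * j + 1)).isKer.summable) hlevel
  let AA : Fin m ⊕ ℕ → C(X, ℂ) :=
    Sum.elim A (fun n => if n % 2 = 0 then Y (n / 2) else h (n / 2))
  refine assemble hact bd hsep Ω hΩ AA ?_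
  intro x y hxy
  refine hAYh x y (fun i s => hxy (Sum.inl i) s) (fun j s => ?_) (fun j s => ?_)
  · have := hxy (Sum.inr (2 * j)) s
    have e : AA (Sum.inr (2 * j)) = Y j := by
      show (if (2 * j) % 2 = 0 then Y ((2 * j) / 2) else h ((2 * j) / 2)) = Y j
      rw [if_pos (by omega)]
      congr 1
      omega
    rw [e] at this
    exact this
  · have := hxy (Sum.inr (2 * j + 1)) s
    have e : AA (Sum.inr (2 * j + 1)) = h j := by
      show (if (2 * j + 1) % 2 = 0 then Y ((2 * j + 1) / 2) else h ((2 * j + 1) / 2)) = h j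
      rw [if_neg (by omega)]
      congr 1
      omega
    rw [e] at this
    exact this

/-- The embedding theorem for compact semialgebraic sets. -/
theorem embedding_semialgebraic {k : ℕ} (hk : 1 ≤ k) {X : Type*} [MetricSpace X] [CompactSpace X]
    [AddAction (Fin k → ℤ) X] (hact : ∀ n : Fin k → ℤ, Continuous (fun x : X => n +ᵥ x))
    (hX : MarkerProperty k X) (Ω : Set (E k)) (_hΩc : IsCompact Ω) (hΩ : IsSemialgebraic Ω)
    (hdim : mdim k X < volume Ω) :
    ∃ F : X → C(E k, ℂ), Continuous F ∧ Function.Injective F ∧ (∀ x, F x ∈ B1 Ω) ∧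
      ∀ (n : Fin k → ℤ) (x : X) (t : E k), F (n +ᵥ x) t = F x (t + iota n) := by
  refine embedding hk hact hX Ω (hdim.trans_le ?_)
  have h1 : Ω ⊆ interior Ω ∪ frontier Ω := by
    rw [← closure_eq_interior_union_frontier]
    exact subset_closure
  calc volume Ω ≤ volume (interior Ω ∪ frontier Ω) := measure_mono h1
    _ ≤ volume (interior Ω) + volume (frontier Ω) := measure_union_le _ _
    _ = volume (interior Ω) := by rw [volume_frontier_semialgebraic hΩ, add_zero]

end BandLim48
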