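import Pool.Agent.Lib.BandLim48.Boundary
import Pool.Agent.Lib.BandLim48.Count

/-! The code in the main bands. -/

set_option autoImplicit false

open Topology Filter Set

namespace BandLim48

variable {k : ℕ} {X : Type*} [MetricSpace X] [CompactSpace X] [AddAction (Fin k → ℤ) X]

/-- The weight of the block `q`. -/
noncomputable def chim {R : ℕ} (hne : (comp k R).Nonempty) (g : X → ℝ) (b E0 : ℕ)
    (q : Fin k → ℤ) (x : X) : ℝ :=
  max 0 (min 1 (-(E0 : ℝ) + b + 1 - dep hne 1 g x (toR ((b : ℤ) • q))))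

omit [MetricSpace X] [CompactSpace X] in
lemma chim_nonneg {R : ℕ} (hne : (comp k R).Nonempty) (g : X → ℝ) (b E0 : ℕ)
    (q : Fin k → ℤ) (x : X) : 0 ≤ chim hne g b E0 q x := le_max_left _ _

omit [MetricSpace X] [CompactSpace X] in
lemma chim_le_one {R : ℕ} (hne : (comp k R).Nonempty) (g : X → ℝ) (b E0 : ℕ)
    (q : Fin k → ℤ) (x : X) : chim hne g b E0 q x ≤ 1 :=
  max_le zero_le_one (min_le_left _ _)

omit [MetricSpace X] [CompactSpace X] in
lemma chim_pos {R : ℕ} (hne : (comp k R).Nonempty) (g : X → ℝ) (b E0 : ℕ)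
    (q : Fin k → ℤ) (x : X) (h : 0 < chim hne g b E0 q x) :
    dep hne 1 g x (toR ((b : ℤ) • q)) < -(E0 : ℝ) + b + 1 := by
  unfold chim at h
  rw [lt_max_iff, lt_min_iff] at h
  rcases h with h | ⟨-, h⟩
  · exact absurd h (lt_irrefl _)
  · linarith

omit [MetricSpace X] [CompactSpace X] in
lemma chim_eq_one {R : ℕ} (hne : (comp k R).Nonempty) (g : X → ℝ) (b E0 : ℕ)
    (q : Fin k → ℤ) (x : X) (h : dep hne 1 g x (toR ((b : ℤ) • q)) ≤ -(E0 : ℝ) + b) :
    chim hne g b E0 q x = 1 := by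
  unfold chim
  rw [min_eq_left (by linarith)]
  exact max_eq_right zero_le_one

omit [CompactSpace X] in
lemma continuous_chim {R : ℕ} (hne : (comp k R).Nonempty) {g : X → ℝ} (hg : Continuous g)
    (hact : ∀ n : Fin k → ℤ, Continuous (fun x : X => n +ᵥ x)) (b E0 : ℕ) (q : Fin k → ℤ) :
    Continuous (chim hne g b E0 q) := by
  unfold chim
  have h1 := continuous_dep_left (μ := 1) hne hg hact (toR ((b : ℤ) • q))
  exact continuous_const.max (continuous_const.min (continuous_const.sub h1))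

omit [MetricSpace X] [CompactSpace X] in
/-- The block containing a sample point is almost as deep as the sample point. -/
lemma dep_block_le {R : ℕ} (hne : (comp k R).Nonempty) (g : X → ℝ) {b : ℕ} (hb : 1 ≤ b)
    (t : Fin k → ℝ) (x : X) :
    dep hne 1 g x (toR ((b : ℤ) • cidx b t)) ≤ dep hne 1 g x t + b := by
  have h1 := dep_lipschitz (μ := 1) (g := g) (x := x) hne t (toR ((b : ℤ) • cidx b t))
  have h2 := norm_sub_cidx hb t
  linarith

lemma cidx_sub_mem {b : ℕ} (hb : 1 ≤ b) (n : Fin k → ℤ) (i : Fin k) :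
    0 ≤ (n - (b : ℤ) • cidx b (toR n)) i ∧ (n - (b : ℤ) • cidx b (toR n)) i < (b : ℤ) := by
  have h := (mem_hcube.1 (mem_hcube_cidx hb (toR n))) i
  simp only [toR] at h
  obtain ⟨h1, h2⟩ := h
  have h1' : (b : ℤ) * cidx b (toR n) i ≤ n i := by exact_mod_cast h1
  have h2' : n i < (b : ℤ) * cidx b (toR n) i + b := by exact_mod_cast h2
  simp only [Pi.sub_apply, Pi.smul_apply, smul_eq_mul]
  constructor <;> linarith

lemma main_code (hact : ∀ n : Fin k → ℤ, Continuous (fun x : X => n +ᵥ x)) {R : ℕ}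
    (hne : (comp k R).Nonempty) {g : X → ℝ} (hg : Continuous g) {ε : ℝ}
    {W : Type} [Fintype W] [DecidableEq W] (ρ : X → W → ℝ) (hρc : Continuous ρ)
    (hρ0 : ∀ x e, 0 ≤ ρ x e) (hρ1 : ∀ x, ∑ e, ρ x e = 1) {D : ℕ}
    (hρD : ∀ x, (Finset.univ.filter (fun e => ρ x e ≠ 0)).card ≤ D + 1)
    {b ℓ E0 Rq Rv RA : ℕ} (hb : 1 ≤ b) (hℓ : 1 ≤ ℓ)
    (hstar : ∀ x y e, ρ x e ≠ 0 → ρ y e ≠ 0 → ∀ w : Fin k → ℤ,
      (∀ i, 0 ≤ w i ∧ w i < (b : ℤ)) → dist (w +ᵥ x) (w +ᵥ y) < ε)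
    {m : ℕ} {a : Fin m → (Fin k → ℤ) → ℂ} (ha : ∀ i, IsKer ℓ (a i))
    (htail : ∀ i, tail (a i) E0 ≤ 1 / 2) (hR : 2 * ℓ * Rv + E0 ≤ R)
    (hbox : ∀ (x : X) (v : Fin k → ℤ), v ∈ ibox k Rv →
      dep hne 1 g x (toR ((ℓ : ℤ) • v)) < -E0 → cidx b (toR ((ℓ : ℤ) • v)) ∈ ibox k Rq)
    {E2 : ℝ} (hE2 : (E0 : ℝ) ≤ E2)
    (hRq : ∀ n0 : Fin k → ℤ, n0 ∈ ibox k RA → cidx b (toR n0) ∈ ibox k Rq)
    (hcount : ∀ (x : X) (t0 : Fin k → ℤ), t0 ∈ ibox k RA → dep hne 1 g x (toR t0) ≤ -E2 →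
      ∀ Bl Sa : Finset (Fin k → ℤ),
      (∀ q ∈ Bl, q ∈ ibox k Rq ∧ dep hne 1 g x (toR ((b : ℤ) • q)) < -(E0 : ℝ) + b + 1) →
      (∀ v ∈ ibox k Rv, dep hne 1 g x (toR ((ℓ : ℤ) • v)) ≤ -((E0 : ℝ) + 1) → v ∈ Sa) →
      (D + 1) * Bl.card ≤ m * Sa.card)
    (A : Fin m → C(X, ℂ)) {δ : ℝ} (hδ : 0 < δ)
    (hmod : ∀ i x y, dist x y < ε → ‖conv (a i) (A i) x - conv (a i) (A i) y‖ ≤ δ) :
    ∃ A' : Fin m → C(X, ℂ), (∀ i, ‖A' i‖ ≤ 4 * δ) ∧ ∀ x y : X,
      (∀ (n : Fin k → ℤ) (t : Fin k → ℝ), dep hne 1 g (n +ᵥ x) t = dep hne 1 g (n +ᵥ y) t) →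
      (∀ i (s : Fin k → ℤ), conv (a i) (⇑(A i + A' i)) (s +ᵥ x)
        = conv (a i) (⇑(A i + A' i)) (s +ᵥ y)) →
      ∀ n n0 : Fin k → ℤ, n0 ∈ ibox k RA → dep hne 1 g (n +ᵥ x) (toR n0) ≤ -E2 →
        dist (n0 +ᵥ (n +ᵥ x)) (n0 +ᵥ (n +ᵥ y)) < ε := by
  classical
  rcases isEmpty_or_nonempty X with hX | hX
  · exact ⟨fun _ => 0, fun i => by rw [norm_zero]; positivity, fun x => (hX.false x).elim⟩
  -- representatives of the stars
  have hxe : ∀ e : W, ∃ z : X, (∃ x, ρ x e ≠ 0) → ρ z e ≠ 0 := by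
    intro e
    by_cases h : ∃ x, ρ x e ≠ 0
    · obtain ⟨x, hx⟩ := h
      exact ⟨x, fun _ => hx⟩
    · exact ⟨Classical.arbitrary X, fun h' => absurd h' h⟩
  choose xe hxe using hxe
  set V : Type := {v : Fin k → ℤ // v ∈ ibox k Rv} with hV
  set J : Type := {q : Fin k → ℤ // q ∈ ibox k Rq} × W with hJ
  set I : Type := (Fin m × V) × Bool with hI
  set Fv : Fin m → (Fin k → ℤ) → J → ℂ := fun i v j =>
    if j.1.1 = cidx b (toR ((ℓ : ℤ) • v)) then
      conv (a i) (A i) (((ℓ : ℤ) • v - (b : ℤ) • j.1.1) +ᵥ xe j.2) else 0 with hFv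
  set η : ℝ := δ / (2 * ((ibox k Rq).card + 1)) with hη
  have hη0 : 0 < η := by positivity
  obtain ⟨L, hL1, hL2⟩ := exists_generic_matrix (I := I) (J := J)
    (fun p j => if p.2 then (Fv p.1.1 p.1.2.1 j).re else (Fv p.1.1 p.1.2.1 j).im) η hη0
  set Lc : Fin m → (Fin k → ℤ) → J → ℂ := fun i v j =>
    if h : v ∈ ibox k Rv then
      ((L ((i, ⟨v, h⟩), true) j : ℂ) + (L ((i, ⟨v, h⟩), false) j : ℂ) * Complex.I) else 0 with hLc
  have hLcF : ∀ i v, v ∈ ibox k Rv → ∀ j, ‖Lc i v j - Fv i v j‖ ≤ 2 * η := by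
    intro i v hv j
    simp only [hLc]
    rw [dif_pos hv]
    have h1 := hL1 ((i, ⟨v, hv⟩), true) j
    have h2 := hL1 ((i, ⟨v, hv⟩), false) j
    simp only [if_true] at h1
    simp only [Bool.false_eq_true, if_false] at h2
    have h3 : (L ((i, ⟨v, hv⟩), true) j : ℂ) + (L ((i, ⟨v, hv⟩), false) j : ℂ) * Complex.I
        - Fv i v j = ((L ((i, ⟨v, hv⟩), true) j - (Fv i v j).re : ℝ) : ℂ)
          + ((L ((i, ⟨v, hv⟩), false) j - (Fv i v j).im : ℝ) : ℂ) * Complex.I := by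
      conv_lhs => rw [← Complex.re_add_im (Fv i v j)]
      push_cast
      ring
    rw [h3]
    refine (norm_add_le _ _).trans ?_
    rw [norm_mul, Complex.norm_I, mul_one, Complex.norm_real, Complex.norm_real,
      Real.norm_eq_abs, Real.norm_eq_abs]
    linarith
  set T : X → J → ℝ := fun x j => chim hne g b E0 j.1.1 x * ρ (((b : ℤ) • j.1.1) +ᵥ x) j.2 with hT
  have hTc : ∀ j, Continuous (fun x => T x j) := by
    intro j
    simp only [hT]
    refine (continuous_chim hne hg hact b E0 _).mul ?_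
    exact (continuous_apply j.2).comp (hρc.comp (hact _))
  have hT0 : ∀ x j, 0 ≤ T x j := fun x j => mul_nonneg (chim_nonneg _ _ _ _ _ _) (hρ0 _ _)
  have hTsum : ∀ x, ∑ j, T x j ≤ (ibox k Rq).card := by
    intro x
    rw [Fintype.sum_prod_type]
    calc ∑ q : {q : Fin k → ℤ // q ∈ ibox k Rq}, ∑ e : W, T x (q, e)
        ≤ ∑ q : {q : Fin k → ℤ // q ∈ ibox k Rq}, (1 : ℝ) := by
          refine Finset.sum_le_sum (fun q _ => ?_)
          simp only [hT]
          rw [← Finset.mul_sum, hρ1, mul_one]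
          exact chim_le_one _ _ _ _ _ _
      _ = (ibox k Rq).card := by simp
  set zf : Fin m → (Fin k → ℤ) → X → ℂ := fun i v x => ∑ j, Lc i v j * (T x j : ℂ) with hzf
  have hzc : ∀ i v, Continuous (zf i v) := by
    intro i v
    simp only [hzf]
    refine continuous_finsetSum _ (fun j _ => ?_)
    exact continuous_const.mul (Complex.continuous_ofReal.comp (hTc j))
  have hconvc : ∀ i, Continuous (conv (a i) (A i)) := fun i =>
    continuous_conv hact (ha i).summable (A i).continuous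
  have hR' : 2 * ℓ * Rv ≤ R := by omega
  -- approximation property
  have happrox : ∀ i v, v ∈ ibox k Rv → ∀ x : X, 0 < gam hne 1 g ℓ E0 v x →
      ‖zf i v x - conv (a i) (A i) (((ℓ : ℤ) • v) +ᵥ x)‖ ≤ 2 * δ := by
    intro i v hv x hpos
    have hd := (gam_pos_iff hne 1 g ℓ E0).1 hpos
    set q0 := cidx b (toR ((ℓ : ℤ) • v)) with hq0
    have hq0b : q0 ∈ ibox k Rq := hbox x v hv hd
    have hchi : chim hne g b E0 q0 x = 1 := by
      apply chim_eq_one
      have := dep_block_le hne g hb (toR ((ℓ : ℤ) • v)) x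
      linarith
    have h1 : ∑ j, Fv i v j * (T x j : ℂ)
        = ∑ e : W, conv (a i) (A i) (((ℓ : ℤ) • v - (b : ℤ) • q0) +ᵥ xe e)
          * (ρ (((b : ℤ) • q0) +ᵥ x) e : ℂ) := by
      rw [Fintype.sum_prod_type, Finset.sum_eq_single (⟨q0, hq0b⟩ :
        {q : Fin k → ℤ // q ∈ ibox k Rq})]
      · refine Finset.sum_congr rfl (fun e _ => ?_)
        simp only [hFv, hT]
        rw [if_pos hq0, hchi, one_mul]
      · intro q _ hq
        refine Finset.sum_eq_zero (fun e _ => ?_)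
        simp only [hFv]
        rw [if_neg (fun h => hq (Subtype.ext h)), zero_mul]
      · intro h; exact absurd (Finset.mem_univ _) h
    have h2 : ‖∑ j, Fv i v j * (T x j : ℂ) - conv (a i) (A i) (((ℓ : ℤ) • v) +ᵥ x)‖ ≤ δ := by
      have h3 : conv (a i) (A i) (((ℓ : ℤ) • v) +ᵥ x)
          = ∑ e : W, conv (a i) (A i) (((ℓ : ℤ) • v) +ᵥ x) * (ρ (((b : ℤ) • q0) +ᵥ x) e : ℂ) := by
        rw [← Finset.mul_sum]
        have := hρ1 (((b : ℤ) • q0) +ᵥ x)
        rw [← Complex.ofReal_sum, this, Complex.ofReal_one, mul_one]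
      rw [h1, h3, ← Finset.sum_sub_distrib]
      calc ‖∑ e : W, (conv (a i) (A i) (((ℓ : ℤ) • v - (b : ℤ) • q0) +ᵥ xe e)
            * (ρ (((b : ℤ) • q0) +ᵥ x) e : ℂ)
            - conv (a i) (A i) (((ℓ : ℤ) • v) +ᵥ x) * (ρ (((b : ℤ) • q0) +ᵥ x) e : ℂ))‖
          ≤ ∑ e : W, δ * ρ (((b : ℤ) • q0) +ᵥ x) e := by
            refine (norm_sum_le _ _).trans (Finset.sum_le_sum (fun e _ => ?_))
            rw [← sub_mul, norm_mul, Complex.norm_real, Real.norm_of_nonneg (hρ0 _ _)]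
            by_cases he : ρ (((b : ℤ) • q0) +ᵥ x) e = 0
            · rw [he, mul_zero, mul_zero]
            · refine mul_le_mul_of_nonneg_right ?_ (hρ0 _ _)
              have h4 := hxe e ⟨_, he⟩
              have h5 := hstar (xe e) (((b : ℤ) • q0) +ᵥ x) e h4 he
                ((ℓ : ℤ) • v - (b : ℤ) • q0) (fun i => cidx_sub_mem hb _ i)
              rw [vadd_vadd _ _ x, sub_add_cancel] at h5
              exact hmod i _ _ h5
        _ = δ := by rw [← Finset.mul_sum, hρ1, mul_one]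
    have h3 : ‖zf i v x - ∑ j, Fv i v j * (T x j : ℂ)‖ ≤ δ := by
      simp only [hzf]
      rw [← Finset.sum_sub_distrib]
      calc ‖∑ j, (Lc i v j * (T x j : ℂ) - Fv i v j * (T x j : ℂ))‖
          ≤ ∑ j, 2 * η * T x j := by
            refine (norm_sum_le _ _).trans (Finset.sum_le_sum (fun j _ => ?_))
            rw [← sub_mul, norm_mul, Complex.norm_real, Real.norm_of_nonneg (hT0 _ _)]
            exact mul_le_mul_of_nonneg_right (hLcF i v hv j) (hT0 _ _)
        _ = 2 * η * ∑ j, T x j := by rw [Finset.mul_sum]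
        _ ≤ 2 * η * (ibox k Rq).card := mul_le_mul_of_nonneg_left (hTsum x) (by positivity)
        _ ≤ δ := by
            rw [hη]
            have hc : (0 : ℝ) ≤ (ibox k Rq).card := Nat.cast_nonneg _
            have hc' : (0 : ℝ) < (ibox k Rq).card + 1 := by positivity
            rw [mul_div_assoc', div_mul_eq_mul_div, div_le_iff₀ (by positivity)]
            nlinarith
    have h4 : zf i v x - conv (a i) (A i) (((ℓ : ℤ) • v) +ᵥ x)
        = (zf i v x - ∑ j, Fv i v j * (T x j : ℂ))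
          + (∑ j, Fv i v j * (T x j : ℂ) - conv (a i) (A i) (((ℓ : ℤ) • v) +ᵥ x)) := by ring
    rw [h4]
    refine (norm_add_le _ _).trans ?_
    linarith
  -- the targets
  set τf : Fin m → X → ℂ := fun i z => ∑ v ∈ ibox k Rv, (gat hne 1 g ℓ E0 v z : ℂ) *
    (zf i v (-((ℓ : ℤ) • v) +ᵥ z) - conv (a i) (A i) z) with hτf
  have hτc : ∀ i, Continuous (τf i) := by
    intro i
    simp only [hτf]
    refine continuous_finsetSum _ (fun v _ => ?_)
    refine Continuous.mul ?_ ?_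
    · exact Complex.continuous_ofReal.comp (continuous_gat hne 1 g ℓ E0 hg hact v)
    · exact ((hzc i v).comp (hact _)).sub (hconvc i)
  have hτval : ∀ i v, v ∈ ibox k Rv → ∀ z, 0 < gat hne 1 g ℓ E0 v z →
      τf i z = (gat hne 1 g ℓ E0 v z : ℂ) *
        (zf i v (-((ℓ : ℤ) • v) +ᵥ z) - conv (a i) (A i) z) := by
    intro i v hv z hpos
    exact sum_gat_mul hℓ hR' hv hpos (fun w => zf i w (-((ℓ : ℤ) • w) +ᵥ z) - conv (a i) (A i) z)
  have hτbound : ∀ i z, ‖τf i z‖ ≤ 2 * δ := by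
    intro i z
    by_cases hpos : 0 < gtot hne 1 g ℓ E0 Rv z
    · obtain ⟨v, hv, hv'⟩ := (gtot_pos_iff hne 1 g ℓ E0 Rv).1 hpos
      rw [hτval i v hv z hv', norm_mul, Complex.norm_real,
        Real.norm_of_nonneg (gat_nonneg hne 1 g ℓ E0 v z)]
      have h1 := happrox i v hv (-((ℓ : ℤ) • v) +ᵥ z) hv'
      rw [vadd_neg_vadd] at h1
      calc gat hne 1 g ℓ E0 v z * ‖zf i v (-((ℓ : ℤ) • v) +ᵥ z) - conv (a i) (A i) z‖
          ≤ 1 * (2 * δ) := mul_le_mul (gat_le_one hne 1 g ℓ E0 v z) h1 (norm_nonneg _) zero_le_one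
        _ = 2 * δ := one_mul _
    · have h0 : ∀ v ∈ ibox k Rv, gat hne 1 g ℓ E0 v z = 0 := by
        intro v hv
        by_contra hcon
        exact hpos ((gtot_pos_iff hne 1 g ℓ E0 Rv).2 ⟨v, hv,
          lt_of_le_of_ne (gat_nonneg hne 1 g ℓ E0 v z) (Ne.symm hcon)⟩)
      have h1 : τf i z = 0 := by
        simp only [hτf]
        refine Finset.sum_eq_zero (fun v hv => ?_)
        rw [h0 v hv]
        simp
      rw [h1, norm_zero]
      positivity
  have hcorr : ∀ i, ∃ A' : C(X, ℂ), ‖A'‖ ≤ 2 * (2 * δ) ∧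
      ∀ x, gtot hne 1 g ℓ E0 Rv x = 1 → conv (a i) A' x = τf i x := by
    intro i
    obtain ⟨A', h1, h2⟩ := exists_correction (hne := hne) (μ := 1) (ℓ := ℓ) (E0 := E0) (Rv := Rv)
      hg hact hℓ (ha i) hR (htail i) ⟨τf i, hτc i⟩ (δ := 2 * δ) (by
        rw [ContinuousMap.norm_le _ (by positivity)]
        exact hτbound i)
    exact ⟨A', h1, h2⟩
  choose A' hA'norm hA'val using hcorr
  refine ⟨A', fun i => by have := hA'norm i; linarith, ?_⟩
  intro x y hdep hconv n n0 hn0 hfat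
  set x' := n +ᵥ x with hx'
  set y' := n +ᵥ y with hy'
  have hdep' : ∀ t, dep hne 1 g x' t = dep hne 1 g y' t := fun t => hdep n t
  -- values of the signal at the samples of the cell
  have hval : ∀ (z : X) (i : Fin m) (v : Fin k → ℤ), v ∈ ibox k Rv →
      dep hne 1 g z (toR ((ℓ : ℤ) • v)) ≤ -((E0 : ℝ) + 1) →
      conv (a i) (⇑(A i + A' i)) (((ℓ : ℤ) • v) +ᵥ z) = zf i v z := by
    intro z i v hv hd
    have hg1 : gam hne 1 g ℓ E0 v z = 1 := gam_eq_one hne 1 g ℓ E0 hd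
    have e1 : gat hne 1 g ℓ E0 v (((ℓ : ℤ) • v) +ᵥ z) = 1 := by
      unfold gat
      rw [neg_vadd_vadd, hg1]
    have e1' : 0 < gat hne 1 g ℓ E0 v (((ℓ : ℤ) • v) +ᵥ z) := by rw [e1]; exact one_pos
    have e2 : gtot hne 1 g ℓ E0 Rv (((ℓ : ℤ) • v) +ᵥ z) = 1 := by
      rw [gtot_eq hℓ hR' hv e1', e1]
    have e3 := hA'val i _ e2
    have e4 := hτval i v hv _ e1'
    rw [e1, neg_vadd_vadd, Complex.ofReal_one, one_mul] at e4
    have e5 : conv (a i) (⇑(A i + A' i)) (((ℓ : ℤ) • v) +ᵥ z)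
        = conv (a i) (A i) (((ℓ : ℤ) • v) +ᵥ z) + conv (a i) (A' i) (((ℓ : ℤ) • v) +ᵥ z) :=
      conv_add (ha i).summable (fun w => (A i).norm_coe_le_norm w)
        (fun w => (A' i).norm_coe_le_norm w) _
    rw [e5, e3, e4]
    ring
  set Bl : Finset (Fin k → ℤ) := (ibox k Rq).filter (fun q => 0 < chim hne g b E0 q x') with hBl
  set Sa : Finset (Fin k → ℤ) := (ibox k Rv).filter
    (fun v => dep hne 1 g x' (toR ((ℓ : ℤ) • v)) ≤ -((E0 : ℝ) + 1)) with hSa
  have hcard := hcount x' n0 hn0 hfat Bl Sa (fun q hq => by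
    obtain ⟨h1, h2⟩ := Finset.mem_filter.1 hq
    exact ⟨h1, chim_pos hne g b E0 q x' h2⟩) (fun v hv1 hv2 => Finset.mem_filter.2 ⟨hv1, hv2⟩)
  have hzeq : ∀ i, ∀ v ∈ Sa, zf i v x' = zf i v y' := by
    intro i v hv
    obtain ⟨h1, h2⟩ := Finset.mem_filter.1 hv
    rw [← hval x' i v h1 h2, ← hval y' i v h1 (by rw [← hdep']; exact h2), hx', hy', vadd_vadd,
      vadd_vadd]
    exact hconv i _
  set u : J → ℝ := fun j => T x' j - T y' j with hu
  have hchi : ∀ q, chim hne g b E0 q x' = chim hne g b E0 q y' := by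
    intro q
    unfold chim
    rw [hdep']
  set SI : Finset I := Finset.univ.filter (fun p : I => p.1.2.1 ∈ Sa) with hSI
  have hSIcard : SI.card = 2 * (m * Sa.card) := by
    have h1 : SI.card = ((Finset.univ : Finset (Fin m × Bool)) ×ˢ Sa).card := by
      refine Finset.card_bij (fun p _ => ((p.1.1, p.2), p.1.2.1)) (fun p hp => ?_) ?_ ?_
      · exact Finset.mem_product.2 ⟨Finset.mem_univ _, (Finset.mem_filter.1 hp).2⟩
      · intro p _ p' _ h
        simp only [Prod.mk.injEq] at h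
        obtain ⟨⟨h1, h2⟩, h3⟩ := h
        exact Prod.ext (Prod.ext h1 (Subtype.ext h3)) h2
      · intro p hp
        have hp2 := (Finset.mem_product.1 hp).2
        refine ⟨((p.1.1, ⟨p.2, (Finset.mem_filter.1 hp2).1⟩), p.1.2), ?_, rfl⟩
        exact Finset.mem_filter.2 ⟨Finset.mem_univ _, hp2⟩
    rw [h1, Finset.card_product, Finset.card_univ, Fintype.card_prod, Fintype.card_fin,
      Fintype.card_bool]
    ring
  have hsupp : (Finset.univ.filter (fun j : J => u j ≠ 0)).card ≤ 2 * ((D + 1) * Bl.card) := by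
    set Sp : (Fin k → ℤ) → Finset W := fun q =>
      Finset.univ.filter (fun e => ρ (((b : ℤ) • q) +ᵥ x') e ≠ 0) ∪
      Finset.univ.filter (fun e => ρ (((b : ℤ) • q) +ᵥ y') e ≠ 0) with hSp
    have hSpcard : ∀ q, (Sp q).card ≤ 2 * (D + 1) := by
      intro q
      refine (Finset.card_union_le _ _).trans ?_
      have h1 := hρD (((b : ℤ) • q) +ᵥ x')
      have h2 := hρD (((b : ℤ) • q) +ᵥ y')
      omega
    have h3 : (Finset.univ.filter (fun j : J => u j ≠ 0)).card ≤ (Bl.sigma Sp).card := by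
      refine Finset.card_le_card_of_injOn
        (fun j => (⟨j.1.1, j.2⟩ : Sigma (fun _ : (Fin k → ℤ) => W))) (fun j hj => ?_) ?_
      · have hj' := (Finset.mem_filter.1 hj).2
        simp only [hu, hT] at hj'
        rw [← hchi, ← mul_sub] at hj'
        have h4 := left_ne_zero_of_mul hj'
        have h5 := right_ne_zero_of_mul hj'
        refine Finset.mem_coe.2 (Finset.mem_sigma.2 ⟨Finset.mem_filter.2 ⟨j.1.2, ?_⟩, ?_⟩)
        · exact lt_of_le_of_ne (chim_nonneg _ _ _ _ _ _) (Ne.symm h4)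
        · simp only [hSp, Finset.mem_union, Finset.mem_filter, Finset.mem_univ, true_and]
          by_contra hcon
          push Not at hcon
          apply h5
          rw [hcon.1, hcon.2, sub_zero]
      · intro j _ j' _ h
        simp only [Sigma.mk.injEq, heq_eq_eq] at h
        exact Prod.ext (Subtype.ext h.1) h.2
    refine h3.trans ?_
    rw [Finset.card_sigma]
    calc ∑ q ∈ Bl, (Sp q).card ≤ ∑ _q ∈ Bl, 2 * (D + 1) :=
          Finset.sum_le_sum (fun q _ => hSpcard q)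
      _ = 2 * ((D + 1) * Bl.card) := by
          rw [Finset.sum_const, smul_eq_mul]; ring
  have hu0 : u = 0 := by
    refine hL2 SI u (by rw [hSIcard]; omega) (fun p hp => ?_)
    have hpS : p.1.2.1 ∈ Sa := (Finset.mem_filter.1 hp).2
    have hpb : p.1.2.1 ∈ ibox k Rv := p.1.2.2
    have h3 := hzeq p.1.1 p.1.2.1 hpS
    simp only [hzf] at h3
    rw [← sub_eq_zero, ← Finset.sum_sub_distrib] at h3
    have h4 : ∀ j, Lc p.1.1 p.1.2.1 j * (T x' j : ℂ) - Lc p.1.1 p.1.2.1 j * (T y' j : ℂ)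
        = ((L (p.1, true) j * u j : ℝ) : ℂ) + ((L (p.1, false) j * u j : ℝ) : ℂ) * Complex.I := by
      intro j
      simp only [hLc, hu]
      rw [dif_pos hpb]
      push_cast
      ring
    simp only [h4] at h3
    rw [Finset.sum_add_distrib, ← Finset.sum_mul, ← Complex.ofReal_sum, ← Complex.ofReal_sum] at h3
    have h5 : (∑ j, L (p.1, true) j * u j) = 0 := by
      have := congrArg Complex.re h3
      simpa using this
    have h6 : (∑ j, L (p.1, false) j * u j) = 0 := by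
      have := congrArg Complex.im h3
      simpa using this
    obtain ⟨p1, p2⟩ := p
    cases p2
    · exact h6
    · exact h5
  -- conclusion
  set q0 := cidx b (toR n0) with hq0
  have hq0b : q0 ∈ ibox k Rq := hRq n0 hn0
  have hchi1 : chim hne g b E0 q0 x' = 1 := by
    apply chim_eq_one
    have := dep_block_le hne g hb (toR n0) x'
    linarith
  have hρeq : ∀ e, ρ (((b : ℤ) • q0) +ᵥ x') e = ρ (((b : ℤ) • q0) +ᵥ y') e := by
    intro e
    have h3 := congrFun hu0 (⟨⟨q0, hq0b⟩, e⟩ : J)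
    simp only [hu, hT, Pi.zero_apply] at h3
    rw [← hchi, hchi1, one_mul, one_mul] at h3
    exact sub_eq_zero.1 h3
  obtain ⟨e, he⟩ : ∃ e, ρ (((b : ℤ) • q0) +ᵥ x') e ≠ 0 := by
    by_contra hcon
    push Not at hcon
    have h3 := hρ1 (((b : ℤ) • q0) +ᵥ x')
    rw [Finset.sum_eq_zero (fun e _ => hcon e)] at h3
    exact zero_ne_one h3
  have h7 := hstar _ _ e he (by rw [← hρeq e]; exact he) (n0 - (b : ℤ) • q0)
    (fun i => cidx_sub_mem hb n0 i)
  rw [vadd_vadd _ _ x', vadd_vadd _ _ y', sub_add_cancel] at h7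
  exact h7

end BandLim48
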