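import Pool.Agent.Lib.BandLim48.Tile

/-! Marker functions from the marker property. -/

set_option autoImplicit false

open Topology Filter Set

namespace BandLim48

/-- The marker property. -/
def MarkerProperty (k : ℕ) (X : Type*) [TopologicalSpace X] [AddAction (Fin k → ℤ) X] : Prop :=
  ∀ N : ℕ, ∃ U : Set X, IsOpen U ∧
    (∀ n : Fin k → ℤ, n ≠ 0 → (∀ i, |n i| < (N : ℤ)) → U ∩ (fun x => n +ᵥ x) '' U = ∅) ∧
    (⋃ n : Fin k → ℤ, (fun x => n +ᵥ x) '' U) = Set.univ

lemma exists_marker {k : ℕ} {X : Type*} [TopologicalSpace X] [CompactSpace X] [T2Space X]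
    [AddAction (Fin k → ℤ) X] (hact : ∀ n : Fin k → ℤ, Continuous (fun x : X => n +ᵥ x))
    (hX : MarkerProperty k X) (N : ℕ) : ∃ (M : ℕ) (h : X → ℝ), IsMarker (k := k) N M h := by
  classical
  obtain ⟨U, hUo, hUs, hUc⟩ := hX N
  -- every point is moved into the interior of a closed subset of U
  have h1 : ∀ x : X, ∃ (n : Fin k → ℤ) (K : Set X), IsClosed K ∧ K ⊆ U ∧
      n +ᵥ x ∈ interior K := by
    intro x
    have hx : x ∈ ⋃ n : Fin k → ℤ, (fun x => n +ᵥ x) '' U := by rw [hUc]; exact mem_univ x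
    obtain ⟨n, y, hy, hyx⟩ := mem_iUnion.1 hx
    have hyx' : n +ᵥ y = x := hyx
    refine ⟨-n, ?_⟩
    have h2 : -n +ᵥ x = y := by rw [← hyx', neg_vadd_vadd]
    rw [h2]
    obtain ⟨K, hK, hKc, hKU⟩ := exists_mem_nhds_isClosed_subset (hUo.mem_nhds hy)
    exact ⟨K, hKc, hKU, mem_interior_iff_mem_nhds.2 hK⟩
  choose n K hKc hKU hxK using h1
  have hcov : ∀ x ∈ (univ : Set X), {y | n x +ᵥ y ∈ interior (K x)} ∈ 𝓝 x := by
    intro x _
    exact ((isOpen_interior.preimage (hact (n x))).mem_nhds (hxK x))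
  obtain ⟨T, -, hT⟩ := isCompact_univ.elim_nhds_subcover _ hcov
  set KK : Set X := ⋃ x ∈ T, K x with hKK
  have hKKc : IsClosed KK := isClosed_biUnion_finset (fun x _ => hKc x)
  have hKKU : KK ⊆ U := by
    intro y hy
    obtain ⟨x, -, hy⟩ := mem_iUnion₂.1 hy
    exact hKU x hy
  obtain ⟨f, hf0, hf1, hf01⟩ := exists_continuous_zero_one_of_isClosed
    (isClosed_compl_iff.2 hUo) hKKc (disjoint_left.2 (fun y hy hy' => hy (hKKU hy')))
  set M : ℕ := ∑ x ∈ T, ∑ i, (|n x i|).toNat with hM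
  refine ⟨M, fun x => f x, f.continuous, fun x => (hf01 x).1, fun x => (hf01 x).2, ?_, ?_⟩
  · intro x m hm hx hmx
    by_contra hcon
    push Not at hcon
    have hxU : x ∈ U := by
      by_contra h
      have := hf0 h
      simp only [Pi.zero_apply] at this
      linarith
    have hmxU : m +ᵥ x ∈ U := by
      by_contra h
      have := hf0 h
      simp only [Pi.zero_apply] at this
      linarith
    have := hUs m hm hcon
    have h3 : m +ᵥ x ∈ U ∩ (fun x => m +ᵥ x) '' U := ⟨hmxU, x, hxU, rfl⟩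
    rw [this] at h3
    exact h3
  · intro x
    have hx := hT (mem_univ x)
    obtain ⟨z, hz, hxz⟩ := mem_iUnion₂.1 hx
    refine ⟨n z, ?_, ?_⟩
    · intro i
      have h1 : (|n z i|).toNat ≤ ∑ i, (|n z i|).toNat :=
        Finset.single_le_sum (f := fun i => (|n z i|).toNat) (fun _ _ => Nat.zero_le _)
          (Finset.mem_univ i)
      have h2 : ∑ i, (|n z i|).toNat ≤ M :=
        Finset.single_le_sum (f := fun x => ∑ i, (|n x i|).toNat) (fun _ _ => Nat.zero_le _) hz
      have h3 : (|n z i|).toNat ≤ M := h1.trans h2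
      have h4 : |n z i| = ((|n z i|).toNat : ℤ) := (Int.toNat_of_nonneg (abs_nonneg _)).symm
      rw [h4]
      exact_mod_cast h3
    · have h1 : n z +ᵥ x ∈ KK := mem_biUnion (Finset.mem_coe.2 hz) (interior_subset hxz)
      exact hf1 h1

end BandLim48
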