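import Mathlib

/-! Power diagrams attached to a weighted marker function: the depth function of the cell of the
origin. -/

set_option autoImplicit false

open Topology Filter Set

namespace BandLim48

variable {k : ℕ}

/-- The scalar product of a real and an integer vector. -/
def dotv (t : Fin k → ℝ) (v : Fin k → ℤ) : ℝ := ∑ i, t i * (v i : ℝ)

/-- The square of the Euclidean length. -/
def sqv (v : Fin k → ℤ) : ℝ := ∑ i, (v i : ℝ) ^ 2

/-- The `l^1` length. -/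
def l1v (v : Fin k → ℤ) : ℝ := ∑ i, |(v i : ℝ)|

/-- The integer vectors with coordinates at most `R` in absolute value. -/
noncomputable def ibox (k : ℕ) (R : ℕ) : Finset (Fin k → ℤ) :=
  Fintype.piFinset (fun _ => Finset.Icc (-(R : ℤ)) (R : ℤ))

lemma mem_ibox {R : ℕ} {v : Fin k → ℤ} : v ∈ ibox k R ↔ ∀ i, |v i| ≤ (R : ℤ) := by
  simp [ibox, Fintype.mem_piFinset, abs_le]

/-- The set of competitors. -/
noncomputable def comp (k : ℕ) (R : ℕ) : Finset (Fin k → ℤ) := (ibox k R).erase 0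

lemma mem_comp {R : ℕ} {v : Fin k → ℤ} : v ∈ comp k R ↔ v ≠ 0 ∧ ∀ i, |v i| ≤ (R : ℤ) := by
  simp [comp, mem_ibox]

lemma comp_nonempty (hk : 1 ≤ k) {R : ℕ} (hR : 1 ≤ R) : (comp k R).Nonempty := by
  refine ⟨fun _ => 1, mem_comp.2 ⟨?_, ?_⟩⟩
  · intro h
    have := congrFun h ⟨0, hk⟩
    simp at this
  · intro i
    simp
    exact_mod_cast hR

lemma l1v_pos {v : Fin k → ℤ} (hv : v ≠ 0) : 0 < l1v v := by
  obtain ⟨i, hi⟩ : ∃ i, v i ≠ 0 := by
    by_contra h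
    push Not at h
    exact hv (funext h)
  refine Finset.sum_pos' (fun i _ => abs_nonneg _) ⟨i, Finset.mem_univ i, ?_⟩
  rw [abs_pos]
  exact_mod_cast hi

lemma one_le_l1v {v : Fin k → ℤ} (hv : v ≠ 0) : 1 ≤ l1v v := by
  obtain ⟨i, hi⟩ : ∃ i, v i ≠ 0 := by
    by_contra h
    push Not at h
    exact hv (funext h)
  have h1 : (1 : ℝ) ≤ |(v i : ℝ)| := by
    have : (1 : ℤ) ≤ |v i| := Int.one_le_abs hi
    exact_mod_cast this
  refine h1.trans ?_
  exact Finset.single_le_sum (f := fun i => |(v i : ℝ)|) (fun i _ => abs_nonneg _)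
    (Finset.mem_univ i)

lemma l1v_le {v : Fin k → ℤ} {R : ℝ} (h : ∀ i, |(v i : ℝ)| ≤ R) : l1v v ≤ k * R := by
  calc l1v v ≤ ∑ _i : Fin k, R := Finset.sum_le_sum (fun i _ => h i)
    _ = k * R := by simp

lemma abs_dotv_le (t : Fin k → ℝ) (v : Fin k → ℤ) : |dotv t v| ≤ ‖t‖ * l1v v := by
  calc |dotv t v| ≤ ∑ i, |t i * (v i : ℝ)| := Finset.abs_sum_le_sum_abs _ _
    _ ≤ ∑ i, ‖t‖ * |(v i : ℝ)| := by
        refine Finset.sum_le_sum (fun i _ => ?_)
        rw [abs_mul]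
        exact mul_le_mul_of_nonneg_right (norm_le_pi_norm t i) (abs_nonneg _)
    _ = ‖t‖ * l1v v := by rw [l1v, Finset.mul_sum]

lemma sqv_ge (hk : 1 ≤ k) {v : Fin k → ℤ} {N : ℝ} (hN : 0 ≤ N) (h : ∃ i, N ≤ |(v i : ℝ)|) :
    N / k * l1v v ≤ sqv v := by
  obtain ⟨i0, -, hi0⟩ := Finset.exists_max_image (Finset.univ : Finset (Fin k))
    (fun i => |(v i : ℝ)|) ⟨⟨0, hk⟩, Finset.mem_univ _⟩
  obtain ⟨i, hi⟩ := h
  have h1 : N ≤ |(v i0 : ℝ)| := hi.trans (hi0 i (Finset.mem_univ i))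
  have h2 : l1v v ≤ k * |(v i0 : ℝ)| := l1v_le (fun j => hi0 j (Finset.mem_univ j))
  have h3 : |(v i0 : ℝ)| ^ 2 ≤ sqv v := by
    rw [sq_abs]
    exact Finset.single_le_sum (f := fun i => (v i : ℝ) ^ 2) (fun i _ => sq_nonneg _)
      (Finset.mem_univ i0)
  have hk' : (0 : ℝ) < k := by exact_mod_cast hk
  calc N / k * l1v v ≤ N / k * (k * |(v i0 : ℝ)|) :=
        mul_le_mul_of_nonneg_left h2 (by positivity)
    _ = N * |(v i0 : ℝ)| := by field_simp
    _ ≤ |(v i0 : ℝ)| * |(v i0 : ℝ)| := mul_le_mul_of_nonneg_right h1 (abs_nonneg _)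
    _ = |(v i0 : ℝ)| ^ 2 := by ring
    _ ≤ sqv v := h3

variable {X : Type*} [AddAction (Fin k → ℤ) X]

/-- The (normalised) advantage of the competitor `v` over the origin at the point `t`. -/
noncomputable def term (μ : ℝ) (g : X → ℝ) (x : X) (t : Fin k → ℝ) (v : Fin k → ℤ) : ℝ :=
  (dotv t v - sqv v / 2 + μ * (g x - g (v +ᵥ x)) / 2) / l1v v

/-- Minus the depth of the point `t` in the cell of the origin. -/
noncomputable def dep {R : ℕ} (hne : (comp k R).Nonempty) (μ : ℝ) (g : X → ℝ) (x : X)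
    (t : Fin k → ℝ) : ℝ :=
  (comp k R).sup' hne (fun v => term μ g x t v)

lemma dotv_add (t t' : Fin k → ℝ) (v : Fin k → ℤ) : dotv (t + t') v = dotv t v + dotv t' v := by
  simp [dotv, add_mul, Finset.sum_add_distrib]

lemma dotv_sub (t t' : Fin k → ℝ) (v : Fin k → ℤ) : dotv (t - t') v = dotv t v - dotv t' v := by
  simp [dotv, sub_mul, Finset.sum_sub_distrib]

lemma dotv_smul (c : ℝ) (t : Fin k → ℝ) (v : Fin k → ℤ) : dotv (c • t) v = c * dotv t v := by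
  simp [dotv, Finset.mul_sum, mul_assoc]

lemma continuous_term [TopologicalSpace X] {μ : ℝ} {g : X → ℝ} (hg : Continuous g)
    (hact : ∀ n : Fin k → ℤ, Continuous (fun x : X => n +ᵥ x)) (v : Fin k → ℤ) :
    Continuous (fun p : X × (Fin k → ℝ) => term μ g p.1 p.2 v) := by
  unfold term dotv
  have h1 : Continuous (fun p : X × (Fin k → ℝ) => g (v +ᵥ p.1)) :=
    hg.comp ((hact v).comp continuous_fst)
  have h2 : Continuous (fun p : X × (Fin k → ℝ) => g p.1) := hg.comp continuous_fst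
  refine Continuous.div_const ?_ _
  refine Continuous.add (Continuous.sub ?_ continuous_const) ?_
  · exact continuous_finsetSum _ (fun i _ => by fun_prop)
  · exact (continuous_const.mul (h2.sub h1)).div_const _

lemma continuous_dep [TopologicalSpace X] {R : ℕ} (hne : (comp k R).Nonempty) {μ : ℝ} {g : X → ℝ}
    (hg : Continuous g) (hact : ∀ n : Fin k → ℤ, Continuous (fun x : X => n +ᵥ x)) :
    Continuous (fun p : X × (Fin k → ℝ) => dep hne μ g p.1 p.2) := by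
  unfold dep
  exact Continuous.finset_sup'_apply hne (fun v _ => continuous_term hg hact v)

lemma dep_le_iff {R : ℕ} (hne : (comp k R).Nonempty) {μ : ℝ} {g : X → ℝ} {x : X}
    {t : Fin k → ℝ} {ρ : ℝ} :
    dep hne μ g x t ≤ ρ ↔ ∀ v ∈ comp k R, term μ g x t v ≤ ρ := by
  unfold dep
  exact Finset.sup'_le_iff hne _

lemma dep_lt_iff {R : ℕ} (hne : (comp k R).Nonempty) {μ : ℝ} {g : X → ℝ} {x : X}
    {t : Fin k → ℝ} {ρ : ℝ} :
    dep hne μ g x t < ρ ↔ ∀ v ∈ comp k R, term μ g x t v < ρ := by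
  unfold dep
  exact Finset.sup'_lt_iff hne

lemma term_le_dep {R : ℕ} (hne : (comp k R).Nonempty) {μ : ℝ} {g : X → ℝ} {x : X}
    {t : Fin k → ℝ} {v : Fin k → ℤ} (hv : v ∈ comp k R) :
    term μ g x t v ≤ dep hne μ g x t :=
  (dep_le_iff hne).1 le_rfl v hv

lemma exists_term_eq {R : ℕ} (hne : (comp k R).Nonempty) (μ : ℝ) (g : X → ℝ) (x : X)
    (t : Fin k → ℝ) : ∃ v ∈ comp k R, dep hne μ g x t = term μ g x t v :=
  Finset.exists_mem_eq_sup' hne _

attribute [irreducible] dep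

lemma continuous_dep_left [TopologicalSpace X] {R : ℕ} (hne : (comp k R).Nonempty) {μ : ℝ}
    {g : X → ℝ} (hg : Continuous g)
    (hact : ∀ n : Fin k → ℤ, Continuous (fun x : X => n +ᵥ x)) (t : Fin k → ℝ) :
    Continuous (fun x : X => dep hne μ g x t) := by
  have h : Continuous (fun p : X × (Fin k → ℝ) => dep hne μ g p.1 p.2) :=
    continuous_dep hne hg hact
  have h2 : Continuous (fun x : X => (x, t)) := continuous_id.prodMk continuous_const
  exact h.comp h2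

lemma term_sub_le {μ : ℝ} {g : X → ℝ} {x : X} (t t' : Fin k → ℝ) {v : Fin k → ℤ} (hv : v ≠ 0) :
    term μ g x t' v ≤ term μ g x t v + ‖t' - t‖ := by
  have h1 := abs_dotv_le (t' - t) v
  have h2 := l1v_pos hv
  unfold term
  rw [← sub_le_iff_le_add', ← sub_div, div_le_iff₀ h2]
  rw [dotv_sub] at h1
  have := le_abs_self (dotv t' v - dotv t v)
  linarith

lemma dep_lipschitz {R : ℕ} (hne : (comp k R).Nonempty) {μ : ℝ} {g : X → ℝ} {x : X}
    (t t' : Fin k → ℝ) : dep hne μ g x t' ≤ dep hne μ g x t + ‖t' - t‖ := by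
  rw [dep_le_iff]
  intro v hv
  have h1 := term_sub_le (μ := μ) (g := g) (x := x) t t' (mem_comp.1 hv).1
  have h2 := term_le_dep (μ := μ) (g := g) (x := x) (t := t) hne hv
  linarith

lemma dep_convex {R : ℕ} (hne : (comp k R).Nonempty) {μ : ℝ} {g : X → ℝ} {x : X}
    (t0 t : Fin k → ℝ) {θ : ℝ} (h0 : 0 ≤ θ) (h1 : θ ≤ 1) :
    dep hne μ g x ((1 - θ) • t0 + θ • t) ≤
      (1 - θ) * dep hne μ g x t0 + θ * dep hne μ g x t := by
  rw [dep_le_iff]
  intro v hv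
  have e : term μ g x ((1 - θ) • t0 + θ • t) v
      = (1 - θ) * term μ g x t0 v + θ * term μ g x t v := by
    unfold term
    rw [dotv_add, dotv_smul, dotv_smul]
    ring
  rw [e]
  exact add_le_add (mul_le_mul_of_nonneg_left (term_le_dep hne hv) (by linarith))
    (mul_le_mul_of_nonneg_left (term_le_dep hne hv) h0)

/-- An integer vector as a real vector. -/
def toR (v : Fin k → ℤ) : Fin k → ℝ := fun i => (v i : ℝ)

lemma toR_add (v w : Fin k → ℤ) : toR (v + w) = toR v + toR w := by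
  ext i; simp [toR]

lemma toR_sub (v w : Fin k → ℤ) : toR (v - w) = toR v - toR w := by
  ext i; simp [toR]

lemma toR_neg (v : Fin k → ℤ) : toR (-v) = - toR v := by
  ext i; simp [toR]

lemma dotv_toR_self (v : Fin k → ℤ) : dotv (toR v) v = sqv v := by
  simp [dotv, toR, sqv, sq]

lemma dotv_neg_right (t : Fin k → ℝ) (v : Fin k → ℤ) : dotv t (-v) = - dotv t v := by
  simp [dotv]

lemma sqv_neg (v : Fin k → ℤ) : sqv (-v) = sqv v := by
  simp [sqv]

lemma l1v_neg (v : Fin k → ℤ) : l1v (-v) = l1v v := by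
  simp [l1v]

/-- The interiors of different cells are disjoint. -/
lemma unique_cell {R : ℕ} (hne : (comp k R).Nonempty) {μ : ℝ} {g : X → ℝ} {x : X}
    {t : Fin k → ℝ} {n : Fin k → ℤ} (hn : n ∈ ibox k R)
    (h1 : dep hne μ g x t < 0) (h2 : dep hne μ g (n +ᵥ x) (t - toR n) < 0) : n = 0 := by
  by_contra hn0
  have hn' : n ∈ comp k R := mem_comp.2 ⟨hn0, mem_ibox.1 hn⟩
  have hn'' : -n ∈ comp k R := mem_comp.2 ⟨neg_ne_zero.2 hn0, fun i => by
    simpa using mem_ibox.1 hn i⟩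
  have a1 := (dep_lt_iff hne).1 h1 n hn'
  have a2 := (dep_lt_iff hne).1 h2 (-n) hn''
  have hl := l1v_pos hn0
  unfold term at a1 a2
  rw [dotv_neg_right, sqv_neg, l1v_neg, dotv_sub, dotv_toR_self, neg_vadd_vadd] at a2
  rw [div_lt_iff₀ hl, zero_mul] at a1 a2
  linarith

/-- Marker functions: `N`-separated support and `{h = 1}` is `M`-dense along the orbits. -/
structure IsMarker [TopologicalSpace X] (N M : ℕ) (h : X → ℝ) : Prop where
  cont : Continuous h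
  nonneg : ∀ x, 0 ≤ h x
  le_one : ∀ x, h x ≤ 1
  sep : ∀ (x : X) (n : Fin k → ℤ), n ≠ 0 → 0 < h x → 0 < h (n +ᵥ x) → ∃ i, (N : ℤ) ≤ |n i|
  dense : ∀ x : X, ∃ n : Fin k → ℤ, (∀ i, |n i| ≤ (M : ℤ)) ∧ h (n +ᵥ x) = 1

lemma sqv_le {v : Fin k → ℤ} {M : ℝ} (h : ∀ i, |(v i : ℝ)| ≤ M) : sqv v ≤ k * M ^ 2 := by
  calc sqv v ≤ ∑ _i : Fin k, M ^ 2 := Finset.sum_le_sum (fun i _ => by
        rw [← sq_abs]
        exact pow_le_pow_left₀ (abs_nonneg _) (h i) 2)
    _ = k * M ^ 2 := by simp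

lemma sqv_add (n v : Fin k → ℤ) : sqv (n + v) = sqv n + 2 * dotv (toR n) v + sqv v := by
  simp only [sqv, dotv, toR, Finset.mul_sum, ← Finset.sum_add_distrib]
  refine Finset.sum_congr rfl (fun i _ => ?_)
  simp
  ring

/-- Every point is in some cell. -/
lemma exists_cell (hk : 1 ≤ k) {R : ℕ} (hne : (comp k R).Nonempty) {μ : ℝ} (hμ : 0 ≤ μ)
    {g : X → ℝ} (hg : ∀ x, 0 ≤ g x) {M : ℕ}
    (hM : ∀ x : X, ∃ n : Fin k → ℤ, (∀ i, |n i| ≤ (M : ℤ)) ∧ g (n +ᵥ x) = 0) (x : X) :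
    ∃ n : Fin k → ℤ, (∀ i, |n i| ≤ ((k * M : ℕ) : ℤ)) ∧
      dep hne μ g (n +ᵥ x) (toR (-n)) ≤ 0 := by
  set f : (Fin k → ℤ) → ℝ := fun n => sqv n + μ * g (n +ᵥ x) with hf
  obtain ⟨m0, hm0, hm0'⟩ := hM x
  have hm0B : m0 ∈ ibox k (k * M) := by
    rw [mem_ibox]
    intro i
    refine (hm0 i).trans ?_
    exact_mod_cast Nat.le_mul_of_pos_left M hk
  obtain ⟨n, hn, hmin⟩ := Finset.exists_min_image (ibox k (k * M)) f ⟨m0, hm0B⟩
  refine ⟨n, mem_ibox.1 hn, ?_⟩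
  have hglob : ∀ m, f n ≤ f m := by
    intro m
    by_cases hm : m ∈ ibox k (k * M)
    · exact hmin m hm
    · have h1 : f n ≤ f m0 := hmin m0 hm0B
      have h2 : f m0 ≤ k * (M : ℝ) ^ 2 := by
        simp only [hf, hm0', mul_zero, add_zero]
        refine sqv_le (fun i => ?_)
        exact_mod_cast hm0 i
      rw [mem_ibox] at hm
      push Not at hm
      obtain ⟨i, hi⟩ := hm
      have h3 : ((k * M : ℕ) : ℝ) ≤ |(m i : ℝ)| := by exact_mod_cast hi.le
      have h4 : ((k * M : ℕ) : ℝ) ^ 2 ≤ sqv m := by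
        refine (pow_le_pow_left₀ (by positivity) h3 2).trans ?_
        rw [sq_abs]
        exact Finset.single_le_sum (f := fun i => (m i : ℝ) ^ 2) (fun i _ => sq_nonneg _)
          (Finset.mem_univ i)
      have h5 : (k : ℝ) * (M : ℝ) ^ 2 ≤ ((k * M : ℕ) : ℝ) ^ 2 := by
        push_cast
        have hk' : (1 : ℝ) ≤ k := by exact_mod_cast hk
        have : (k : ℝ) ≤ (k : ℝ) ^ 2 := by nlinarith
        have h6 : (0 : ℝ) ≤ (M : ℝ) ^ 2 := by positivity
        nlinarith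
      have h7 : 0 ≤ μ * g (m +ᵥ x) := mul_nonneg hμ (hg _)
      simp only [hf] at h1 h2 ⊢
      linarith
  rw [dep_le_iff]
  intro v hv
  have hv0 := l1v_pos (mem_comp.1 hv).1
  unfold term
  rw [div_le_iff₀ hv0, zero_mul]
  have h1 := hglob (v + n)
  simp only [hf] at h1
  have h2 : sqv (v + n) = sqv n + 2 * dotv (toR n) v + sqv v := by
    rw [add_comm v n, sqv_add]
  have h3 : dotv (toR (-n)) v = - dotv (toR n) v := by
    simp [dotv, toR]
  rw [h2] at h1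
  rw [h3, vadd_vadd]
  linarith

/-- Cells are bounded, and the weight of a non-empty cell is bounded. -/
lemma cell_bound (hk : 1 ≤ k) {R : ℕ} (hne : (comp k R).Nonempty) {μ : ℝ} (hμ : 0 ≤ μ)
    {g : X → ℝ} (hg : ∀ x, 0 ≤ g x) {M : ℕ}
    (hM : ∀ x : X, ∃ n : Fin k → ℤ, (∀ i, |n i| ≤ (M : ℤ)) ∧ g (n +ᵥ x) = 0) (x : X)
    {t : Fin k → ℝ} (ht : ‖t‖ + M + 1 ≤ R) {ρ : ℝ} (hρ : 0 ≤ ρ) (h : dep hne μ g x t ≤ ρ) :
    ‖t‖ ≤ k * (M + 1) + 2 * k * ρ ∧ μ * g x ≤ k * (M + 1) ^ 2 + 2 * ρ * k * R := by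
  have hk' : (1 : ℝ) ≤ k := by exact_mod_cast hk
  set m1 : Fin k → ℤ := fun i => ⌊t i⌋ with hm1
  obtain ⟨m2, hm2, hm2'⟩ := hM (m1 +ᵥ x)
  set m0 : Fin k → ℤ := m2 + m1 with hm0
  have hm0' : g (m0 +ᵥ x) = 0 := by rw [hm0, ← vadd_vadd]; exact hm2'
  have hdist : ∀ i, |t i - (m0 i : ℝ)| ≤ M + 1 := by
    intro i
    have h1 : |(m2 i : ℝ)| ≤ M := by exact_mod_cast hm2 i
    have h2 : (m1 i : ℝ) ≤ t i := Int.floor_le _
    have h3 : t i < m1 i + 1 := Int.lt_floor_add_one _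
    rw [abs_le] at h1 ⊢
    have h4 : (m0 i : ℝ) = m2 i + m1 i := by simp [hm0]
    rw [h4]
    constructor <;> linarith [h1.1, h1.2]
  have hm0R : ∀ i, |(m0 i : ℝ)| ≤ ‖t‖ + M + 1 := by
    intro i
    have h1 := hdist i
    have h2 : |t i| ≤ ‖t‖ := norm_le_pi_norm t i
    have h3 : (m0 i : ℝ) = t i - (t i - m0 i) := by ring
    rw [h3]
    refine (abs_sub _ _).trans ?_
    linarith
  by_cases hz : m0 = 0
  · have h1 : ‖t‖ ≤ M + 1 := by
      rw [pi_norm_le_iff_of_nonneg (by positivity)]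
      intro i
      have := hdist i
      simpa [hz] using this
    have h2 : g x = 0 := by rw [hz, zero_vadd] at hm0'; exact hm0'
    have h3 : (0 : ℝ) ≤ M := Nat.cast_nonneg _
    have hR : (0 : ℝ) ≤ R := Nat.cast_nonneg _
    refine ⟨?_, ?_⟩
    · have h4 : (0 : ℝ) ≤ 2 * k * ρ := by positivity
      nlinarith
    · rw [h2, mul_zero]
      positivity
  · have hmc : m0 ∈ comp k R := by
      rw [mem_comp]
      refine ⟨hz, fun i => ?_⟩
      have := (hm0R i).trans ht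
      exact_mod_cast this
    have h1 : term μ g x t m0 ≤ ρ := (term_le_dep hne hmc).trans h
    have hl := l1v_pos hz
    unfold term at h1
    rw [hm0', div_le_iff₀ hl] at h1
    have h2 : l1v m0 ≤ k * (‖t‖ + M + 1) := l1v_le hm0R
    have h3 : l1v m0 ≤ k * R := l1v_le (fun i => (hm0R i).trans ht)
    have h4 : ∑ i, (t i - (m0 i : ℝ)) ^ 2 ≤ k * ((M : ℝ) + 1) ^ 2 := by
      calc ∑ i, (t i - (m0 i : ℝ)) ^ 2 ≤ ∑ _i : Fin k, ((M : ℝ) + 1) ^ 2 :=
            Finset.sum_le_sum (fun i _ => by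
              rw [← sq_abs]
              exact pow_le_pow_left₀ (abs_nonneg _) (hdist i) 2)
        _ = k * ((M : ℝ) + 1) ^ 2 := by simp
    have h5 : ∑ i, (t i - (m0 i : ℝ)) ^ 2 = ∑ i, (t i) ^ 2 - 2 * dotv t m0 + sqv m0 := by
      simp only [dotv, sqv, Finset.mul_sum, ← Finset.sum_sub_distrib, ← Finset.sum_add_distrib]
      refine Finset.sum_congr rfl (fun i _ => ?_)
      ring
    have h6 : ‖t‖ ^ 2 ≤ ∑ i, (t i) ^ 2 := by
      have h61 : ‖t‖ ≤ Real.sqrt (∑ i, (t i) ^ 2) := by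
        rw [pi_norm_le_iff_of_nonneg (Real.sqrt_nonneg _)]
        intro i
        exact Real.abs_le_sqrt (Finset.single_le_sum (f := fun i => (t i) ^ 2)
          (fun i _ => sq_nonneg _) (Finset.mem_univ i))
      calc ‖t‖ ^ 2 ≤ (Real.sqrt (∑ i, (t i) ^ 2)) ^ 2 := pow_le_pow_left₀ (norm_nonneg _) h61 2
        _ = ∑ i, (t i) ^ 2 := Real.sq_sqrt (Finset.sum_nonneg (fun i _ => sq_nonneg _))
    have h7 : 0 ≤ μ * g x := mul_nonneg hμ (hg x)
    have h8 : (0 : ℝ) ≤ ‖t‖ := norm_nonneg t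
    have h9 : (0 : ℝ) ≤ M := Nat.cast_nonneg _
    have h10 : ρ * l1v m0 ≤ ρ * (k * (‖t‖ + M + 1)) := mul_le_mul_of_nonneg_left h2 hρ
    have h11 : ρ * l1v m0 ≤ ρ * (k * R) := mul_le_mul_of_nonneg_left h3 hρ
    refine ⟨?_, ?_⟩
    · by_contra hcon
      push Not at hcon
      have h12 : ‖t‖ ^ 2 ≤ k * ((M : ℝ) + 1) ^ 2 + 2 * ρ * (k * (‖t‖ + M + 1)) := by linarith
      have h13 : k * ((M : ℝ) + 1) < ‖t‖ - 2 * k * ρ := by linarith
      have h14 : 0 ≤ (k : ℝ) * (M + 1) := by positivity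
      have h15 : 0 ≤ 2 * k * ρ := by positivity
      have h16 : ‖t‖ * (k * ((M : ℝ) + 1)) < ‖t‖ * (‖t‖ - 2 * k * ρ) := by
        apply mul_lt_mul_of_pos_left h13
        have : (0 : ℝ) < k * (M + 1) := by positivity
        linarith
      have h17 : (k * ((M : ℝ) + 1) + 2 * k * ρ) * (k * ((M : ℝ) + 1))
          ≤ ‖t‖ * (k * ((M : ℝ) + 1)) := mul_le_mul_of_nonneg_right hcon.le h14
      have h18 : k * ((M : ℝ) + 1) ^ 2 ≤ (k * ((M : ℝ) + 1)) * (k * ((M : ℝ) + 1)) := by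
        have : 0 ≤ ((M : ℝ) + 1) ^ 2 := by positivity
        nlinarith
      have h19 : 2 * k * ρ * (M + 1) ≤ 2 * k * ρ * (k * ((M : ℝ) + 1)) := by
        apply mul_le_mul_of_nonneg_left _ h15
        nlinarith
      nlinarith
    · have h20 := sq_nonneg ‖t‖
      linarith

/-- The key lemma: the homothetic image of a cell lies deep in the corresponding cell of the
diagram with smaller weights. -/
lemma key_homothety (hk : 1 ≤ k) {R : ℕ} (hne : (comp k R).Nonempty) {μ : ℝ} (hμ : 0 ≤ μ)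
    (hμ1 : μ ≤ 1) {g : X → ℝ} {x : X} {t : Fin k → ℝ} {ρ N Γ : ℝ} (hN : 0 ≤ N) (hΓ0 : 0 ≤ Γ)
    (h : dep hne 1 g x t ≤ ρ)
    (hv : ∀ v ∈ comp k R, (∃ i, N ≤ |(v i : ℝ)|) ∨ g x + Γ ≤ g (v +ᵥ x))
    (hΓ : μ * ‖t‖ - μ * Γ / (2 * k * R) ≤ μ * ρ - (1 - μ) * N / (2 * k)) :
    dep hne μ g x (μ • t) ≤ μ * ρ - (1 - μ) * N / (2 * k) := by
  have hk' : (0 : ℝ) < k := by exact_mod_cast hk
  rw [dep_le_iff]
  intro v hvc
  have hl := l1v_pos (mem_comp.1 hvc).1
  rcases hv v hvc with hlive | hdead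
  · have h1 := (dep_le_iff hne).1 h v hvc
    have h2 := sqv_ge hk hN hlive
    have h3 : term μ g x (μ • t) v = μ * term 1 g x t v - (1 - μ) * (sqv v / l1v v) / 2 := by
      unfold term
      rw [dotv_smul]
      field_simp
      ring
    have h4 : N / k ≤ sqv v / l1v v := by
      rw [le_div_iff₀ hl]; exact h2
    have h5 : (1 - μ) * N / (2 * k) = (1 - μ) * (N / k) / 2 := by
      field_simp
    rw [h3, h5]
    have h6 : (1 - μ) * (N / k) ≤ (1 - μ) * (sqv v / l1v v) :=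
      mul_le_mul_of_nonneg_left h4 (by linarith)
    have h7 : μ * term 1 g x t v ≤ μ * ρ := mul_le_mul_of_nonneg_left h1 hμ
    linarith
  · refine le_trans ?_ hΓ
    unfold term
    rw [div_le_iff₀ hl, dotv_smul]
    have h1 : dotv t v ≤ ‖t‖ * l1v v := (le_abs_self _).trans (abs_dotv_le t v)
    have h2 : 0 ≤ sqv v := Finset.sum_nonneg (fun i _ => sq_nonneg _)
    have h3 : l1v v ≤ k * R := l1v_le (fun i => by exact_mod_cast (mem_comp.1 hvc).2 i)
    have hkR : 0 < (k : ℝ) * R := hl.trans_le h3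
    have hR : (0 : ℝ) < R := by
      by_contra hcon
      push Not at hcon
      nlinarith
    have h4 : μ * Γ / (2 * k * R) * l1v v ≤ μ * Γ / 2 := by
      rw [div_mul_eq_mul_div, div_le_div_iff₀ (by positivity) (by norm_num)]
      have h5 : 0 ≤ μ * Γ := mul_nonneg hμ hΓ0
      nlinarith [mul_le_mul_of_nonneg_left h3 h5]
    have h6 : μ * dotv t v ≤ μ * (‖t‖ * l1v v) := mul_le_mul_of_nonneg_left h1 hμ
    have h7 : μ * (g x - g (v +ᵥ x)) ≤ μ * (-Γ) :=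
      mul_le_mul_of_nonneg_left (by linarith) hμ
    nlinarith

end BandLim48
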